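import Pool.Agent.MP_89edc2_al.H5.Spec

/-!
# Cones are blocks, and disjoint cones which miss a third one are adjacent
-/

namespace Pool.Agent.MP_89edc2_al.H5

namespace Adjx

theorem cons_inj {b c : Bool} {x y : X} (h : cons b x = cons c y) : b = c ∧ x = y :=
  ⟨congrFun h 0, funext fun n => congrFun h (n + 1)⟩

theorem pre_inj (a : List Bool) : Function.Injective (pre a) := by
  induction a with
  | nil => exact fun _ _ h => h
  | cons b a ih => exact fun _ _ h => ih (cons_inj h).2

theorem pre_app (a w : List Bool) (x : X) : pre (a ++ w) x = pre a (pre w x) := by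
  induction a with
  | nil => rfl
  | cons b a ih => exact congrArg (cons b) ih

/-- Disjoint cones. -/
def D (a b : List Bool) : Prop := ∀ x y, pre a x ≠ pre b y

theorem D.good {a b : List Bool} (h : D a b) : Good (pre a) (pre b) := ⟨pre_inj a, pre_inj b, h⟩

theorem D.symm {a b : List Bool} (h : D a b) : D b a := fun x y e => h y x e.symm

theorem D.app {a b : List Bool} (h : D a b) (w : List Bool) : D a (b ++ w) := fun x y => by
  rw [pre_app]
  exact h x _

theorem D.split (a u w : List Bool) : D (a ++ true :: u) (a ++ false :: w) := fun x y e => by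
  rw [pre_app, pre_app] at e
  exact absurd (cons_inj (pre_inj a e)).1 (by decide)

/-- The transposition of two cones. -/
noncomputable def t (a b : List Bool) : V :=
  ⟨tr (pre a) (pre b), Subgroup.subset_closure ⟨a, b, rfl⟩⟩

theorem t_apply {a b : List Bool} (h : D a b) (f : X → X) (x : X) :
    (t a b • f) x = trf (pre a) (pre b) (f x) := by
  change tr (pre a) (pre b) (f x) = _
  rw [tr, dif_pos h.good]
  rfl

theorem t_left {a b : List Bool} (h : D a b) : t a b • pre a = pre b :=
  funext fun x => (t_apply h _ x).trans (trf_left h.good x)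

theorem t_other {a b c : List Bool} (h : D a b) (h1 : D a c) (h2 : D b c) :
    t a b • pre c = pre c :=
  funext fun x => (t_apply h _ x).trans (trf_other (fun y => h1 y x) fun y => h2 y x)

theorem smul_app {g : V} {a b : List Bool} (h : g • pre a = pre b) (w : List Bool) :
    g • pre (a ++ w) = pre (b ++ w) := funext fun x => by
  have := congrFun h (pre w x)
  rw [pre_app b, ← this, Pi.smul_apply, Pi.smul_apply, pre_app]

theorem one (δ : List Bool) (h : δ ≠ []) : ∃ g : V, g • (cons false : X → X) = pre δ := by
  have h1 : ∀ w, t [false] (true :: w) • (cons false : X → X) = pre (true :: w) := fun w =>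
    t_left (D.split [] w []).symm
  rcases δ with _ | ⟨_ | _, w⟩
  · exact absurd rfl h
  · exact ⟨t [true] (false :: w) * t [false] [true], by
      rw [mul_smul, h1]
      exact t_left (D.split [] [] w)⟩
  · exact ⟨_, h1 w⟩

/-- The pair of cones lies in the orbit of the base pair. -/
def R (a b : List Bool) : Prop :=
  ∃ g : V, pre a = g • (cons false : X → X) ∧ pre b = g • (pre [true, false] : X → X)

theorem R.smul {a b c d : List Bool} (h : R a b) (g : V) (h1 : g • pre a = pre c)
    (h2 : g • pre b = pre d) : R c d := by
  obtain ⟨k, e1, e2⟩ := h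
  exact ⟨g * k, by rw [mul_smul, ← e1, h1], by rw [mul_smul, ← e2, h2]⟩

theorem R.right {a b c : List Bool} (h : R a b) (h1 : D a b) (h2 : D a c) (h3 : D b c) : R a c :=
  h.smul (t b c) (t_other h3 h1.symm h2.symm) (t_left h3)

theorem R.left {a b c : List Bool} (h : R a b) (h1 : D a b) (h2 : D a c) (h3 : D b c) : R c b :=
  h.smul (t a c) (t_left h2) (t_other h2 h1 h3.symm)

theorem base : R ([true, true] ++ [true]) ([true, true] ++ [false]) := by
  have h0 : R [false] [true, false] := ⟨1, by rw [one_smul]; rfl, by rw [one_smul]⟩
  have h1 : R [false] [true, true, false] :=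
    h0.right (D.split [] [false] []).symm (D.split [] [true, false] []).symm
      (D.split [true] [false] []).symm
  exact h1.left (D.split [] [true, false] []).symm (D.split [] [true, true] []).symm
    (D.split [true, true] [] []).symm

theorem park (z : List Bool) (h : z ≠ []) : R (z ++ [true]) (z ++ [false]) := by
  obtain ⟨g, hg⟩ := one z h
  obtain ⟨k, hk⟩ := one [true, true] (by simp)
  have e : (g * k⁻¹) • pre [true, true] = pre z := by
    rw [mul_smul, ← hk, inv_smul_smul, hg]
  exact base.smul (g * k⁻¹) (smul_app e _) (smul_app e _)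

end Adjx

open Adjx in
theorem adj_main (h : SpTr) : SpAdj := by
  have _ := h
  refine ⟨one, fun a b z h1 h2 h3 => ?_⟩
  have d1 : D a b := h1.2.2
  have d2 : D a z := h2.2.2
  have d3 : D b z := h3.2.2
  have hz : z ≠ [] := by
    rintro rfl
    exact d2 (fun _ => false) _ rfl
  have r1 : R a (z ++ [false]) :=
    (park z hz).left (D.split z [] []) (d2.app _).symm (d2.app _).symm
  exact r1.right (d2.app _) d1 (d3.app _).symm

end Pool.Agent.MP_89edc2_al.H5
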