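import Pool.Agent.MP_89edc2_al.H5.Spec

/-!
# Row AH: a system of gates gives an acylindrical action on a hyperbolic graph
-/

namespace Pool.Agent.MP_89edc2_al.H5

namespace Ahx

variable {G P Γ : Type} [Group G] [MulAction G P] [MulAction G Γ] (𝒢 : Gates G P Γ)

/-- The gates between two points. -/
def Sp (x y : P) : Set Γ := {γ | x ∈ 𝒢.A γ ∧ y ∈ 𝒢.B γ}

theorem n_eq (x y : P) : 𝒢.n x y = (Sp 𝒢 x y).ncard := rfl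

theorem sp_fin (x y : P) : (Sp 𝒢 x y).Finite := 𝒢.fin x y

theorem B_rev (γ : Γ) : 𝒢.B (𝒢.rev γ) = 𝒢.A γ := by
  rw [← 𝒢.A_rev, 𝒢.rev_rev]

theorem n_le_symm (x y : P) : 𝒢.n x y ≤ 𝒢.n y x := by
  rw [n_eq, n_eq]
  refine Set.ncard_le_ncard_of_injOn 𝒢.rev (fun γ h => ?_) (fun a _ b _ h => ?_) (sp_fin 𝒢 y x)
  · refine ⟨?_, ?_⟩
    · rw [𝒢.A_rev]; exact h.2
    · rw [B_rev]; exact h.1
  · rw [← 𝒢.rev_rev a, h, 𝒢.rev_rev]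

theorem n_symm (x y : P) : 𝒢.n x y = 𝒢.n y x :=
  le_antisymm (n_le_symm 𝒢 x y) (n_le_symm 𝒢 y x)

theorem n_self (x : P) : 𝒢.n x x = 0 := by
  rw [n_eq, Set.ncard_eq_zero (sp_fin 𝒢 x x)]
  exact Set.eq_empty_of_forall_notMem fun γ h => 𝒢.disj γ x h.1 h.2

theorem n_le_smul (g : G) (x y : P) : 𝒢.n x y ≤ 𝒢.n (g • x) (g • y) := by
  rw [n_eq, n_eq]
  refine Set.ncard_le_ncard_of_injOn (fun γ => g • γ) (fun γ h => ?_) (fun a _ b _ h => ?_)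
    (sp_fin 𝒢 _ _)
  · exact ⟨(𝒢.smul_A g γ x).2 h.1, (𝒢.smul_B g γ y).2 h.2⟩
  · exact MulAction.injective g h

theorem n_smul (g : G) (x y : P) : 𝒢.n (g • x) (g • y) = 𝒢.n x y := by
  refine le_antisymm ?_ (n_le_smul 𝒢 g x y)
  have h := n_le_smul 𝒢 g⁻¹ (g • x) (g • y)
  rwa [inv_smul_smul, inv_smul_smul] at h

/-- An index function on the gates between two points. -/
structure Idx (x y : P) (ix : Γ → ℕ) : Prop where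
  lt : ∀ γ ∈ Sp 𝒢 x y, ix γ < 𝒢.n x y
  inj : Set.InjOn ix (Sp 𝒢 x y)
  surj : ∀ i < 𝒢.n x y, ∃ γ ∈ Sp 𝒢 x y, ix γ = i
  nest : ∀ γ ∈ Sp 𝒢 x y, ∀ γ' ∈ Sp 𝒢 x y, ix γ + 2 ≤ ix γ' → ∀ z, z ∉ 𝒢.A γ' → z ∈ 𝒢.B γ

theorem exists_idx (x y : P) : ∃ ix, Idx 𝒢 x y ix := by
  obtain ⟨rk, hinj, hord⟩ := 𝒢.ord x y
  have hf := sp_fin 𝒢 x y
  let ix : Γ → ℕ := fun γ => {γ' ∈ Sp 𝒢 x y | rk γ' < rk γ}.ncard
  have mono : ∀ γ ∈ Sp 𝒢 x y, ∀ γ', rk γ < rk γ' → ix γ < ix γ' := by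
    intro γ hγ γ' h
    refine Set.ncard_lt_ncard ⟨fun a ha => ⟨ha.1, ha.2.trans h⟩, fun hs => ?_⟩
      (hf.subset fun a ha => ha.1)
    exact lt_irrefl _ (hs ⟨hγ, h⟩).2
  have back : ∀ γ ∈ Sp 𝒢 x y, ∀ γ' ∈ Sp 𝒢 x y, ix γ < ix γ' → rk γ < rk γ' := by
    intro γ hγ γ' hγ' h
    rcases lt_trichotomy (rk γ) (rk γ') with h1 | h1 | h1
    · exact h1
    · rw [hinj hγ hγ' h1] at h
      exact absurd h (lt_irrefl _)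
    · exact absurd (mono γ' hγ' γ h1) (by omega)
  have hlt : ∀ γ ∈ Sp 𝒢 x y, ix γ < 𝒢.n x y := by
    intro γ hγ
    refine Set.ncard_lt_ncard ⟨fun a ha => ha.1, fun hs => ?_⟩ hf
    exact lt_irrefl _ (hs hγ).2
  have hi : Set.InjOn ix (Sp 𝒢 x y) := by
    intro γ hγ γ' hγ' h
    rcases lt_trichotomy (rk γ) (rk γ') with h1 | h1 | h1
    · exact absurd (mono γ hγ γ' h1) (by omega)
    · exact hinj hγ hγ' h1
    · exact absurd (mono γ' hγ' γ h1) (by omega)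
  have hs : ∀ i < 𝒢.n x y, ∃ γ ∈ Sp 𝒢 x y, ix γ = i := by
    have h1 : ix '' Sp 𝒢 x y = Set.Iio (𝒢.n x y) := by
      refine Set.eq_of_subset_of_ncard_le ?_ ?_ (Set.finite_Iio _)
      · rintro _ ⟨γ, hγ, rfl⟩
        exact hlt γ hγ
      · rw [Set.ncard_image_of_injOn hi, Set.ncard_Iio_nat]
        exact le_rfl
    intro i hi'
    have h2 : i ∈ ix '' Sp 𝒢 x y := by rw [h1]; exact hi'
    exact h2
  refine ⟨ix, hlt, hi, hs, fun γ hγ γ' hγ' h z hz => ?_⟩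
  obtain ⟨γ₁, h1, h2⟩ := hs (ix γ + 1) (by have := hlt γ' hγ'; omega)
  exact hord γ γ₁ γ' hγ.1 hγ.2 h1.1 h1.2 hγ'.1 hγ'.2 (back γ hγ γ₁ h1 (by omega))
    (back γ₁ h1 γ' hγ' (by omega)) z hz

variable {𝒢}

theorem Idx.le {x y : P} {ix : Γ → ℕ} (h : Idx 𝒢 x y ix) {T : Set Γ} (a b : ℕ)
    (h1 : T ⊆ Sp 𝒢 x y) (h2 : ∀ γ ∈ T, a ≤ ix γ ∧ ix γ < b) : T.ncard ≤ b - a := by
  have h3 := Set.ncard_le_ncard_of_injOn (s := T) (t := Set.Ico a b) ix h2 (h.inj.mono h1)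
    (Set.finite_Ico a b)
  rwa [Set.ncard_Ico_nat] at h3

theorem Idx.ge {x y : P} {ix : Γ → ℕ} (h : Idx 𝒢 x y ix) {T : Set Γ} (a b : ℕ)
    (hb : b ≤ 𝒢.n x y) (hT : T.Finite)
    (h2 : ∀ γ ∈ Sp 𝒢 x y, a ≤ ix γ → ix γ < b → γ ∈ T) : b - a ≤ T.ncard := by
  have h3 : Set.Ico a b ⊆ ix '' T := by
    intro i hi
    obtain ⟨γ, h4, h5⟩ := h.surj i (lt_of_lt_of_le hi.2 hb)
    exact ⟨γ, h2 γ h4 (h5 ▸ hi.1) (h5 ▸ hi.2), h5⟩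
  have h4 := Set.ncard_le_ncard h3 (hT.image ix)
  rw [Set.ncard_Ico_nat] at h4
  exact h4.trans (Set.ncard_image_le hT)

theorem Idx.midB {x y : P} {ix : Γ → ℕ} (h : Idx 𝒢 x y ix) {γ γ' : Γ} (h1 : γ ∈ Sp 𝒢 x y)
    (h2 : γ' ∈ Sp 𝒢 x y) (h3 : ix γ' + 2 ≤ ix γ) : 𝒢.mid γ ∈ 𝒢.B γ' :=
  h.nest γ' h2 γ h1 h3 _ (𝒢.mid_A γ)

theorem Idx.midA {x y : P} {ix : Γ → ℕ} (h : Idx 𝒢 x y ix) {γ γ' : Γ} (h1 : γ ∈ Sp 𝒢 x y)
    (h2 : γ' ∈ Sp 𝒢 x y) (h3 : ix γ + 2 ≤ ix γ') : 𝒢.mid γ ∈ 𝒢.A γ' := by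
  by_contra h4
  exact 𝒢.mid_B γ (h.nest γ h1 γ' h2 h3 _ h4)

theorem sub_left {x y : P} {γ : Γ} (h1 : γ ∈ Sp 𝒢 x y) : Sp 𝒢 x (𝒢.mid γ) ⊆ Sp 𝒢 x y :=
  fun γ' h => ⟨h.1, 𝒢.subL x y γ γ' h1.1 h1.2 h.1 h.2⟩

theorem sub_right {x y : P} {γ : Γ} (h1 : γ ∈ Sp 𝒢 x y) : Sp 𝒢 (𝒢.mid γ) y ⊆ Sp 𝒢 x y :=
  fun γ' h => ⟨𝒢.subR x y γ γ' h1.1 h1.2 h.1 h.2, h.2⟩

theorem Idx.left_ge {x y : P} {ix : Γ → ℕ} (h : Idx 𝒢 x y ix) {γ : Γ} (h1 : γ ∈ Sp 𝒢 x y) :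
    ix γ ≤ 𝒢.n x (𝒢.mid γ) + 1 := by
  have h2 := h.ge (T := Sp 𝒢 x (𝒢.mid γ)) 0 (ix γ - 1) (by have := h.lt γ h1; omega)
    (sp_fin 𝒢 _ _) fun γ' h3 _ h4 => ⟨h3.1, h.midB h1 h3 (by omega)⟩
  rw [n_eq]
  omega

theorem Idx.left_le {x y : P} {ix : Γ → ℕ} (h : Idx 𝒢 x y ix) {γ : Γ} (h1 : γ ∈ Sp 𝒢 x y) :
    𝒢.n x (𝒢.mid γ) ≤ ix γ + 2 := by
  refine h.le 0 (ix γ + 2) (sub_left h1) fun γ' h3 => ⟨Nat.zero_le _, ?_⟩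
  by_contra h4
  exact 𝒢.disj γ' _ (h.midA h1 (sub_left h1 h3) (by omega)) h3.2

theorem Idx.right_ge {x y : P} {ix : Γ → ℕ} (h : Idx 𝒢 x y ix) {γ : Γ} (h1 : γ ∈ Sp 𝒢 x y) :
    𝒢.n x y ≤ 𝒢.n (𝒢.mid γ) y + ix γ + 2 := by
  have h2 := h.ge (T := Sp 𝒢 (𝒢.mid γ) y) (ix γ + 2) (𝒢.n x y) le_rfl
    (sp_fin 𝒢 _ _) fun γ' h3 h4 _ => ⟨h.midA h1 h3 h4, h3.2⟩
  rw [n_eq 𝒢 (𝒢.mid γ)]
  omega

theorem Idx.right_le {x y : P} {ix : Γ → ℕ} (h : Idx 𝒢 x y ix) {γ : Γ} (h1 : γ ∈ Sp 𝒢 x y) :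
    𝒢.n (𝒢.mid γ) y ≤ 𝒢.n x y - (ix γ - 1) := by
  refine h.le (ix γ - 1) (𝒢.n x y) (sub_right h1) fun γ' h3 => ⟨?_, h.lt _ (sub_right h1 h3)⟩
  by_contra h4
  exact 𝒢.disj γ' _ h3.1 (h.midB h1 (sub_right h1 h3) (by omega))

variable (𝒢)

/-- At most two gates between `x` and `y` have `z` on neither side. -/
theorem gap_le (x y z : P) : {γ ∈ Sp 𝒢 x y | z ∉ 𝒢.A γ ∧ z ∉ 𝒢.B γ}.ncard ≤ 2 := by
  obtain ⟨ix, h⟩ := exists_idx 𝒢 x y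
  rcases Set.eq_empty_or_nonempty {γ ∈ Sp 𝒢 x y | z ∉ 𝒢.A γ ∧ z ∉ 𝒢.B γ} with he | hne
  · rw [he]; simp
  obtain ⟨γ₀, h0, hmin⟩ := Set.exists_min_image _ ix
    ((sp_fin 𝒢 x y).subset fun a (ha : a ∈ {γ ∈ Sp 𝒢 x y | z ∉ 𝒢.A γ ∧ z ∉ 𝒢.B γ}) => ha.1) hne
  have h1 := h.le (T := {γ ∈ Sp 𝒢 x y | z ∉ 𝒢.A γ ∧ z ∉ 𝒢.B γ}) (ix γ₀) (ix γ₀ + 2)
    (fun a ha => ha.1) fun γ hγ => ⟨hmin γ hγ, by
      by_contra h4
      exact h0.2.2 (h.nest γ₀ h0.1 γ hγ.1 (by omega) z hγ.2.1)⟩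
  omega

theorem n_tri (x y z : P) : 𝒢.n x y ≤ 𝒢.n x z + 𝒢.n z y + 2 := by
  have hs : Sp 𝒢 x y ⊆ (Sp 𝒢 x z ∪ Sp 𝒢 z y) ∪ {γ ∈ Sp 𝒢 x y | z ∉ 𝒢.A γ ∧ z ∉ 𝒢.B γ} := by
    intro γ hγ
    by_cases h1 : z ∈ 𝒢.A γ
    · exact Or.inl (Or.inr ⟨h1, hγ.2⟩)
    by_cases h2 : z ∈ 𝒢.B γ
    · exact Or.inl (Or.inl ⟨hγ.1, h2⟩)
    · exact Or.inr ⟨hγ, h1, h2⟩
  have h1 := Set.ncard_le_ncard hs (((sp_fin 𝒢 x z).union (sp_fin 𝒢 z y)).union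
    ((sp_fin 𝒢 x y).subset fun a ha => ha.1))
  have h2 := Set.ncard_union_le (Sp 𝒢 x z ∪ Sp 𝒢 z y) {γ ∈ Sp 𝒢 x y | z ∉ 𝒢.A γ ∧ z ∉ 𝒢.B γ}
  have h3 := Set.ncard_union_le (Sp 𝒢 x z) (Sp 𝒢 z y)
  have h4 := gap_le 𝒢 x y z
  simp only [n_eq]
  omega

/-- The bottleneck inequality. -/
theorem neck {γ₀ : Γ} {x z : P} (hx : x ∈ 𝒢.A γ₀) (hz : z ∉ 𝒢.A γ₀) :
    𝒢.n z (𝒢.mid γ₀) ≤ 𝒢.n z x + 5 := by
  obtain ⟨p, hp, hn⟩ := 𝒢.near γ₀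
  have hs : Sp 𝒢 z (𝒢.mid γ₀) ⊆ ((Sp 𝒢 z x ∪ Sp 𝒢 p (𝒢.mid γ₀)) ∪
      {γ ∈ Sp 𝒢 z (𝒢.mid γ₀) | x ∉ 𝒢.A γ ∧ x ∉ 𝒢.B γ}) ∪
      {γ ∈ Sp 𝒢 z (𝒢.mid γ₀) | p ∉ 𝒢.A γ ∧ p ∉ 𝒢.B γ} := by
    intro γ hγ
    by_cases h1 : x ∈ 𝒢.B γ
    · exact Or.inl (Or.inl (Or.inl ⟨hγ.1, h1⟩))
    by_cases h2 : p ∈ 𝒢.A γ
    · exact Or.inl (Or.inl (Or.inr ⟨h2, hγ.2⟩))
    by_cases h3 : x ∈ 𝒢.A γ
    · by_cases h4 : p ∈ 𝒢.B γ
      · exact (𝒢.cross γ₀ γ x p z _ hx hp hz (𝒢.mid_A γ₀) h3 h4 hγ.1 hγ.2).elim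
      · exact Or.inr ⟨hγ, h2, h4⟩
    · exact Or.inl (Or.inr ⟨hγ, h3, h1⟩)
  have h1 := Set.ncard_le_ncard hs ((((sp_fin 𝒢 z x).union (sp_fin 𝒢 p _)).union
    ((sp_fin 𝒢 z _).subset fun a ha => ha.1)).union ((sp_fin 𝒢 z _).subset fun a ha => ha.1))
  have h2 := Set.ncard_union_le ((Sp 𝒢 z x ∪ Sp 𝒢 p (𝒢.mid γ₀)) ∪
      {γ ∈ Sp 𝒢 z (𝒢.mid γ₀) | x ∉ 𝒢.A γ ∧ x ∉ 𝒢.B γ})
      {γ ∈ Sp 𝒢 z (𝒢.mid γ₀) | p ∉ 𝒢.A γ ∧ p ∉ 𝒢.B γ}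
  have h3 := Set.ncard_union_le (Sp 𝒢 z x ∪ Sp 𝒢 p (𝒢.mid γ₀))
      {γ ∈ Sp 𝒢 z (𝒢.mid γ₀) | x ∉ 𝒢.A γ ∧ x ∉ 𝒢.B γ}
  have h4 := Set.ncard_union_le (Sp 𝒢 z x) (Sp 𝒢 p (𝒢.mid γ₀))
  have h5 := gap_le 𝒢 z (𝒢.mid γ₀) x
  have h6 := gap_le 𝒢 z (𝒢.mid γ₀) p
  have h7 : (Sp 𝒢 p (𝒢.mid γ₀)).ncard ≤ 1 := hn
  simp only [n_eq]
  omega

/-- The graph. -/
def Yg : SimpleGraph P where
  Adj x y := x ≠ y ∧ 𝒢.n x y ≤ 5
  symm := ⟨fun x y h => ⟨h.1.symm, by rw [n_symm]; exact h.2⟩⟩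
  loopless := ⟨fun x h => h.1 rfl⟩

theorem chain (k : ℕ) : ∀ x y : P, 𝒢.n x y ≤ k → ∃ w : (Yg 𝒢).Walk x y,
    w.length ≤ 𝒢.n x y + 1 ∧ ∀ c ∈ w.support, c = x ∨ c = y ∨ ∃ γ ∈ Sp 𝒢 x y, c = 𝒢.mid γ := by
  induction k using Nat.strong_induction_on with
  | _ k ih =>
    intro x y hk
    by_cases h5 : 𝒢.n x y ≤ 5
    · by_cases hxy : x = y
      · subst hxy
        exact ⟨SimpleGraph.Walk.nil, by simp, fun c hc => Or.inl (by simpa using hc)⟩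
      · have ha : (Yg 𝒢).Adj x y := ⟨hxy, h5⟩
        refine ⟨SimpleGraph.Walk.cons ha SimpleGraph.Walk.nil, by simp, fun c hc => ?_⟩
        simp only [SimpleGraph.Walk.support_cons, SimpleGraph.Walk.support_nil, List.mem_cons,
          List.not_mem_nil, or_false] at hc
        rcases hc with hc | hc
        · exact Or.inl hc
        · exact Or.inr (Or.inl hc)
    · obtain ⟨ix, h⟩ := exists_idx 𝒢 x y
      obtain ⟨γ, h1, h2⟩ := h.surj 3 (by omega)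
      have h3 := h.left_le h1
      have h4 := h.right_le h1
      have ha : (Yg 𝒢).Adj x (𝒢.mid γ) :=
        ⟨fun e => 𝒢.mid_A γ (e ▸ h1.1), by omega⟩
      obtain ⟨w, w1, w2⟩ := ih (k - 1) (by omega) (𝒢.mid γ) y (by omega)
      refine ⟨SimpleGraph.Walk.cons ha w, by rw [SimpleGraph.Walk.length_cons]; omega,
        fun c hc => ?_⟩
      rw [SimpleGraph.Walk.support_cons, List.mem_cons] at hc
      rcases hc with hc | hc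
      · exact Or.inl hc
      rcases w2 c hc with e | e | ⟨γ', e1, e2⟩
      · exact Or.inr (Or.inr ⟨γ, h1, e⟩)
      · exact Or.inr (Or.inl e)
      · exact Or.inr (Or.inr ⟨γ', sub_right h1 e1, e2⟩)

theorem conn [Nonempty P] : (Yg 𝒢).Connected :=
  ⟨fun x y => by
    obtain ⟨w, -⟩ := chain 𝒢 _ x y le_rfl
    exact ⟨w⟩⟩

theorem dist_le_n (x y : P) : (Yg 𝒢).dist x y ≤ 𝒢.n x y + 1 := by
  obtain ⟨w, h, -⟩ := chain 𝒢 _ x y le_rfl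
  exact (SimpleGraph.dist_le w).trans h

theorem n_le_len {x y : P} (w : (Yg 𝒢).Walk x y) : 𝒢.n x y ≤ 7 * w.length := by
  induction w with
  | nil => rw [n_self]; exact Nat.zero_le _
  | @cons a b c h w ih =>
    have h1 := n_tri 𝒢 a c b
    have h2 := h.2
    rw [SimpleGraph.Walk.length_cons]
    omega

theorem n_le_dist [Nonempty P] (x y : P) : 𝒢.n x y ≤ 7 * (Yg 𝒢).dist x y := by
  obtain ⟨w, h⟩ := (conn 𝒢).exists_walk_length_eq_dist x y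
  rw [← h]
  exact n_le_len 𝒢 w

theorem neck_walk {γ : Γ} {x y : P} (w : (Yg 𝒢).Walk x y) (hx : x ∈ 𝒢.A γ) (hy : y ∉ 𝒢.A γ) :
    ∃ v ∈ w.support, (Yg 𝒢).dist v (𝒢.mid γ) ≤ 11 := by
  induction w with
  | nil => exact absurd hx hy
  | @cons a b c h w ih =>
    by_cases hb : b ∈ 𝒢.A γ
    · obtain ⟨v, h1, h2⟩ := ih hb hy
      exact ⟨v, by rw [SimpleGraph.Walk.support_cons]; exact List.mem_cons_of_mem _ h1, h2⟩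
    · refine ⟨b, by
        rw [SimpleGraph.Walk.support_cons]
        exact List.mem_cons_of_mem _ w.start_mem_support, ?_⟩
      have h1 := neck 𝒢 hx hb
      have h2 := h.2
      have h3 := n_symm 𝒢 a b
      have h4 := dist_le_n 𝒢 b (𝒢.mid γ)
      omega

section Graph
variable {Y : SimpleGraph P}

theorem ivt (hc : Y.Connected) (o : P) {a b : P} (w : Y.Walk a b) (k : ℕ) (h1 : Y.dist o a ≤ k)
    (h2 : k ≤ Y.dist o b) : ∃ c ∈ w.support, Y.dist o c = k := by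
  induction w with
  | nil => exact ⟨_, SimpleGraph.Walk.start_mem_support _, le_antisymm h1 h2⟩
  | @cons a b c h w ih =>
    by_cases e : Y.dist o a = k
    · exact ⟨a, SimpleGraph.Walk.start_mem_support _, e⟩
    · have h3 := hc.dist_triangle (u := o) (v := a) (w := b)
      have h4 : Y.dist a b = 1 := SimpleGraph.dist_eq_one_iff_adj.2 h
      obtain ⟨v, h5, h6⟩ := ih (by omega) h2
      exact ⟨v, by rw [SimpleGraph.Walk.support_cons]; exact List.mem_cons_of_mem _ h5, h6⟩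

theorem dist_getVert (hc : Y.Connected) {a b : P} (w : Y.Walk a b) (i k : ℕ) :
    Y.dist (w.getVert i) (w.getVert (i + k)) ≤ k := by
  induction k with
  | zero => simp
  | succ k ih =>
    have h3 := hc.dist_triangle (u := w.getVert i) (v := w.getVert (i + k))
      (w := w.getVert (i + k + 1))
    have h4 : Y.dist (w.getVert (i + k)) (w.getVert (i + k + 1)) ≤ 1 := by
      by_cases h : i + k < w.length
      · exact (SimpleGraph.dist_eq_one_iff_adj.2 (w.adj_getVert_succ h)).le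
      · rw [w.getVert_of_length_le (by omega), w.getVert_of_length_le (by omega)]
        simp
    rw [← Nat.add_assoc]
    omega

theorem geo_getVert (hc : Y.Connected) {a b : P} (w : Y.Walk a b) (hw : w.length = Y.dist a b)
    (i : ℕ) (hi : i ≤ w.length) : Y.dist a (w.getVert i) = i := by
  have h1 := dist_getVert hc w 0 i
  rw [w.getVert_zero, Nat.zero_add] at h1
  have h2 := dist_getVert hc w i (w.length - i)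
  rw [Nat.add_sub_cancel' hi, w.getVert_length] at h2
  have h3 := hc.dist_triangle (u := a) (v := w.getVert i) (w := b)
  omega

theorem geo (hc : Y.Connected) {a b : P} (w : Y.Walk a b) (hw : w.length = Y.dist a b)
    {u v : P} (hu : u ∈ w.support) (hv : v ∈ w.support) :
    Y.dist a u ≤ Y.dist a b ∧
      (Y.dist a u + Y.dist u v ≤ Y.dist a v ∨ Y.dist a v + Y.dist u v ≤ Y.dist a u) := by
  obtain ⟨i, rfl, hi⟩ := SimpleGraph.Walk.mem_support_iff_exists_getVert.1 hu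
  obtain ⟨j, rfl, hj⟩ := SimpleGraph.Walk.mem_support_iff_exists_getVert.1 hv
  rw [geo_getVert hc w hw i hi, geo_getVert hc w hw j hj]
  refine ⟨by omega, ?_⟩
  rcases le_total i j with h | h
  · have h1 := dist_getVert hc w i (j - i)
    rw [Nat.add_sub_cancel' h] at h1
    left
    omega
  · have h1 := dist_getVert hc w j (i - j)
    rw [Nat.add_sub_cancel' h, SimpleGraph.dist_comm] at h1
    right
    omega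

end Graph

theorem thin [Nonempty P] : Thin (Yg 𝒢) := by
  have hc := conn 𝒢
  refine ⟨33, fun x y z p q r hp _ _ u hu => ?_⟩
  obtain ⟨w, -, hw⟩ := chain 𝒢 _ x y le_rfl
  obtain ⟨c, hc1, hc2⟩ := ivt hc x w ((Yg 𝒢).dist x u) (by simp) (geo hc p hp hu hu).1
  have h1 : (∃ v ∈ p.support, (Yg 𝒢).dist v c ≤ 11) ∧
      ∃ v, (v ∈ q.support ∨ v ∈ r.support) ∧ (Yg 𝒢).dist v c ≤ 11 := by
    rcases hw c hc1 with e | e | ⟨γ, h2, e⟩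
    · subst e
      exact ⟨⟨_, p.start_mem_support, by simp⟩, _, Or.inr r.start_mem_support, by simp⟩
    · subst e
      exact ⟨⟨_, p.end_mem_support, by simp⟩, _, Or.inl q.start_mem_support, by simp⟩
    · subst e
      have hy : y ∉ 𝒢.A γ := fun h => 𝒢.disj γ y h h2.2
      refine ⟨neck_walk 𝒢 p h2.1 hy, ?_⟩
      by_cases hz : z ∈ 𝒢.A γ
      · obtain ⟨v, h3, h4⟩ := neck_walk 𝒢 q.reverse hz hy
        rw [SimpleGraph.Walk.support_reverse, List.mem_reverse] at h3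
        exact ⟨v, Or.inl h3, h4⟩
      · obtain ⟨v, h3, h4⟩ := neck_walk 𝒢 r h2.1 hz
        exact ⟨v, Or.inr h3, h4⟩
  obtain ⟨⟨v, h2, h3⟩, v', h4, h5⟩ := h1
  refine ⟨v', h4, ?_⟩
  have t1 := hc.dist_triangle (u := x) (v := v) (w := c)
  have t2 := hc.dist_triangle (u := x) (v := c) (w := v)
  have t3 := hc.dist_triangle (u := u) (v := v) (w := c)
  have t4 := hc.dist_triangle (u := u) (v := c) (w := v')
  have s1 : (Yg 𝒢).dist c v = (Yg 𝒢).dist v c := SimpleGraph.dist_comm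
  have s2 : (Yg 𝒢).dist c v' = (Yg 𝒢).dist v' c := SimpleGraph.dist_comm
  have g1 := (geo hc p hp hu h2).2
  omega

theorem acyl [Nonempty P] : Acyl G (Yg 𝒢) := by
  intro ε
  refine ⟨28 * ε + 23, 21 * ε + 15, fun x y hR => ?_⟩
  have hn := dist_le_n 𝒢 x y
  obtain ⟨ix, h⟩ := exists_idx 𝒢 x y
  obtain ⟨γ₀, h0, hj⟩ := h.surj (14 * ε + 9) (by omega)
  have l1 := h.left_ge h0
  have l2 := h.left_le h0
  have l3 := h.right_ge h0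
  have hT : {γ ∈ Sp 𝒢 x y | ix γ < 21 * ε + 15}.ncard ≤ 21 * ε + 15 - 0 :=
    h.le 0 _ (fun a ha => ha.1) fun γ hγ => ⟨Nat.zero_le _, hγ.2⟩
  have hTf : {γ ∈ Sp 𝒢 x y | ix γ < 21 * ε + 15}.Finite :=
    (sp_fin 𝒢 x y).subset fun a ha => ha.1
  have hmap : Set.MapsTo (fun g : G => g • γ₀)
      {g : G | (Yg 𝒢).dist x (g • x) ≤ ε ∧ (Yg 𝒢).dist y (g • y) ≤ ε}
      {γ ∈ Sp 𝒢 x y | ix γ < 21 * ε + 15} := by
    intro g hg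
    have d1 := n_le_dist 𝒢 x (g • x)
    have d2 := n_le_dist 𝒢 y (g • y)
    have d3 := hg.1
    have d4 := hg.2
    have i1 := n_smul 𝒢 g x (𝒢.mid γ₀)
    have i2 := n_smul 𝒢 g (𝒢.mid γ₀) y
    rw [← 𝒢.smul_mid] at i1 i2
    have a1 : x ∈ 𝒢.A (g • γ₀) := by
      by_contra hx
      have t1 := neck 𝒢 ((𝒢.smul_A g γ₀ x).2 h0.1) hx
      have t2 := n_tri 𝒢 (g • x) (𝒢.mid (g • γ₀)) x
      have t3 := n_symm 𝒢 (g • x) x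
      omega
    have a2 : y ∈ 𝒢.B (g • γ₀) := by
      by_contra hy
      have b1 : g • y ∈ 𝒢.A (𝒢.rev (g • γ₀)) := by
        rw [𝒢.A_rev]; exact (𝒢.smul_B g γ₀ y).2 h0.2
      have b2 : y ∉ 𝒢.A (𝒢.rev (g • γ₀)) := by rw [𝒢.A_rev]; exact hy
      have t1 := neck 𝒢 b1 b2
      have t2 : 𝒢.n (𝒢.mid (g • γ₀)) (𝒢.mid (𝒢.rev (g • γ₀))) ≤ 1 := 𝒢.near' _
      have t3 := n_tri 𝒢 (𝒢.mid (g • γ₀)) (g • y) y
      have t4 := n_tri 𝒢 (𝒢.mid (g • γ₀)) y (𝒢.mid (𝒢.rev (g • γ₀)))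
      have t5 := n_symm 𝒢 y (𝒢.mid (𝒢.rev (g • γ₀)))
      omega
    have a3 : g • γ₀ ∈ Sp 𝒢 x y := ⟨a1, a2⟩
    refine ⟨a3, ?_⟩
    have t1 := h.left_ge a3
    have t2 := n_tri 𝒢 x (𝒢.mid (g • γ₀)) (g • x)
    show ix (g • γ₀) < 21 * ε + 15
    omega
  have hinj : Function.Injective fun g : G => g • γ₀ := by
    intro g g' e
    have e1 : (g'⁻¹ * g) • γ₀ = γ₀ := by
      have e2 : g • γ₀ = g' • γ₀ := e
      rw [mul_smul, e2, inv_smul_smul]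
    exact (inv_mul_eq_one.1 (𝒢.free _ _ e1)).symm
  refine (Set.encard_le_encard_of_injOn hmap hinj.injOn).trans ?_
  rw [← hTf.cast_ncard_eq]
  exact_mod_cast hT

end Ahx

theorem ah_main : SpAh := by
  intro G P Γ _ _ _ _ 𝒢
  refine ⟨Ahx.Yg 𝒢, Ahx.conn 𝒢, fun g x y h => ⟨fun e => h.1 (MulAction.injective g e), ?_⟩,
    Ahx.thin 𝒢, Ahx.acyl 𝒢, Ahx.n_le_dist 𝒢⟩
  rw [Ahx.n_smul]
  exact h.2

end Pool.Agent.MP_89edc2_al.H5
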