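import Pool.Agent.MP_89edc2_al.H5.Spec

/-! Inversion sets of right-angled Coxeter groups. -/

namespace Pool.Agent.MP_89edc2_al.H5

namespace Coxx

variable {S : Type} {adj : S → S → Prop}

theorem ginv (s : S) : (gen adj s)⁻¹ = gen adj s := inv_eq_of_mul_eq_one_right (gen_sq adj s)

theorem gcan (s : S) (w : W adj) : gen adj s * (gen adj s * w) = w := by
  rw [← mul_assoc, gen_sq, one_mul]

theorem exl (w : W adj) : ∃ l : List S, (l.map (gen adj)).prod = w := by
  have h : w ∈ Subgroup.closure (Set.range (PresentedGroup.of : S → W adj)) := by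
    rw [PresentedGroup.closure_range_of]
    trivial
  induction h using Subgroup.closure_induction with
  | mem x hx =>
    obtain ⟨s, rfl⟩ := hx
    exact ⟨[s], by simp [gen]⟩
  | one => exact ⟨[], rfl⟩
  | mul x y _ _ hx hy =>
    obtain ⟨l, rfl⟩ := hx
    obtain ⟨l', rfl⟩ := hy
    exact ⟨l ++ l', by simp⟩
  | inv x hx0 hx =>
    obtain ⟨l, rfl⟩ := hx
    clear hx0
    refine ⟨l.reverse, ?_⟩
    induction l with
    | nil => simp
    | cons s l ih =>
      rw [List.reverse_cons, List.map_append, List.prod_append, ih]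
      simp [ginv]

theorem ind {P : W adj → Prop} (h1 : P 1) (h2 : ∀ s w, P w → P (gen adj s * w)) (w : W adj) :
    P w := by
  obtain ⟨l, rfl⟩ := exl w
  induction l with
  | nil => exact h1
  | cons s l ih => exact h2 s _ ih

theorem cj (s : S) (t : W adj) : gen adj s * t * gen adj s = gen adj s ↔ t = gen adj s := by
  constructor
  · intro h
    have h1 : gen adj s * t = 1 := mul_eq_right.1 h
    rw [← gcan s t, h1, mul_one]
  · rintro rfl
    rw [gen_sq, one_mul]

/-- The action of a generator on oriented elements. -/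
def ph (adj : S → S → Prop) (s : S) : Equiv.Perm (W adj × Prop) :=
  Function.Involutive.toPerm
    (fun p => (gen adj s * p.1 * gen adj s, ¬ (p.2 ↔ p.1 = gen adj s))) (by
      rintro ⟨t, b⟩
      refine Prod.ext ?_ (propext ?_)
      · simp only [mul_assoc, gen_sq, mul_one, gcan]
      · simp only [cj]
        tauto)

theorem ph_apply (s : S) (t : W adj) (b : Prop) :
    ph adj s (t, b) = (gen adj s * t * gen adj s, ¬ (b ↔ t = gen adj s)) := rfl

theorem cj2 {s s' : S} (h : adj s s') (t : W adj) :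
    gen adj s * t * gen adj s = gen adj s' ↔ t = gen adj s' := by
  have e : gen adj s * gen adj s' * gen adj s = gen adj s' := by
    rw [(gen_comm h).eq, mul_assoc, gen_sq, mul_one]
  constructor
  · intro h1
    rw [← e] at h1
    exact mul_left_cancel (mul_right_cancel h1)
  · rintro rfl
    exact e

/-- The action on oriented elements. -/
def Ph (hs : ∀ s s', adj s s' → adj s' s) : W adj →* Equiv.Perm (W adj × Prop) :=
  lift adj (ph adj) (fun s => Equiv.ext fun p => (ph adj s).left_inv p) (fun s s' h => by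
    refine Equiv.ext ?_
    rintro ⟨t, b⟩
    simp only [Equiv.Perm.mul_apply, ph_apply, cj2 h, cj2 (hs _ _ h)]
    refine Prod.ext ?_ (propext (by tauto))
    have e := (gen_comm h).eq
    simp only
    calc _ = gen adj s * gen adj s' * t * (gen adj s' * gen adj s) := by simp only [mul_assoc]
      _ = gen adj s' * gen adj s * t * (gen adj s * gen adj s') := by rw [e]
      _ = _ := by simp only [mul_assoc])

theorem Ph_apply (hs : ∀ s s', adj s s' → adj s' s) (w : W adj) : ∀ (t : W adj) (b : Prop),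
    Ph hs w (t, b) = (w * t * w⁻¹, ¬ (b ↔ (Ph hs w (t, False)).2)) := by
  refine ind (P := fun w => ∀ (t : W adj) (b : Prop),
    Ph hs w (t, b) = (w * t * w⁻¹, ¬ (b ↔ (Ph hs w (t, False)).2))) ?_ ?_ w
  · intro t b
    simp
  · intro s w ih t b
    have e : Ph hs (gen adj s) = ph adj s := lift_gen _ _ _ _ s
    rw [map_mul, e, Equiv.Perm.mul_apply, Equiv.Perm.mul_apply, ih t b, ih t False, ph_apply,
      ph_apply]
    refine Prod.ext ?_ (propext (by simp only; tauto))
    simp only [mul_inv_rev, ginv, mul_assoc]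

/-- A cocycle. -/
structure Co (adj : S → S → Prop) (N : W adj → Set (W adj)) : Prop where
  mul : ∀ u v t, t ∈ N (u * v) ↔ ¬ (t ∈ N u ↔ u⁻¹ * t * u ∈ N v)
  one : ∀ s t, t ∈ N (gen adj s) ↔ t = gen adj s

theorem exco (hs : ∀ s s', adj s s' → adj s' s) : ∃ N, Co adj N := by
  refine ⟨fun w => {t | (Ph hs w (w⁻¹ * t * w, False)).2}, ?_, ?_⟩
  · intro u v t
    simp only [Set.mem_setOf_eq]
    rw [map_mul, Equiv.Perm.mul_apply, Ph_apply hs v, Ph_apply hs u]
    have e1 : v * ((u * v)⁻¹ * t * (u * v)) * v⁻¹ = u⁻¹ * t * u := by group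
    have e2 : (u * v)⁻¹ * t * (u * v) = v⁻¹ * (u⁻¹ * t * u) * v := by group
    rw [e1, e2]
    simp only
    tauto
  · intro s t
    have e : Ph hs (gen adj s) = ph adj s := lift_gen _ _ _ _ s
    simp only [Set.mem_setOf_eq, e, ph_apply, ginv, cj]
    tauto

open Classical in
/-- The parity of a letter. -/
noncomputable def chi (adj : S → S → Prop) (s : S) : W adj →* ℤˣ :=
  lift adj (fun r => if r = s then -1 else 1) (fun r => by split_ifs <;> simp)
    (fun _ _ _ => Commute.all _ _)

theorem conj_eq {r s : S} {u : W adj} (h : u * gen adj r * u⁻¹ = gen adj s) : r = s := by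
  have h1 := congrArg (chi adj s) h
  rw [map_mul, map_mul, map_inv, mul_comm (chi adj s u), mul_inv_cancel_right, chi, lift_gen,
    lift_gen] at h1
  by_contra h2
  simp [h2] at h1

theorem gen_ne (r : S) : gen adj r ≠ 1 := by
  intro h
  have h1 := congrArg (chi adj r) h
  rw [map_one, chi, lift_gen] at h1
  simp at h1

theorem ginj {r s : S} (h : gen adj r = gen adj s) : r = s :=
  conj_eq (u := 1) (by simpa using h)

open Classical in
/-- The word length. -/
noncomputable def len (w : W adj) : ℕ :=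
  Nat.find (p := fun k => ∃ l : List S, (l.map (gen adj)).prod = w ∧ l.length = k)
    (by obtain ⟨l, hl⟩ := exl w; exact ⟨_, l, hl, rfl⟩)

theorem len_spec (w : W adj) : ∃ l : List S, (l.map (gen adj)).prod = w ∧ l.length = len w := by
  classical
  exact Nat.find_spec (p := fun k => ∃ l : List S, (l.map (gen adj)).prod = w ∧ l.length = k) _

theorem len_le (l : List S) : len (l.map (gen adj)).prod ≤ l.length := by
  classical
  exact Nat.find_min' (p := fun k => ∃ l' : List S, (l'.map (gen adj)).prod =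
    (l.map (gen adj)).prod ∧ l'.length = k) _ ⟨l, rfl, rfl⟩

variable {N : W adj → Set (W adj)}

theorem Co.nil (h : Co adj N) (t : W adj) : t ∉ N 1 := by
  have h1 := h.mul 1 1 t
  simp only [mul_one, inv_one, one_mul] at h1
  tauto

theorem Co.cons (h : Co adj N) (s : S) (w t : W adj) :
    t ∈ N (gen adj s * w) ↔ ¬ (t = gen adj s ↔ gen adj s * t * gen adj s ∈ N w) := by
  rw [h.mul, h.one, ginv]

theorem Co.self (h : Co adj N) (s : S) (w : W adj) :
    gen adj s ∈ N (gen adj s * w) ↔ gen adj s ∉ N w := by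
  rw [h.cons, gen_sq, one_mul]
  tauto

theorem Co.exch (h : Co adj N) (l : List S) : ∀ t, t ∈ N (l.map (gen adj)).prod →
    ∃ l' : List S, (l'.map (gen adj)).prod = t * (l.map (gen adj)).prod ∧
      l'.length + 1 = l.length := by
  induction l with
  | nil => intro t ht; exact absurd ht (h.nil t)
  | cons s l ih =>
    intro t ht
    rw [List.map_cons, List.prod_cons] at ht ⊢
    by_cases e : t = gen adj s
    · exact ⟨l, by rw [e, gcan], rfl⟩
    · rw [h.cons] at ht
      obtain ⟨l', h1, h2⟩ := ih (gen adj s * t * gen adj s) (by tauto)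
      refine ⟨s :: l', ?_, by simp [h2]⟩
      rw [List.map_cons, List.prod_cons, h1, mul_assoc, mul_assoc, gcan]

theorem Co.desc (h : Co adj N) {s : S} {w : W adj} (hw : gen adj s ∈ N w) :
    len (gen adj s * w) < len w := by
  obtain ⟨l, rfl, h2⟩ := len_spec w
  obtain ⟨l', h3, h4⟩ := h.exch l _ hw
  have h5 := len_le (adj := adj) l'
  rw [h3] at h5
  omega

theorem Co.exd (h : Co adj N) {w : W adj} (hw : w ≠ 1) : ∃ s, gen adj s ∈ N w := by
  obtain ⟨l, h1, h2⟩ := len_spec w
  cases l with
  | nil => exact absurd h1.symm hw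
  | cons s l =>
    refine ⟨s, ?_⟩
    by_contra h3
    have h4 := h.desc ((h.self s w).2 h3)
    rw [gcan, ← h1, List.map_cons, List.prod_cons, gcan] at h4
    have h5 := len_le (adj := adj) l
    rw [List.map_cons, List.prod_cons] at h1
    rw [h1, ← h2] at h4
    simp only [List.length_cons] at h4
    omega

theorem Co.sind (h : Co adj N) {P : W adj → Prop}
    (h1 : ∀ w, (∀ s, gen adj s ∈ N w → P (gen adj s * w)) → P w) (w : W adj) : P w := by
  have key : ∀ k, ∀ w : W adj, len w < k → P w := by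
    intro k
    induction k with
    | zero => intro w hw; omega
    | succ k ih =>
      intro w hw
      exact h1 w fun s hs => ih _ (by have := h.desc hs; omega)
  exact key _ w (Nat.lt_succ_self _)

theorem Co.fin (h : Co adj N) (w : W adj) : (N w).Finite := by
  refine ind (P := fun w => (N w).Finite) ?_ ?_ w
  · exact Set.finite_empty.subset fun t ht => h.nil t ht
  · intro s w ih
    refine ((ih.image fun t => gen adj s * t * gen adj s).insert (gen adj s)).subset fun t ht => ?_
    rw [h.cons] at ht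
    by_cases e : t = gen adj s
    · exact Or.inl e
    · refine Or.inr ⟨gen adj s * t * gen adj s, by tauto, ?_⟩
      simp only [mul_assoc, gen_sq, mul_one, gcan]

open Classical in
/-- The coefficients of the Tits action. -/
noncomputable def cf (adj : S → S → Prop) (r s : S) : ℤ :=
  if r = s then -2 else if adj r s then 0 else 2

theorem cf_self (s : S) : cf adj s s = -2 := by simp [cf]

theorem cf_adj (hi : ∀ s, ¬ adj s s) {r s : S} (h : adj r s) : cf adj r s = 0 := by
  have : r ≠ s := by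
    rintro rfl
    exact hi _ h
  simp [cf, this, h]

theorem cf_far {r s : S} (h1 : r ≠ s) (h2 : ¬ adj r s) : cf adj r s = 2 := by simp [cf, h1, h2]

theorem cf_nn {r s : S} (h1 : r ≠ s) : 0 ≤ cf adj r s := by
  simp only [cf, if_neg h1]
  split_ifs <;> norm_num

/-- The Tits action of a generator. -/
noncomputable def ti (adj : S → S → Prop) (s : S) : Equiv.Perm (S → ℤ) :=
  Function.Involutive.toPerm (fun f r => f r + cf adj r s * f s) (by
    intro f
    funext r
    simp only [cf_self]
    ring)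

theorem ti_apply (s : S) (f : S → ℤ) (r : S) : ti adj s f r = f r + cf adj r s * f s := rfl

/-- The Tits action. -/
noncomputable def Ti (hs : ∀ s s', adj s s' → adj s' s) (hi : ∀ s, ¬ adj s s) :
    W adj →* Equiv.Perm (S → ℤ) :=
  lift adj (ti adj) (fun s => Equiv.ext fun p => (ti adj s).left_inv p) (fun s s' h => by
    refine Equiv.ext fun f => funext fun r => ?_
    simp only [Equiv.Perm.mul_apply, ti_apply, cf_adj hi h, cf_adj hi (hs _ _ h)]
    ring)

theorem Ti_cons (hs : ∀ s s', adj s s' → adj s' s) (hi : ∀ s, ¬ adj s s) (s : S) (w : W adj)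
    (f : S → ℤ) (r : S) :
    Ti hs hi (gen adj s * w) f r = Ti hs hi w f r + cf adj r s * Ti hs hi w f s := by
  have e : Ti hs hi (gen adj s) = ti adj s := lift_gen _ _ _ _ s
  rw [map_mul, e, Equiv.Perm.mul_apply, ti_apply]

theorem Co.tits (h : Co adj N) (hs : ∀ s s', adj s s' → adj s' s) (hi : ∀ s, ¬ adj s s)
    (w : W adj) : (∀ r s, r ≠ s → ¬ adj r s → 0 < Ti hs hi w 1 r + Ti hs hi w 1 s) ∧
      (∀ s, gen adj s ∈ N w → Ti hs hi w 1 s < 0) ∧ ∀ s, gen adj s ∉ N w → 0 < Ti hs hi w 1 s := by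
  refine h.sind (P := fun w =>
    (∀ r s, r ≠ s → ¬ adj r s → 0 < Ti hs hi w 1 r + Ti hs hi w 1 s) ∧
      (∀ s, gen adj s ∈ N w → Ti hs hi w 1 s < 0) ∧
        ∀ s, gen adj s ∉ N w → 0 < Ti hs hi w 1 s) ?_ w
  intro w ih
  by_cases e : w = 1
  · subst e
    refine ⟨fun r s _ _ => by simp, fun s hw => absurd hw (h.nil _), fun s _ => by simp⟩
  have hn : ∀ s, gen adj s ∈ N w → gen adj s ∉ N (gen adj s * w) := fun s hw h1 =>
    (h.self s w).1 h1 hw
  have hc : ∀ s r, Ti hs hi w 1 r = Ti hs hi (gen adj s * w) 1 r +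
      cf adj r s * Ti hs hi (gen adj s * w) 1 s := fun s r => by
    rw [← Ti_cons, gcan]
  obtain ⟨a, ha⟩ := h.exd e
  obtain ⟨i1, _, i3⟩ := ih a ha
  have hp := i3 a (hn a ha)
  refine ⟨fun r s h1 h2 => ?_, fun s hw => ?_, fun s hw => ?_⟩
  · rw [hc a r, hc a s]
    have h3 := i1 r s h1 h2
    have h4 : 0 ≤ cf adj r a + cf adj s a := by
      by_cases e1 : r = a
      · subst e1
        rw [cf_self, cf_far h1.symm fun h5 => h2 (hs _ _ h5)]
        norm_num
      by_cases e2 : s = a
      · subst e2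
        rw [cf_self, cf_far h1 h2]
        norm_num
      exact add_nonneg (cf_nn e1) (cf_nn e2)
    nlinarith [mul_nonneg h4 hp.le]
  · have h3 := (ih s hw).2.2 s (hn s hw)
    rw [hc s s, cf_self]
    linarith
  · have e1 : s ≠ a := by
      rintro rfl
      exact hw ha
    rw [hc a s]
    by_cases e2 : adj s a
    · rw [cf_adj hi e2, zero_mul, add_zero]
      refine i3 s fun h3 => ?_
      rw [h.cons, (cj2 (hs _ _ e2) _).2 rfl] at h3
      have h4 : gen adj s ≠ gen adj a := fun h5 => e1 (ginj h5)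
      tauto
    · rw [cf_far e1 e2]
      have h3 := i1 s a e1 e2
      linarith

theorem Co.two (h : Co adj N) (hs : ∀ s s', adj s s' → adj s' s) (hi : ∀ s, ¬ adj s s)
    (s s' : S) (w : W adj) (h1 : gen adj s ∈ N w) (h2 : gen adj s' ∈ N w) (h3 : s ≠ s') :
    adj s s' := by
  by_contra h4
  obtain ⟨i1, i2, _⟩ := h.tits hs hi w
  have := i1 s s' h3 h4
  have := i2 s h1
  have := i2 s' h2
  linarith

theorem Co.pre (h : Co adj N) (v : W adj) :
    ∀ t ∈ N v, ∃ u r, t = u * gen adj r * u⁻¹ ∧ N u ⊆ N v := by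
  refine h.sind (P := fun v => ∀ t ∈ N v, ∃ u r, t = u * gen adj r * u⁻¹ ∧ N u ⊆ N v) ?_ v
  intro v ih t ht
  have e : v ≠ 1 := by
    rintro rfl
    exact h.nil t ht
  obtain ⟨a, ha⟩ := h.exd e
  by_cases e1 : t = gen adj a
  · exact ⟨1, a, by simpa using e1, fun x hx => absurd hx (h.nil x)⟩
  have h1 : ∀ x, x ∈ N v ↔ ¬ (x = gen adj a ↔ gen adj a * x * gen adj a ∈ N (gen adj a * v)) :=
    fun x => by rw [← h.cons, gcan]
  obtain ⟨u, r, h2, h3⟩ := ih a ha (gen adj a * t * gen adj a) (by have := (h1 t).1 ht; tauto)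
  refine ⟨gen adj a * u, r, ?_, fun x hx => ?_⟩
  · rw [mul_inv_rev, ginv]
    have h4 : t = gen adj a * (gen adj a * t * gen adj a) * gen adj a := by
      simp only [mul_assoc, gen_sq, mul_one, gcan]
    rw [h4, h2]
    simp only [mul_assoc]
  · by_cases e2 : x = gen adj a
    · rwa [e2]
    · rw [h.cons] at hx
      have h4 := h3 (show gen adj a * x * gen adj a ∈ N u by tauto)
      rw [h1]
      tauto

/-- A standard subgroup. -/
def Par (adj : S → S → Prop) (I : Set S) : Subgroup (W adj) := Subgroup.closure (gen adj '' I)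

theorem Co.cent (h : Co adj N) (hs : ∀ s s', adj s s' → adj s' s) (hi : ∀ s, ¬ adj s s) (s : S)
    (u : W adj) : u * gen adj s = gen adj s * u → u ∈ Par adj {r | r = s ∨ adj r s} := by
  refine h.sind (P := fun u => u * gen adj s = gen adj s * u →
    u ∈ Par adj {r | r = s ∨ adj r s}) ?_ u
  intro u ih hu
  by_cases e : u = 1
  · rw [e]
    exact one_mem _
  obtain ⟨r, hr⟩ := h.exd e
  have h1 : r = s ∨ adj r s := by
    by_cases e1 : r = s
    · exact Or.inl e1
    refine Or.inr ?_
    by_cases e2 : gen adj s ∈ N u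
    · exact h.two hs hi r s u hr e2 e1
    refine h.two hs hi r s (gen adj s * u) ?_ ((h.self s u).2 e2) e1
    rw [← hu, h.mul, h.one]
    have h2 : u⁻¹ * gen adj r * u ≠ gen adj s := fun h3 =>
      e1 (conj_eq (u := u⁻¹) (by rwa [inv_inv]))
    tauto
  have h2 : gen adj r * gen adj s = gen adj s * gen adj r := by
    rcases h1 with rfl | h1
    · rfl
    · exact (gen_comm h1).eq
  have h3 := ih r hr (by rw [mul_assoc, hu, ← mul_assoc, h2, mul_assoc])
  rw [← gcan r u]
  exact mul_mem (Subgroup.subset_closure ⟨r, h1, rfl⟩) h3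

theorem Co.sub (h : Co adj N) (I : Set S) {u : W adj} (hu : u ∈ Par adj I) :
    ∀ t ∈ N u, t ∈ Par adj I := by
  induction hu using Subgroup.closure_induction with
  | mem x hx =>
    intro t ht
    obtain ⟨s, hs, rfl⟩ := hx
    rw [(h.one s t).1 ht]
    exact Subgroup.subset_closure ⟨s, hs, rfl⟩
  | one => exact fun t ht => absurd ht (h.nil t)
  | mul x y hx _ ix iy =>
    intro t ht
    rw [h.mul] at ht
    by_cases e : t ∈ N x
    · exact ix t e
    · have h1 := iy (x⁻¹ * t * x) (by tauto)
      have h2 : t = x * (x⁻¹ * t * x) * x⁻¹ := by group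
      rw [h2]
      exact mul_mem (mul_mem hx h1) (inv_mem hx)
  | inv x hx ix =>
    intro t ht
    have h1 := h.mul x⁻¹ x t
    rw [inv_mul_cancel, inv_inv] at h1
    have h2 := h.nil t
    have h3 := ix (x * t * x⁻¹) (by tauto)
    have h4 : t = x⁻¹ * (x * t * x⁻¹) * x := by group
    rw [h4]
    exact mul_mem (mul_mem (inv_mem hx) h3) hx

theorem Co.cross (h : Co adj N) (hs : ∀ s s', adj s s' → adj s' s) (hi : ∀ s, ¬ adj s s) {s : S}
    {x w a : W adj} (h1 : a ∈ N x) (h2 : a ∈ N w) (h3 : gen adj s ∈ N x) (h4 : gen adj s ∉ N w) :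
    a ∈ Par adj {r | r = s ∨ adj r s} := by
  have e : ∀ t, t ∈ N w ↔ ¬ (t ∈ N x ↔ x⁻¹ * t * x ∈ N (x⁻¹ * w)) := fun t => by
    rw [← h.mul, mul_inv_cancel_left]
  obtain ⟨u, r, h5, h6⟩ := h.pre (x⁻¹ * w) (x⁻¹ * gen adj s * x) (by have := e (gen adj s); tauto)
  have h7 : x * u * gen adj r * (x * u)⁻¹ = gen adj s := by
    have h8 : gen adj s = x * (x⁻¹ * gen adj s * x) * x⁻¹ := by group
    rw [h8, h5]
    group
  obtain rfl := conj_eq h7
  refine h.sub _ (h.cent hs hi r (x * u) (mul_inv_eq_iff_eq_mul.1 h7)) a ?_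
  rw [h.mul]
  have h8 := e a
  have h9 : x⁻¹ * a * x ∉ N u := fun h10 => by have := h6 h10; tauto
  tauto

theorem par_disj {I J : Set S} (hd : ∀ r, r ∈ I → r ∉ J) {a : W adj} (h1 : a ∈ Par adj I)
    (h2 : a ∈ Par adj J) : a = 1 := by
  classical
  let π : W adj →* W adj := lift adj (fun r => if r ∈ I then gen adj r else 1)
    (fun r => by split_ifs <;> simp [gen_sq])
    (fun r r' e => by
      split_ifs
      · exact gen_comm e
      · exact Commute.one_right _
      · exact Commute.one_left _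
      · exact Commute.refl _)
  have e1 : Par adj I ≤ π.eqLocus (MonoidHom.id _) := by
    refine (Subgroup.closure_le _).2 ?_
    rintro _ ⟨r, hr, rfl⟩
    change π (gen adj r) = gen adj r
    rw [lift_gen, if_pos hr]
  have e2 : Par adj J ≤ π.ker := by
    refine (Subgroup.closure_le _).2 ?_
    rintro _ ⟨r, hr, rfl⟩
    change π (gen adj r) = 1
    rw [lift_gen, if_neg fun h3 => hd r h3 hr]
  have h3 : π a = a := e1 h1
  have h4 : π a = 1 := e2 h2
  rw [← h3, h4]

end Coxx

open Coxx in
theorem cox_main : SpCox := by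
  intro S adj hs hi
  obtain ⟨N, h⟩ := exco hs
  refine ⟨N, h.mul, h.one, h.fin, fun w hw => ?_, fun _ _ => ginj, h.two hs hi, ?_⟩
  · by_contra e
    obtain ⟨s, h1⟩ := h.exd e
    rw [hw] at h1
    exact h1
  · intro s s' h1 h2 h3 x w a h4 h5 h6 h7
    have h8 : gen adj s ∉ N w := fun e => h2 (h.two hs hi s s' w e h6 h1)
    have h9 : gen adj s' ∉ N x := fun e => h2 (h.two hs hi s s' x h4 e h1)
    have h10 : a = 1 := by
      refine par_disj ?_ (h.cross hs hi h5 h7 h4 h8) (h.cross hs hi h7 h5 h6 h9)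
      rintro r (rfl | e) (e' | e')
      · exact h1 e'
      · exact h2 e'
      · exact h2 (hs _ _ (e' ▸ e))
      · exact h3 r e e'
    obtain ⟨u, r, h11, _⟩ := h.pre x a h5
    rw [h10] at h11
    refine gen_ne (adj := adj) r ?_
    have h12 : gen adj r = u⁻¹ * (u * gen adj r * u⁻¹) * u := by group
    rw [h12, ← h11]
    group

end Pool.Agent.MP_89edc2_al.H5
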