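import Pool.Agent.MP_89edc2_al.H5.Spec

/-!
Extension of a system of level seven to all levels
-/

namespace Pool.Agent.MP_89edc2_al.H5

namespace Extx

section A
variable {I G : Type} [DecidableEq I] [Group G] {T : I → I → G} {J : Set I}

theorem symm (h : Sym T J) {c d : I} (hc : c ∈ J) (hd : d ∈ J) : T c d = T d c := by
  have e := h.conj c hc d hd c hc d hd
  rw [h.sq c hc d hd, one_mul, Equiv.swap_apply_left, Equiv.swap_apply_right] at e
  exact e

theorem mono (h : Sym T J) {J' : Set I} (hJ : J' ⊆ J) : Sym T J' :=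
  ⟨fun c hc => h.diag c (hJ hc), fun c hc d hd => h.sq c (hJ hc) d (hJ hd),
    fun c hc d hd e he f hf => h.conj c (hJ hc) d (hJ hd) e (hJ he) f (hJ hf)⟩

/-- Conjugation fixing both labels. -/
theorem cfix (h : Sym T J) {c d e f : I} (hc : c ∈ J) (hd : d ∈ J) (he : e ∈ J) (hf : f ∈ J)
    (h1 : e ≠ c) (h2 : e ≠ d) (h3 : f ≠ c) (h4 : f ≠ d) : T c d * T e f * T c d = T e f := by
  rw [h.conj c hc d hd e he f hf, Equiv.swap_apply_of_ne_of_ne h1 h2,
    Equiv.swap_apply_of_ne_of_ne h3 h4]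

/-- Conjugation: first label moved from left to right. -/
theorem cll (h : Sym T J) {c d f : I} (hc : c ∈ J) (hd : d ∈ J) (hf : f ∈ J)
    (h3 : f ≠ c) (h4 : f ≠ d) : T c d * T c f * T c d = T d f := by
  rw [h.conj c hc d hd c hc f hf, Equiv.swap_apply_left, Equiv.swap_apply_of_ne_of_ne h3 h4]

/-- Conjugation: first label moved from right to left. -/
theorem crl (h : Sym T J) {c d f : I} (hc : c ∈ J) (hd : d ∈ J) (hf : f ∈ J)
    (h3 : f ≠ c) (h4 : f ≠ d) : T c d * T d f * T c d = T c f := by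
  rw [h.conj c hc d hd d hd f hf, Equiv.swap_apply_right, Equiv.swap_apply_of_ne_of_ne h3 h4]

/-- Conjugation: second label moved from left to right. -/
theorem clr (h : Sym T J) {c d f : I} (hc : c ∈ J) (hd : d ∈ J) (hf : f ∈ J)
    (h3 : f ≠ c) (h4 : f ≠ d) : T c d * T f c * T c d = T f d := by
  rw [h.conj c hc d hd f hf c hc, Equiv.swap_apply_left, Equiv.swap_apply_of_ne_of_ne h3 h4]

theorem comm (h : Sym T J) {c d e f : I} (hc : c ∈ J) (hd : d ∈ J) (he : e ∈ J) (hf : f ∈ J)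
    (h1 : e ≠ c) (h2 : e ≠ d) (h3 : f ≠ c) (h4 : f ≠ d) : Commute (T c d) (T e f) := by
  have e1 := cfix h hc hd he hf h1 h2 h3 h4
  have e2 := h.sq c hc d hd
  show T c d * T e f = T e f * T c d
  calc T c d * T e f = T c d * T e f * (T c d * T c d) := by rw [e2, mul_one]
    _ = (T c d * T e f * T c d) * T c d := by simp only [mul_assoc]
    _ = _ := by rw [e1]

theorem hub (h : Sym T J) (L : Subgroup G) {a : I} (ha : a ∈ J) (hL : ∀ d ∈ J, T a d ∈ L) :
    ∀ c ∈ J, ∀ d ∈ J, T c d ∈ L := by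
  intro c hc d hd
  by_cases hcd : d = c
  · rw [hcd, h.diag c hc]
    exact L.one_mem
  by_cases hda : d = a
  · rw [hda, symm h hc ha]
    exact hL c hc
  rw [← cll h ha hc hd hda hcd]
  exact L.mul_mem (L.mul_mem (hL c hc) (hL d hd)) (hL c hc)

theorem hubc (h : Sym T J) (g : G) {a : I} (ha : a ∈ J) (hL : ∀ d ∈ J, Commute g (T a d)) :
    ∀ c ∈ J, ∀ d ∈ J, Commute g (T c d) := by
  intro c hc d hd
  have e := hub h (Subgroup.centralizer {g}) ha
    (fun d hd => Subgroup.mem_centralizer_singleton_iff.2 (hL d hd).symm.eq) c hc d hd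
  exact (show Commute (T c d) g from Subgroup.mem_centralizer_singleton_iff.1 e).symm

theorem conj3 {s : G} (hs : s * s = 1) (a b : G) :
    s * (a * b * a) * s = (s * a * s) * (s * b * s) * (s * a * s) := by
  have e : ∀ x, s * (s * x) = x := fun x => by rw [← mul_assoc, hs, one_mul]
  simp only [mul_assoc, e]

theorem conj2 {s : G} (hs : s * s = 1) (a b : G) :
    s * (a * b) * s = (s * a * s) * (s * b * s) := by
  have e : ∀ x, s * (s * x) = x := fun x => by rw [← mul_assoc, hs, one_mul]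
  simp only [mul_assoc, e]

end A

section B
variable {G : Type} [Group G] {T : ℕ → ℕ → ℕ → G}

theorem lt_mem {c n : ℕ} (h : c < n) : c ∈ Set.Iio n := h

/-- The cube relation with the label four. -/
theorem cube4 {k : ℕ} (hk : 5 ≤ k) (h : Sys T (k + 2)) :
    T (k + 1) 0 4 * T k 0 4 * T (k + 1) 0 4 = T (k + 2) k (k + 1) * T (k + 2) 0 4 := by
  have s0 := h.sym k (by omega)
  have s1 := h.sym (k + 1) (by omega)
  have s2 := h.sym (k + 2) le_rfl
  have a1 : T (k + 2) 1 4 = T (k + 1) 1 4 :=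
    h.stab (k + 1) le_rfl 1 4 le_rfl (by omega) (by omega) (by omega)
  have a0 : T (k + 1) 1 4 = T k 1 4 :=
    h.stab k (by omega) 1 4 le_rfl (by omega) (by omega) (by omega)
  have hs : T (k + 2) 1 4 * T (k + 2) 1 4 = 1 :=
    s2.sq 1 (lt_mem (by omega)) 4 (lt_mem (by omega))
  have c := h.cube k (by omega) le_rfl
  have b1 : T (k + 2) 1 4 * T (k + 1) 0 1 * T (k + 2) 1 4 = T (k + 1) 0 4 := by
    rw [a1]
    exact clr s1 (lt_mem (by omega)) (lt_mem (by omega)) (lt_mem (by omega)) (by omega) (by omega)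
  have b0 : T (k + 2) 1 4 * T k 0 1 * T (k + 2) 1 4 = T k 0 4 := by
    rw [a1, a0]
    exact clr s0 (lt_mem (by omega)) (lt_mem (by omega)) (lt_mem (by omega)) (by omega) (by omega)
  have b2 : T (k + 2) 1 4 * T (k + 2) k (k + 1) * T (k + 2) 1 4 = T (k + 2) k (k + 1) :=
    cfix s2 (lt_mem (by omega)) (lt_mem (by omega)) (lt_mem (by omega)) (lt_mem (by omega))
      (by omega) (by omega) (by omega) (by omega)
  have b3 : T (k + 2) 1 4 * T (k + 2) 1 0 * T (k + 2) 1 4 = T (k + 2) 0 4 := by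
    rw [cll s2 (lt_mem (by omega)) (lt_mem (by omega)) (lt_mem (by omega)) (by omega) (by omega)]
    exact symm s2 (lt_mem (by omega)) (lt_mem (by omega))
  rw [← b1, ← b0, ← conj3 hs, c, conj2 hs, b2, b3]

/-- The shifting conjugation. -/
theorem shift {k : ℕ} (hk : 5 ≤ k) (h : Sys T (k + 2)) : ∃ φ : G →* G,
    φ (T k 0 1) = T (k + 1) 0 1 ∧ φ (T (k + 1) 0 1) = T (k + 2) 0 1 ∧
    (∀ d, 1 ≤ d → d < k → d ≠ 4 → φ (T (k + 2) d k) = T (k + 2) d (k + 1)) ∧
    ∀ d e, 1 ≤ d → d < k → d ≠ 4 → 1 ≤ e → e < k → e ≠ 4 →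
      φ (T (k + 2) d e) = T (k + 2) d e := by
  have s0 := h.sym k (by omega)
  have s1 := h.sym (k + 1) (by omega)
  have s2 := h.sym (k + 2) le_rfl
  have c4 := cube4 hk h
  have q0 : T k 0 4 * T k 0 4 = 1 := s0.sq 0 (lt_mem (by omega)) 4 (lt_mem (by omega))
  have q1 : T (k + 1) 0 4 * T (k + 1) 0 4 = 1 :=
    s1.sq 0 (lt_mem (by omega)) 4 (lt_mem (by omega))
  have q2 : T (k + 2) 0 4 * T (k + 2) 0 4 = 1 :=
    s2.sq 0 (lt_mem (by omega)) 4 (lt_mem (by omega))
  have q3 : T (k + 2) k (k + 1) * T (k + 2) k (k + 1) = 1 :=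
    s2.sq k (lt_mem (by omega)) (k + 1) (lt_mem (by omega))
  have i0 := inv_eq_of_mul_eq_one_right q0
  have i1 := inv_eq_of_mul_eq_one_right q1
  have i2 := inv_eq_of_mul_eq_one_right q2
  have i3 := inv_eq_of_mul_eq_one_right q3
  have v2 : T (k + 1) 0 4 * T k 0 4 = T (k + 2) k (k + 1) * T (k + 2) 0 4 * T (k + 1) 0 4 := by
    rw [← c4, mul_assoc (T (k + 1) 0 4 * T k 0 4), q1, mul_one]
  let φ : G →* G := (MulAut.conj (T (k + 1) 0 4 * T k 0 4)).toMonoidHom
  have f1 : ∀ g, φ g = T (k + 1) 0 4 * (T k 0 4 * g * T k 0 4) * T (k + 1) 0 4 := by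
    intro g
    show T (k + 1) 0 4 * T k 0 4 * g * (T (k + 1) 0 4 * T k 0 4)⁻¹ = _
    simp only [mul_inv_rev, i0, i1, mul_assoc]
  have f2 : ∀ g, φ g = T (k + 2) k (k + 1) *
      (T (k + 2) 0 4 * (T (k + 1) 0 4 * g * T (k + 1) 0 4) * T (k + 2) 0 4) *
        T (k + 2) k (k + 1) := by
    intro g
    show T (k + 1) 0 4 * T k 0 4 * g * (T (k + 1) 0 4 * T k 0 4)⁻¹ = _
    rw [v2]
    simp only [mul_inv_rev, i1, i2, i3, mul_assoc]
  have mid : ∀ d e, 1 ≤ d → d ≤ k → d ≠ 4 → 1 ≤ e → e ≤ k → e ≠ 4 →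
      φ (T (k + 2) d e) = T (k + 2) k (k + 1) * T (k + 2) d e * T (k + 2) k (k + 1) := by
    intro d e d1 d2 d3 e1 e2 e3
    have a : T (k + 2) d e = T (k + 1) d e :=
      h.stab (k + 1) le_rfl d e d1 (by omega) e1 (by omega)
    have b : T (k + 1) 0 4 * T (k + 2) d e * T (k + 1) 0 4 = T (k + 2) d e := by
      rw [a]
      exact cfix s1 (lt_mem (by omega)) (lt_mem (by omega)) (lt_mem (by omega))
        (lt_mem (by omega)) (by omega) d3 (by omega) e3
    rw [f2, b, cfix s2 (lt_mem (by omega)) (lt_mem (by omega)) (lt_mem (by omega))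
      (lt_mem (by omega)) (by omega) d3 (by omega) e3]
  refine ⟨φ, ?_, ?_, ?_, ?_⟩
  · rw [f1, cll s0 (lt_mem (by omega)) (lt_mem (by omega)) (lt_mem (by omega)) (by omega)
      (by omega), ← h.stab k (by omega) 4 1 (by omega) (by omega) le_rfl (by omega)]
    exact crl s1 (lt_mem (by omega)) (lt_mem (by omega)) (lt_mem (by omega)) (by omega) (by omega)
  · rw [f2, cll s1 (lt_mem (by omega)) (lt_mem (by omega)) (lt_mem (by omega)) (by omega)
      (by omega), ← h.stab (k + 1) le_rfl 4 1 (by omega) (by omega) le_rfl (by omega),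
      crl s2 (lt_mem (by omega)) (lt_mem (by omega)) (lt_mem (by omega)) (by omega) (by omega)]
    exact cfix s2 (lt_mem (by omega)) (lt_mem (by omega)) (lt_mem (by omega)) (lt_mem (by omega))
      (by omega) (by omega) (by omega) (by omega)
  · intro d d1 d2 d3
    rw [mid d k d1 d2.le d3 (by omega) le_rfl (by omega)]
    exact clr s2 (lt_mem (by omega)) (lt_mem (by omega)) (lt_mem (by omega)) (by omega) (by omega)
  · intro d e d1 d2 d3 e1 e2 e3
    rw [mid d e d1 d2.le d3 e1 e2.le e3]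
    exact cfix s2 (lt_mem (by omega)) (lt_mem (by omega)) (lt_mem (by omega)) (lt_mem (by omega))
      (by omega) (by omega) (by omega) (by omega)

/-- The two new generators. -/
theorem newgen {k : ℕ} (hk : 5 ≤ k) (h : Sys T (k + 2)) : ∃ y y₀ : G,
    y * y = 1 ∧ y₀ * y₀ = 1 ∧ T (k + 2) 0 1 * T (k + 1) 0 1 * T (k + 2) 0 1 = y * y₀ ∧
    y * T (k + 2) (k + 1) 2 * y = T (k + 2) (k + 1) 2 * y * T (k + 2) (k + 1) 2 ∧
    y₀ * T (k + 2) 1 2 * y₀ = T (k + 2) 1 2 * y₀ * T (k + 2) 1 2 ∧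
    (∀ c d, 1 ≤ c → c ≤ k → 1 ≤ d → d ≤ k → Commute y (T (k + 2) c d)) ∧
    (∀ d, 2 ≤ d → d ≤ k + 1 → Commute y₀ (T (k + 2) 2 d)) ∧ Commute y₀ y := by
  obtain ⟨φ, p0, p1, p2, p3⟩ := shift hk h
  have s1 := h.sym (k + 1) (by omega)
  have s2 := h.sym (k + 2) le_rfl
  have m : ∀ {c : ℕ}, c < k + 2 → c ∈ Set.Iio (k + 2) := fun hc => hc
  have q3 : T (k + 2) k (k + 1) * T (k + 2) k (k + 1) = 1 :=
    s2.sq k (m (by omega)) (k + 1) (m (by omega))
  have q4 : T (k + 2) 0 1 * T (k + 2) 0 1 = 1 := s2.sq 0 (m (by omega)) 1 (m (by omega))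
  have c := h.cube k (by omega) le_rfl
  rw [symm s2 (c := 1) (d := 0) (m (by omega)) (m (by omega))] at c
  have yy : φ (T (k + 2) k (k + 1)) * φ (T (k + 2) k (k + 1)) = 1 := by
    rw [← map_mul, q3, map_one]
  have rho : T (k + 2) 0 1 * T (k + 1) 0 1 * T (k + 2) 0 1 =
      φ (T (k + 2) k (k + 1)) * φ (T (k + 2) 0 1) := by
    rw [← map_mul, ← c, map_mul, map_mul, p0, p1]
  have t2 : φ (T (k + 2) 2 k) = T (k + 2) 2 (k + 1) := p2 2 (by omega) (by omega) (by omega)
  have crho : ∀ c d, 2 ≤ c → c ≤ k → 2 ≤ d → d ≤ k →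
      Commute (φ (T (k + 2) k (k + 1)) * φ (T (k + 2) 0 1)) (T (k + 2) c d) := by
    intro c d c1 c2 d1 d2
    have a : Commute (T (k + 2) 0 1) (T (k + 2) c d) :=
      comm s2 (m (by omega)) (m (by omega)) (m (by omega)) (m (by omega))
        (by omega) (by omega) (by omega) (by omega)
    have b : Commute (T (k + 1) 0 1) (T (k + 2) c d) := by
      rw [h.stab (k + 1) le_rfl c d (by omega) (by omega) (by omega) (by omega)]
      exact comm s1 (lt_mem (by omega)) (lt_mem (by omega)) (lt_mem (by omega))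
        (lt_mem (by omega)) (by omega) (by omega) (by omega) (by omega)
    rw [← rho]
    exact (a.mul_left b).mul_left a
  have w : T (k + 2) k (k + 1) = T (k + 2) 2 k * ((T (k + 2) k (k + 1) * T (k + 2) 0 1) *
      T (k + 2) 2 k * (T (k + 2) k (k + 1) * T (k + 2) 0 1)) * T (k + 2) 2 k := by
    have a : Commute (T (k + 2) k (k + 1)) (T (k + 2) 0 1) :=
      comm s2 (m (by omega)) (m (by omega)) (m (by omega)) (m (by omega))
        (by omega) (by omega) (by omega) (by omega)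
    have b : T (k + 2) 0 1 * T (k + 2) 2 k * T (k + 2) 0 1 = T (k + 2) 2 k :=
      cfix s2 (m (by omega)) (m (by omega)) (m (by omega)) (m (by omega))
        (by omega) (by omega) (by omega) (by omega)
    have e : (T (k + 2) k (k + 1) * T (k + 2) 0 1) * T (k + 2) 2 k *
        (T (k + 2) k (k + 1) * T (k + 2) 0 1) = T (k + 2) 2 (k + 1) := by
      calc _ = T (k + 2) k (k + 1) * (T (k + 2) 0 1 * T (k + 2) 2 k * T (k + 2) 0 1) *
            T (k + 2) k (k + 1) := by
              rw [mul_assoc _ _ (T (k + 2) k (k + 1)), mul_assoc _ _ (T (k + 2) k (k + 1)), ← a.eq]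
              simp only [mul_assoc]
        _ = _ := by
              rw [b]
              exact clr s2 (m (by omega)) (m (by omega)) (m (by omega)) (by omega) (by omega)
    rw [e]
    exact (cll s2 (m (by omega)) (m (by omega)) (m (by omega)) (by omega) (by omega)).symm
  have w' : φ (T (k + 2) k (k + 1)) = T (k + 2) 2 (k + 1) *
      ((φ (T (k + 2) k (k + 1)) * φ (T (k + 2) 0 1)) * T (k + 2) 2 (k + 1) *
        (φ (T (k + 2) k (k + 1)) * φ (T (k + 2) 0 1))) * T (k + 2) 2 (k + 1) := by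
    rw [← t2]
    simp only [← map_mul]
    exact congrArg φ w
  have cy : ∀ c d, 1 ≤ c → c ≤ k → 1 ≤ d → d ≤ k →
      Commute (φ (T (k + 2) k (k + 1))) (T (k + 2) c d) := by
    intro c d c1 c2 d1 d2
    refine hubc (mono s2 (J' := Set.Icc 1 k) (fun x hx => m (by have := hx.2; omega))) _
      (a := 3) ⟨by omega, by omega⟩ ?_ c ⟨c1, c2⟩ d ⟨d1, d2⟩
    rintro e ⟨e1, e2⟩
    by_cases he : 3 ≤ e
    · have a := crho 3 e (by omega) (by omega) (by omega) e2
      have b : Commute (T (k + 2) 2 (k + 1)) (T (k + 2) 3 e) :=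
        comm s2 (m (by omega)) (m (by omega)) (m (by omega)) (m (by omega))
          (by omega) (by omega) (by omega) (by omega)
      rw [w']
      exact (b.mul_left ((a.mul_left b).mul_left a)).mul_left b
    · rw [← p3 3 e (by omega) (by omega) (by omega) e1 (by omega) (by omega)]
      exact (comm s2 (m (by omega)) (m (by omega)) (m (by omega)) (m (by omega))
        (by omega) (by omega) (by omega) (by omega)).map φ
  refine ⟨φ (T (k + 2) k (k + 1)), φ (T (k + 2) 0 1), yy, by rw [← map_mul, q4, map_one], rho,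
    ?_, ?_, cy, ?_, ?_⟩
  · rw [symm s2 (c := k + 1) (d := 2) (m (by omega)) (m (by omega)), ← t2]
    simp only [← map_mul]
    refine congrArg φ ?_
    rw [clr s2 (m (by omega)) (m (by omega)) (m (by omega)) (by omega) (by omega),
      crl s2 (m (by omega)) (m (by omega)) (m (by omega)) (by omega) (by omega)]
  · rw [← p3 1 2 (by omega) (by omega) (by omega) (by omega) (by omega) (by omega)]
    simp only [← map_mul]
    refine congrArg φ ?_
    rw [crl s2 (m (by omega)) (m (by omega)) (m (by omega)) (by omega) (by omega),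
      clr s2 (m (by omega)) (m (by omega)) (m (by omega)) (by omega) (by omega)]
  · intro d d1 d2
    by_cases hd : d ≤ k
    · have e : φ (T (k + 2) 0 1) =
          φ (T (k + 2) k (k + 1)) * (φ (T (k + 2) k (k + 1)) * φ (T (k + 2) 0 1)) := by
        rw [← mul_assoc, yy, one_mul]
      rw [e]
      exact (cy 2 d (by omega) (by omega) (by omega) hd).mul_left
        (crho 2 d le_rfl (by omega) d1 hd)
    · obtain rfl : d = k + 1 := by omega
      rw [← t2]
      exact (comm s2 (m (by omega)) (m (by omega)) (m (by omega)) (m (by omega))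
        (by omega) (by omega) (by omega) (by omega)).map φ
  · exact (comm s2 (m (by omega)) (m (by omega)) (m (by omega)) (m (by omega))
      (by omega) (by omega) (by omega) (by omega)).map φ

/-- One more level. -/
theorem step (hs : SpSym) {k : ℕ} (hk : 5 ≤ k) (h : Sys T (k + 2)) :
    ∃ T' : ℕ → ℕ → ℕ → G, Sys T' (k + 3) ∧ ∀ n ≤ k + 2, T' n = T n := by
  obtain ⟨y, y₀, yy, y0, rho, b1, b0, cy, cy0, cyy⟩ := newgen hk h
  have s2 := h.sym (k + 2) le_rfl
  have sJ : Sym (T (k + 2)) (Set.Icc 1 (k + 1)) :=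
    mono s2 (fun x hx => lt_mem (by have := hx.2; omega))
  obtain ⟨T1, s3, ag1, e1⟩ := (hs ℕ G (T (k + 2)) (Set.Icc 1 (k + 1)) sJ).2.2.2 (k + 2) (k + 1) 2 y
    (fun hx => by have := hx.2; omega) ⟨by omega, le_rfl⟩ ⟨by omega, by omega⟩ (by omega) yy b1
    (fun c hc d hd c1 d1 => cy c d hc.1 (by have := hc.2; omega) hd.1 (by have := hd.2; omega))
  have eJ : insert (k + 2) (Set.Icc 1 (k + 1)) = Set.Icc 1 (k + 2) := by
    ext x
    simp only [Set.mem_insert_iff, Set.mem_Icc]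
    omega
  rw [eJ] at s3
  have cT : ∀ c ∈ Set.Icc 2 (k + 2), ∀ d ∈ Set.Icc 2 (k + 2), Commute y₀ (T1 c d) := by
    refine hubc (mono s3 (fun x hx => ⟨by have := hx.1; omega, hx.2⟩)) y₀ (a := 2)
      ⟨le_rfl, by omega⟩ ?_
    have a : ∀ d, 2 ≤ d → d ≤ k + 1 → Commute y₀ (T1 2 d) := by
      intro d d1 d2
      rw [ag1 2 ⟨by omega, by omega⟩ d ⟨by omega, d2⟩]
      exact cy0 d d1 d2
    rintro d ⟨d1, d2⟩
    by_cases hd : d ≤ k + 1
    · exact a d d1 hd
    · obtain rfl : d = k + 2 := by omega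
      rw [← clr s3 (c := k + 1) (d := k + 2) (f := 2) ⟨by omega, by omega⟩ ⟨by omega, le_rfl⟩
        ⟨by omega, by omega⟩ (by omega) (by omega), e1]
      exact (cyy.mul_right (a (k + 1) (by omega) le_rfl)).mul_right cyy
  obtain ⟨T2, s4, ag2, e2⟩ := (hs ℕ G T1 (Set.Icc 1 (k + 2)) s3).2.2.2 0 1 2 y₀
    (fun hx => by have := hx.1; omega) ⟨le_rfl, by omega⟩ ⟨by omega, by omega⟩ (by omega) y0
    (by rw [ag1 1 ⟨le_rfl, by omega⟩ 2 ⟨by omega, by omega⟩]; exact b0)
    (fun c hc d hd c1 d1 => cT c ⟨by have := hc.1; omega, hc.2⟩ d ⟨by have := hd.1; omega, hd.2⟩)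
  have eJ' : insert 0 (Set.Icc 1 (k + 2)) = Set.Iio (k + 3) := by
    ext x
    simp only [Set.mem_insert_iff, Set.mem_Icc, Set.mem_Iio]
    omega
  rw [eJ'] at s4
  have lo : ∀ n ≤ k + 2, Function.update T (k + 3) T2 n = T n :=
    fun n hn => Function.update_of_ne (by omega) _ _
  have hi : Function.update T (k + 3) T2 (k + 3) = T2 := Function.update_self _ _ _
  refine ⟨Function.update T (k + 3) T2, ⟨?_, ?_, ?_⟩, lo⟩
  · intro n hn
    by_cases hn' : n ≤ k + 2
    · rw [lo n hn']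
      exact h.sym n hn'
    · obtain rfl : n = k + 3 := by omega
      rw [hi]
      exact s4
  · intro n hn c d c1 c2 d1 d2
    by_cases hn' : n + 1 ≤ k + 2
    · rw [lo _ hn', lo n (by omega)]
      exact h.stab n hn' c d c1 c2 d1 d2
    · obtain rfl : n = k + 2 := by omega
      rw [lo _ le_rfl, hi, ag2 c ⟨c1, by omega⟩ d ⟨d1, by omega⟩,
        ag1 c ⟨c1, by omega⟩ d ⟨d1, by omega⟩]
  · intro n n2 hn
    by_cases hn' : n + 2 ≤ k + 2
    · rw [lo _ hn', lo n (by omega), lo (n + 1) (by omega)]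
      exact h.cube n n2 hn'
    · obtain rfl : n = k + 1 := by omega
      rw [lo (k + 1) (by omega), lo (k + 1 + 1) le_rfl, hi, e2,
        ag2 (k + 1) ⟨by omega, by omega⟩ (k + 1 + 1) ⟨by omega, le_rfl⟩, e1]
      exact rho

theorem congr {A B : ℕ → ℕ → ℕ → G} {M N : ℕ} (h : Sys A N) (hM : M ≤ N)
    (e : ∀ n ≤ M, B n = A n) : Sys B M := by
  refine ⟨fun n hn => ?_, fun n hn c d c1 c2 d1 d2 => ?_, fun n n2 hn => ?_⟩
  · rw [e n hn]
    exact h.sym n (by omega)
  · rw [e _ hn, e n (by omega)]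
    exact h.stab n (by omega) c d c1 c2 d1 d2
  · rw [e _ hn, e n (by omega), e (n + 1) (by omega)]
    exact h.cube n n2 (by omega)

/-- The tower of extensions. -/
noncomputable def tower (hs : SpSym) (h : Sys T 7) :
    (j : ℕ) → {S : ℕ → ℕ → ℕ → G // Sys S (j + 5 + 2)}
  | 0 => ⟨T, h⟩
  | j + 1 => ⟨(step hs (k := j + 5) (by omega) (tower hs h j).2).choose,
      congr (step hs (k := j + 5) (by omega) (tower hs h j).2).choose_spec.1 (by omega)
        (fun _ _ => rfl)⟩

theorem tower_succ (hs : SpSym) (h : Sys T 7) (j n : ℕ) (hn : n ≤ j + 5 + 2) :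
    (tower hs h (j + 1)).1 n = (tower hs h j).1 n :=
  (step hs (k := j + 5) (by omega) (tower hs h j).2).choose_spec.2 n hn

theorem tower_le (hs : SpSym) (h : Sys T 7) (i n : ℕ) (hn : n ≤ i + 5 + 2) (j : ℕ) (hj : i ≤ j) :
    (tower hs h j).1 n = (tower hs h i).1 n := by
  induction j, hj using Nat.le_induction with
  | base => rfl
  | succ j hj ih => rw [tower_succ hs h j n (by omega), ih]

theorem gen_step (h : ∀ M, Sys T M) (L : Subgroup G) {k : ℕ} (hk : 2 ≤ k)
    (h1 : ∀ c d, c < k + 1 → d < k + 1 → T (k + 1) c d ∈ L)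
    (h2 : ∀ c d, c < k + 2 → d < k + 2 → T (k + 2) c d ∈ L) :
    ∀ c d, c < k + 3 → d < k + 3 → T (k + 3) c d ∈ L := by
  have s := (h (k + 3)).sym (k + 3) le_rfl
  have m : ∀ {c : ℕ}, c < k + 3 → c ∈ Set.Iio (k + 3) := fun hc => hc
  have c : T (k + 2) 0 1 * T (k + 1) 0 1 * T (k + 2) 0 1 =
      T (k + 3) (k + 1) (k + 2) * T (k + 3) 1 0 := (h (k + 3)).cube (k + 1) (by omega) le_rfl
  have rho : T (k + 3) (k + 1) (k + 2) * T (k + 3) 1 0 ∈ L := by
    rw [← c]
    exact L.mul_mem (L.mul_mem (h2 0 1 (by omega) (by omega)) (h1 0 1 (by omega) (by omega)))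
      (h2 0 1 (by omega) (by omega))
  have old : ∀ c d, 1 ≤ c → c < k + 2 → 1 ≤ d → d < k + 2 → T (k + 3) c d ∈ L := by
    intro c d c1 c2 d1 d2
    rw [(h (k + 3)).stab (k + 2) le_rfl c d c1 c2 d1 d2]
    exact h2 c d c2 d2
  have qa := s.sq (k + 1) (m (by omega)) (k + 2) (m (by omega))
  have qb := s.sq 1 (m (by omega)) 0 (m (by omega))
  have top : T (k + 3) 2 (k + 2) ∈ L := by
    have e : T (k + 3) 2 (k + 2) = (T (k + 3) (k + 1) (k + 2) * T (k + 3) 1 0) *
        T (k + 3) 2 (k + 1) * (T (k + 3) (k + 1) (k + 2) * T (k + 3) 1 0)⁻¹ := by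
      rw [mul_inv_rev, inv_eq_of_mul_eq_one_right qa, inv_eq_of_mul_eq_one_right qb]
      calc _ = T (k + 3) (k + 1) (k + 2) *
            (T (k + 3) 1 0 * T (k + 3) 2 (k + 1) * T (k + 3) 1 0) * T (k + 3) (k + 1) (k + 2) := by
              rw [cfix s (m (by omega)) (m (by omega)) (m (by omega)) (m (by omega))
                (by omega) (by omega) (by omega) (by omega)]
              exact (clr s (m (by omega)) (m (by omega)) (m (by omega)) (by omega)
                (by omega)).symm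
        _ = _ := by simp only [mul_assoc]
    rw [e]
    exact L.mul_mem (L.mul_mem rho (old 2 (k + 1) (by omega) (by omega) (by omega) (by omega)))
      (L.inv_mem rho)
  have ha : T (k + 3) (k + 1) (k + 2) ∈ L := by
    rw [← cll s (c := 2) (m (by omega)) (m (by omega)) (m (by omega)) (by omega) (by omega)]
    have a := old 2 (k + 1) (by omega) (by omega) (by omega) (by omega)
    exact L.mul_mem (L.mul_mem a top) a
  have hb : T (k + 3) 1 0 ∈ L := (L.mul_mem_cancel_left ha).1 rho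
  intro c d hc hd
  refine hub s L (a := 2) (m (by omega)) ?_ c hc d hd
  intro e he
  have he' : e < k + 3 := he
  by_cases e0 : e = 0
  · rw [e0, ← cll s (c := 1) (m (by omega)) (m (by omega)) (m (by omega)) (by omega) (by omega)]
    have a := old 1 2 le_rfl (by omega) (by omega) (by omega)
    exact L.mul_mem (L.mul_mem a hb) a
  by_cases e1 : e = k + 2
  · rw [e1]
    exact top
  exact old 2 e (by omega) (by omega) (by omega) (by omega)

end B

end Extx

theorem ext_main (h : SpSym) : SpExt := by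
  intro G _
  refine ⟨fun T hT => ⟨fun n => (Extx.tower h hT n).1 n, fun M => ?_, fun n hn c _ d _ => ?_⟩,
    fun T hT L hL n => ?_⟩
  · exact Extx.congr (Extx.tower h hT M).2 (by omega)
      (fun n hn => (Extx.tower_le h hT n n (by omega) M hn).symm)
  · show (Extx.tower h hT n).1 n c d = _
    rw [Extx.tower_le h hT 0 n (by omega) n (Nat.zero_le _)]
    rfl
  · induction n using Nat.strong_induction_on with
    | _ n ih =>
      by_cases hn : n ≤ 7
      · exact fun c d hc hd => hL ⟨n, c, d, hn, hc, hd, rfl⟩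
      · obtain ⟨k, rfl⟩ : ∃ k, n = k + 3 := ⟨n - 3, by omega⟩
        exact Extx.gen_step hT L (by omega) (ih (k + 1) (by omega)) (ih (k + 2) (by omega))

end Pool.Agent.MP_89edc2_al.H5
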