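import Pool.Agent.MP_89edc2_al.H5.Spec
import Pool.Agent.MP_89edc2_al.K76.Cnt
import Pool.Agent.MP_89edc2_al.K76.Emb

/-!
# Assembly
-/

namespace Pool.Agent.MP_89edc2_al.H5

open Pool.Agent.MP_89edc2_al.K76 (ball Slow)

namespace Finx

/-- The four letters attached to a letter of the free group. -/
def blk4 (a : Fin 2 × Bool) : List (Fin 4) :=
  if a.1 = 0 then (if a.2 then [0, 1, 0, 1] else [1, 0, 1, 0])
  else (if a.2 then [2, 3, 2, 3] else [3, 2, 3, 2])

theorem chain_flat (L : List (Fin 2 × Bool)) (h : FreeGroup.IsReduced L) :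
    (L.flatMap blk4).IsChain (· ≠ ·) := by
  induction L with
  | nil => simp
  | cons a L ih =>
    cases L with
    | nil =>
      obtain ⟨i, b⟩ := a
      fin_cases i <;> cases b <;> simp [blk4]
    | cons a' L =>
      have h1 := List.isChain_cons_cons.1 h
      have h2 := ih h1.2
      have h3 := h1.1
      rw [List.flatMap_cons] at h2
      rw [List.flatMap_cons, List.flatMap_cons]
      obtain ⟨i, b⟩ := a
      obtain ⟨j, b'⟩ := a'
      fin_cases i <;> cases b <;> fin_cases j <;> cases b' <;>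
        simp [blk4] at h2 h3 ⊢ <;> exact h2

theorem len_flat (L : List (Fin 2 × Bool)) : (L.flatMap blk4).length = 4 * L.length := by
  induction L with
  | nil => simp
  | cons a L ih =>
    rw [List.flatMap_cons, List.length_append, ih, List.length_cons]
    obtain ⟨i, b⟩ := a
    fin_cases i <;> cases b <;> simp [blk4] <;> omega

theorem lift_flat {G : Type} [Group G] (r : Fin 4 → G) (hr : ∀ i, r i * r i = 1)
    (L : List (Fin 2 × Bool)) :
    FreeGroup.lift (fun i => ((blk4 (i, true)).map r).prod) (FreeGroup.mk L) =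
      ((L.flatMap blk4).map r).prod := by
  have hi : ∀ i, (r i)⁻¹ = r i := fun i => inv_eq_of_mul_eq_one_right (hr i)
  rw [FreeGroup.lift_mk]
  induction L with
  | nil => simp
  | cons a L ih =>
    rw [List.map_cons, List.prod_cons, ih, List.flatMap_cons, List.map_append, List.prod_append]
    congr 1
    obtain ⟨i, b⟩ := a
    fin_cases i <;> cases b <;> simp [blk4, hi, mul_assoc]

end Finx

open Finx in
theorem fin_main (vfp : SpVfp) (cox : SpCox) (gate : SpGate) (ah : SpAh) (gfp : SpGfp)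
    (inv : SpInv) (gn : SpGen) (sit : SpSit) (mec : SpMec) :
    ∃ (G : Type) (_ : Group G), Group.IsFinitelyPresented G ∧
      (∃ (P : Type) (Y : SimpleGraph P) (_ : MulAction G P), Y.Connected ∧
        (∀ (g : G) x y, Y.Adj x y → Y.Adj (g • x) (g • y)) ∧ Thin Y ∧ Acyl G Y ∧
        ∃ (φ : FreeGroup (Fin 2) →* G) (x : P) (C : ℕ),
          ∀ w, w.norm ≤ C * Y.dist x (φ w • x) + C) ∧
      (∃ S : Finset G, Subgroup.closure (S : Set G) = ⊤ ∧ ∃ c : ℝ, 1 < c ∧ ∀ k : ℕ,
        c ^ k ≤ ((ball S k).ncard : ℝ)) ∧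
      ∀ c : ℝ, 1 < c → ∃ S : Finset G, Subgroup.closure (S : Set G) = ⊤ ∧ ∃ k : ℕ,
        ((ball S k).ncard : ℝ) < c ^ k := by
  classical
  obtain ⟨σ, hadj, ⟨s₀, h₀, h1, h2, h3, h4⟩, q, hq⟩ := sit
  have hG : Group.IsFinitelyPresented σ.GG := gfp V SV σ s₀ h₀ vfp.1 h1 h2 h3 h4
  obtain ⟨N, hN⟩ := cox SV σ.adj σ.adj_symm σ.adj_irr
  obtain ⟨Γ, i1, i2, 𝒢, hact, hch⟩ := gate V SV σ N hN
  obtain ⟨Y, y1, y2, y3, y4, y5⟩ := ah σ.GG (W σ.adj) Γ 𝒢
  let r : Fin 4 → W σ.adj := fun i => gen σ.adj (q i)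
  let ψ : FreeGroup (Fin 2) →* W σ.adj := FreeGroup.lift fun i => ((blk4 (i, true)).map r).prod
  let φ : FreeGroup (Fin 2) →* σ.GG := (SemidirectProduct.inl : W σ.adj →* σ.GG).comp ψ
  have key : ∀ w : FreeGroup (Fin 2), 4 * w.norm ≤ 𝒢.n 1 (ψ w) + 2 := by
    intro w
    have c1 : ((w.toWord.flatMap blk4).map q).IsChain σ.cov := by
      rw [List.isChain_map]
      exact (chain_flat _ FreeGroup.isReduced_toWord).imp fun _ _ h => hq _ _ h
    have c2 := hch _ c1
    rw [List.length_map, len_flat, List.map_map] at c2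
    have c3 : ψ w = ((w.toWord.flatMap blk4).map r).prod := by
      conv_lhs => rw [← FreeGroup.mk_toWord (x := w)]
      exact lift_flat r (fun i => gen_sq _ _) _
    rw [c3]
    exact c2
  have hφ : ∀ w, φ w • (1 : W σ.adj) = ψ w := fun w => hact _
  have hinj : Function.Injective φ := by
    rw [injective_iff_map_eq_one]
    intro w hw
    have e1 : ψ w = 1 := by rw [← hφ, hw, one_smul]
    have e2 := key w
    have e3 := y5 (1 : W σ.adj) 1
    rw [SimpleGraph.dist_self] at e3
    rw [e1] at e2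
    exact FreeGroup.norm_eq_zero.1 (by omega)
  refine ⟨σ.GG, inferInstance, hG, ⟨W σ.adj, Y, i1, y1, y2, y3, y4, φ, 1, 2, fun w => ?_⟩, ?_, ?_⟩
  · have e2 := key w
    have e3 := y5 1 (ψ w)
    rw [hφ]
    omega
  · let ι : Bool → Fin 2 := fun b => if b then 1 else 0
    refine K76.exp_main σ.GG σ.GG (MonoidHom.id _) (fun b => φ (FreeGroup.of (ι b))) hG
      Function.surjective_id fun l l' _ h => ?_
    have e : ∀ l : List Bool, (l.map fun b => φ (FreeGroup.of (ι b))).prod =
        φ (FreeGroup.mk (l.map fun b => (ι b, true))) := fun l => by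
      induction l with
      | nil => exact (map_one φ).symm
      | cons b l ih =>
        rw [List.map_cons, List.prod_cons, ih, ← map_mul]
        rfl
    have red : ∀ l : List Bool, FreeGroup.IsReduced (l.map fun b => (ι b, true)) := fun l => by
      unfold FreeGroup.IsReduced
      rw [List.isChain_map]
      exact List.Pairwise.isChain (List.pairwise_of_forall fun _ _ _ => rfl)
    rw [e, e] at h
    have h5 := congrArg FreeGroup.toWord (hinj h)
    rw [FreeGroup.toWord_mk, FreeGroup.toWord_mk, (red l).reduce_eq, (red l').reduce_eq] at h5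
    refine List.map_injective_iff.2 (fun b b' hb => ?_) h5
    have := (Prod.mk.inj hb).1
    cases b <;> cases b' <;> simp [ι] at this ⊢
  · obtain ⟨m, hm⟩ := mec σ hadj
    refine K76.cnt_main σ.GG m fun N₀ => ⟨N₀ + 4, by omega, ?_⟩
    obtain ⟨μ, hμ⟩ := hm (N₀ + 4) (by omega)
    obtain ⟨g1, g2, g3⟩ := gn _ m _ μ (by omega)
    refine ⟨g1.toFinset, ?_, inv _ m _ μ _ (by omega) g1.coe_toFinset⟩
    rw [g1.coe_toFinset]
    exact hμ _ g2 g3

end Pool.Agent.MP_89edc2_al.H5
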