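import Pool.Agent.MP_89edc2_al.H5.Spec

/-! Row GATE: the gates of a right-angled Coxeter group. -/

namespace Pool.Agent.MP_89edc2_al.H5

namespace Gatex

section Walls
variable {S : Type} {adj : S → S → Prop} {N : W adj → Set (W adj)}

/-- The wall `t` separates `x` and `y`. -/
def D (N : W adj → Set (W adj)) (x y t : W adj) : Prop := ¬ (t ∈ N x ↔ t ∈ N y)

theorem n_one (c : Coc adj N) (t : W adj) : t ∉ N 1 := by
  have := c.mul 1 1 t
  simp only [mul_one, inv_one, one_mul] at this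
  tauto

theorem n_inv (c : Coc adj N) (u t : W adj) : t ∈ N u⁻¹ ↔ u * t * u⁻¹ ∈ N u := by
  have := c.mul u⁻¹ u t
  rw [inv_mul_cancel, inv_inv] at this
  have h := n_one c t
  tauto

theorem d_iff (c : Coc adj N) (p x t : W adj) : t ∈ N (p⁻¹ * x) ↔ D N p x (p * t * p⁻¹) := by
  rw [c.mul, n_inv c, inv_inv, D]

theorem d_iff' (c : Coc adj N) (p x a : W adj) : D N p x a ↔ p⁻¹ * a * p ∈ N (p⁻¹ * x) := by
  rw [d_iff c]
  congr! 1
  group

theorem d_gen (c : Coc adj N) (p a : W adj) (s : S) :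
    D N p (p * gen adj s) a ↔ a = p * gen adj s * p⁻¹ := by
  rw [d_iff' c, inv_mul_cancel_left, c.one]
  constructor
  · intro h
    rw [← h]
    group
  · rintro rfl
    group

theorem d_fin (c : Coc adj N) (x y : W adj) : {a | D N x y a}.Finite :=
  ((c.fin x).union (c.fin y)).subset fun a ha => by
    simp only [D, Set.mem_ofPred_eq] at ha
    simp only [Set.mem_union]
    tauto

theorem d_ext (c : Coc adj N) {p q : W adj} (h : ∀ a, ¬ D N p q a) : p = q := by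
  refine inv_mul_eq_one.1 (c.triv _ (Set.eq_empty_of_forall_notMem fun t ht => ?_))
  exact h _ ((d_iff c p q t).1 ht)

theorem gen_inv (s : S) : (gen adj s)⁻¹ = gen adj s := inv_eq_of_mul_eq_one_right (gen_sq adj s)

theorem push (c : Coc adj N) {a b : S} {u : W adj} (h1 : a ≠ b) (h2 : ¬ adj a b)
    (h : gen adj b ∈ N u) : gen adj a ∈ N (gen adj a * u) := by
  rw [c.mul, inv_mul_cancel, one_mul, c.one]
  exact fun e => h2 (c.two a b u (e.1 rfl) h h1)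

end Walls

variable {H S : Type} [Group H] [MulAction H S] {σ : Sit H S} {N : W σ.adj → Set (W σ.adj)}

theorem n_act (c : Coc σ.adj N) (h : H) (u : W σ.adj) :
    ∀ t, σ.act h t ∈ N (σ.act h u) ↔ t ∈ N u := by
  let L : Subgroup (W σ.adj) :=
    { carrier := {u | ∀ t, σ.act h t ∈ N (σ.act h u) ↔ t ∈ N u}
      one_mem' := fun t => by simp only [map_one, n_one c]
      mul_mem' := fun {u v} hu hv t => by
        rw [map_mul, c.mul, c.mul, hu t, ← hv, map_mul, map_mul, map_inv]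
      inv_mem' := fun {u} hu t => by
        rw [map_inv, n_inv c, n_inv c, ← hu, map_mul, map_mul, map_inv] }
  refine PresentedGroup.generated_by _ L (fun s t => ?_) u
  change σ.act h t ∈ N (σ.act h (gen σ.adj s)) ↔ t ∈ N (gen σ.adj s)
  rw [c.one, σ.act_gen, c.one, ← σ.act_gen]
  exact (σ.act h).injective.eq_iff

/-- Gates. -/
@[ext] structure Gt (σ : Sit H S) where
  p : W σ.adj
  s₁ : S
  s₂ : S
  s₃ : S
  c₁ : σ.cov s₁ s₂
  c₂ : σ.cov s₂ s₃

namespace Gt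

/-- The reversed gate. -/
def rev (γ : Gt σ) : Gt σ :=
  ⟨γ.p * gen σ.adj γ.s₂, γ.s₃, γ.s₂, γ.s₁, σ.cov_symm _ _ γ.c₂, σ.cov_symm _ _ γ.c₁⟩

/-- The first wall. -/
def t₁ (γ : Gt σ) : W σ.adj := γ.p * gen σ.adj γ.s₁ * γ.p⁻¹

/-- The middle wall. -/
def t₂ (γ : Gt σ) : W σ.adj := γ.p * gen σ.adj γ.s₂ * γ.p⁻¹

/-- The point behind the first wall. -/
def r (γ : Gt σ) : W σ.adj := γ.p * gen σ.adj γ.s₁

/-- The side behind the first wall. -/
def A (N : W σ.adj → Set (W σ.adj)) (γ : Gt σ) : Set (W σ.adj) := {x | D N γ.p x γ.t₁}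

theorem rev_rev (γ : Gt σ) : γ.rev.rev = γ :=
  Gt.ext (by simp only [rev, mul_assoc, gen_sq, mul_one]) rfl rfl rfl

theorem t₂_rev (γ : Gt σ) : γ.rev.t₂ = γ.t₂ := by
  simp only [rev, t₂]
  group

theorem mem_A (c : Coc σ.adj N) (γ : Gt σ) (x : W σ.adj) :
    x ∈ γ.A N ↔ gen σ.adj γ.s₁ ∈ N (γ.p⁻¹ * x) := (d_iff c _ _ _).symm

theorem f1 (c : Coc σ.adj N) (γ : Gt σ) (a : W σ.adj) : D N γ.p γ.rev.p a ↔ a = γ.t₂ :=
  d_gen c _ _ _

theorem f2 (c : Coc σ.adj N) (γ : Gt σ) (a : W σ.adj) : D N γ.p γ.r a ↔ a = γ.t₁ :=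
  d_gen c _ _ _

theorem n1 (c : Coc σ.adj N) {γ : Gt σ} {x : W σ.adj} (hx : x ∈ γ.A N) (w a : W σ.adj)
    (h1 : D N γ.p x a) (h2 : D N γ.p w γ.t₂) : ¬ D N γ.p w a := by
  rw [d_iff' c] at h1 ⊢
  exact c.nest _ _ (σ.cov_ne _ _ γ.c₁) (σ.cov_nadj _ _ γ.c₁) (fun r => σ.cov_link _ _ r γ.c₁) _ _ _
    ((mem_A c γ x).1 hx) h1 ((d_iff c _ _ _).2 h2)

theorem a2 (c : Coc σ.adj N) {γ : Gt σ} {x : W σ.adj} (hx : x ∈ γ.A N) : ¬ D N γ.p x γ.t₂ :=
  fun h => n1 c hx x _ hx h hx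

theorem b2 (c : Coc σ.adj N) {γ : Gt σ} {y : W σ.adj} (hy : y ∈ γ.rev.A N) : D N γ.p y γ.t₂ := by
  have h1 := a2 c hy
  have h2 := (f1 c γ _).2 rfl
  rw [t₂_rev] at h1
  unfold D at *
  tauto

theorem sep1 (c : Coc σ.adj N) {γ : Gt σ} {x y : W σ.adj} (hx : x ∈ γ.A N)
    (hy : y ∈ γ.rev.A N) : D N x y γ.t₁ := by
  have h1 := n1 c hx y _ hx (b2 c hy)
  have h2 : D N γ.p x γ.t₁ := hx
  unfold D at *
  tauto

theorem sep3 (c : Coc σ.adj N) {γ : Gt σ} {x y : W σ.adj} (hx : x ∈ γ.A N)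
    (hy : y ∈ γ.rev.A N) : D N x y γ.rev.t₁ := by
  have h1 := sep1 c hy (γ.rev_rev.symm ▸ hx)
  unfold D at *
  tauto

theorem empty (c : Coc σ.adj N) {x y t : W σ.adj} (h : ∀ a, D N x y a → a = t) :
    {γ : Gt σ | x ∈ γ.A N ∧ y ∈ γ.rev.A N}.ncard ≤ 1 := by
  rw [Set.eq_empty_of_forall_notMem (s := {γ : Gt σ | x ∈ γ.A N ∧ y ∈ γ.rev.A N})
    fun γ ⟨hx, hy⟩ => ?_]
  · simp
  have h1 := a2 c hx
  have h2 := b2 c hy
  have h3 : D N γ.p x γ.t₁ := hx
  rw [h _ (sep1 c hx hy), ← h γ.t₂ (by unfold D at *; tauto)] at h3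
  exact h1 h3

theorem s₁_eq (c : Coc σ.adj N) {γ γ' : Gt σ} {x : W σ.adj} (hx : x ∈ γ.A N) (hx' : x ∈ γ'.A N)
    (e : γ.p = γ'.p) (e2 : γ.s₂ = γ'.s₂) : γ.s₁ = γ'.s₁ := by
  by_contra h
  rw [mem_A c] at hx hx'
  exact σ.cov_uniq _ _ _ γ.c₁ (e2 ▸ γ'.c₁) (c.two _ _ _ hx (e ▸ hx') h)

theorem uniq (c : Coc σ.adj N) {γ γ' : Gt σ} {x y : W σ.adj} (hx : x ∈ γ.A N)
    (hy : y ∈ γ.rev.A N) (hx' : x ∈ γ'.A N) (hy' : y ∈ γ'.rev.A N) (e : γ.p = γ'.p) : γ = γ' := by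
  have e2 : γ.s₂ = γ'.s₂ := by
    by_contra h
    have h0 : γ.t₂ ≠ γ'.t₂ := fun e' => h (c.inj _ _ (by
      rw [t₂, t₂, e] at e'
      exact mul_left_cancel (mul_right_cancel e')))
    have h1 := n1 c hy γ'.rev.p γ'.t₂
    have h2 := b2 c hy'
    have h3 := f1 c γ γ.t₂
    have h4 := f1 c γ γ'.t₂
    have h5 := f1 c γ' γ.t₂
    have h6 := f1 c γ' γ'.t₂
    have h7 := h0.symm
    rw [t₂_rev] at h1
    rw [← e] at h2 h5 h6
    unfold D at *
    tauto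
  exact Gt.ext e (s₁_eq c hx hx' e e2) e2
    (s₁_eq c hy hy' (by simp only [rev, e, e2]) e2)

theorem sub_of (c : Coc σ.adj N) {γ : Gt σ} {x z : W σ.adj} (hx : x ∈ γ.A N)
    (h : D N γ.p z γ.t₂) : {a | D N x γ.p a} ⊆ {a | D N x z a} := fun a ha => by
  have h1 := n1 c hx z a
  simp only [Set.mem_ofPred_eq] at ha ⊢
  unfold D at *
  tauto

theorem sub_of_not (c : Coc σ.adj N) {γ γ' : Gt σ} {x y : W σ.adj} (hy : y ∈ γ.rev.A N)
    (hx' : x ∈ γ'.A N) (hy' : y ∈ γ'.rev.A N) (h : ¬ D N γ.p γ'.p γ.t₂) :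
    {a | D N x γ'.p a} ⊆ {a | D N x γ.p a} := fun a ha => by
  have h1 := sub_of c hx' (b2 c hy') ha
  have h2 := n1 c hy γ'.p a
  have h3 := f1 c γ a
  have h4 := (f1 c γ _).2 rfl
  rw [t₂_rev] at h2
  simp only [Set.mem_ofPred_eq] at ha h1 ⊢
  by_cases e : a = γ.t₂
  · subst e
    unfold D at *
    tauto
  · unfold D at *
    tauto

theorem rk_inj (c : Coc σ.adj N) (x y : W σ.adj) :
    Set.InjOn (fun γ : Gt σ => {a | D N x γ.p a}.ncard) {γ | x ∈ γ.A N ∧ y ∈ γ.rev.A N} := by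
  rintro γ ⟨hx, hy⟩ γ' ⟨hx', hy'⟩ e
  have e' : {a | D N x γ.p a} = {a | D N x γ'.p a} := by
    by_cases h : D N γ.p γ'.p γ.t₂
    · exact Set.eq_of_subset_of_ncard_le (sub_of c hx h) e.ge (d_fin c _ _)
    · exact (Set.eq_of_subset_of_ncard_le (sub_of_not c hy hx' hy' h) e.le (d_fin c _ _)).symm
  refine uniq c hx hy hx' hy' (d_ext c fun a => ?_)
  have := Set.ext_iff.1 e' a
  simp only [Set.mem_ofPred_eq] at this
  unfold D at *
  tauto

theorem fin (c : Coc σ.adj N) (x y : W σ.adj) :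
    {γ : Gt σ | x ∈ γ.A N ∧ y ∈ γ.rev.A N}.Finite := by
  refine Set.Finite.of_finite_image ((Set.finite_Iic {a | D N x y a}.ncard).subset ?_) (rk_inj c x y)
  rintro _ ⟨γ, ⟨hx, hy⟩, rfl⟩
  exact Set.ncard_le_ncard (sub_of c hx (b2 c hy)) (d_fin c _ _)

theorem lt_d (c : Coc σ.adj N) {γ γ' : Gt σ} {x y : W σ.adj} (hy : y ∈ γ.rev.A N)
    (hx' : x ∈ γ'.A N) (hy' : y ∈ γ'.rev.A N)
    (h : {a | D N x γ.p a}.ncard < {a | D N x γ'.p a}.ncard) : D N γ.p γ'.p γ.t₂ := by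
  by_contra h1
  exact h.not_ge (Set.ncard_le_ncard (sub_of_not c hy hx' hy' h1) (d_fin c _ _))

theorem step (c : Coc σ.adj N) {γ γ' : Gt σ} {x y z : W σ.adj} (hx : x ∈ γ.A N)
    (hy : y ∈ γ.rev.A N) (hx' : x ∈ γ'.A N) (hy' : y ∈ γ'.rev.A N) (h : D N γ.p γ'.p γ.t₂)
    (hz : z ∉ γ'.A N) : D N γ.p z γ.t₂ := by
  have h0 : ¬ D N γ'.p z γ'.t₁ := hz
  by_cases e : γ.t₂ = γ'.t₁
  · rw [e] at h ⊢
    unfold D at *
    tauto
  have h1 := n1 c hx γ'.p γ'.t₁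
  have h2 := n1 c hx γ'.r γ'.t₁
  have h3 := n1 c hy z γ'.t₁
  have h4 := (f2 c γ' _).2 rfl
  have h5 := (f2 c γ' γ.t₂).not.2 e
  have h6 := (f1 c γ _).2 rfl
  have h7 := (f1 c γ γ'.t₁).not.2 (Ne.symm e)
  have h8 := sep1 c hx' hy'
  have h9 : D N γ'.p x γ'.t₁ := hx'
  rw [t₂_rev] at h3
  unfold D at *
  grind

theorem ord (c : Coc σ.adj N) {γ γ' γ'' : Gt σ} {x y z : W σ.adj} (hx : x ∈ γ.A N)
    (hy : y ∈ γ.rev.A N) (hx' : x ∈ γ'.A N) (hy' : y ∈ γ'.rev.A N) (hx'' : x ∈ γ''.A N)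
    (hy'' : y ∈ γ''.rev.A N) (h : {a | D N x γ.p a}.ncard < {a | D N x γ'.p a}.ncard)
    (h' : {a | D N x γ'.p a}.ncard < {a | D N x γ''.p a}.ncard) (hz : z ∉ γ''.A N) :
    z ∈ γ.rev.A N := by
  by_contra hn
  have h1 := step c hx' hy' hx'' hy'' (lt_d c hy' hx'' hy'' h') hz
  have h2 := lt_d c hy hx' hy' h
  have h3 : D N x γ.p γ'.t₂ → D N x γ'.p γ'.t₂ := fun e => sub_of c hx h2 e
  have h4 := a2 c hx'
  have h5 := (f1 c γ' _).2 rfl
  have h6 := f1 c γ γ'.t₂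
  have h7 := step (z := z) c hy' (γ'.rev_rev.symm ▸ hx') hy (γ.rev_rev.symm ▸ hx)
  rw [t₂_rev] at h7
  by_cases e : γ'.t₂ = γ.t₂
  · rw [← e] at h2
    clear h6 h7
    unfold D at *
    tauto
  · have h8 := h6.not.2 e
    have h9 := h7 (by clear h7 h6 h1 h2; unfold D at *; tauto) hn
    clear h6 h7 h2 h3 h4 h8
    unfold D at *
    tauto

end Gt

/-- The action on the Coxeter group. -/
@[reducible] def actW (σ : Sit H S) : MulAction σ.GG (W σ.adj) where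
  smul g x := g.left * σ.act g.right x
  one_smul x := by
    change (1 : σ.GG).left * σ.act (1 : σ.GG).right x = x
    simp
  mul_smul g g' x := by
    change (g * g').left * σ.act (g * g').right x =
      g.left * σ.act g.right (g'.left * σ.act g'.right x)
    simp [mul_assoc]

/-- The action on gates. -/
def sm (g : σ.GG) (γ : Gt σ) : Gt σ :=
  ⟨g.left * σ.act g.right γ.p, g.right • γ.s₁, g.right • γ.s₂, g.right • γ.s₃,
    σ.cov_smul _ _ _ γ.c₁, σ.cov_smul _ _ _ γ.c₂⟩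

/-- The action on gates. -/
@[reducible] def actG (σ : Sit H S) : MulAction σ.GG (Gt σ) where
  smul := sm
  one_smul γ := Gt.ext ((actW σ).one_smul γ.p) (one_smul H _) (one_smul H _) (one_smul H _)
  mul_smul g g' γ := Gt.ext ((actW σ).mul_smul g g' γ.p) (mul_smul g.right g'.right _)
    (mul_smul g.right g'.right _) (mul_smul g.right g'.right _)

theorem sm_rev (g : σ.GG) (γ : Gt σ) : (sm g γ).rev = sm g γ.rev :=
  Gt.ext (by simp only [sm, Gt.rev, map_mul, σ.act_gen, mul_assoc]) rfl rfl rfl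

theorem sm_A (c : Coc σ.adj N) (g : σ.GG) (γ : Gt σ) (x : W σ.adj) :
    g.left * σ.act g.right x ∈ (sm g γ).A N ↔ x ∈ γ.A N := by
  rw [Gt.mem_A c, Gt.mem_A c, ← n_act c g.right (γ.p⁻¹ * x), σ.act_gen, map_mul, map_inv]
  simp only [sm, mul_inv_rev, mul_assoc, inv_mul_cancel_left]

theorem chain (c : Coc σ.adj N) (n : ℕ) (f : ℕ → S) (P : ℕ → W σ.adj) (h0 : P 0 = 1)
    (hP : ∀ i, i < n → P (i + 1) = P i * gen σ.adj (f i))
    (hf : ∀ i, i + 1 < n → σ.cov (f i) (f (i + 1))) :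
    n ≤ {γ : Gt σ | 1 ∈ γ.A N ∧ P n ∈ γ.rev.A N}.ncard + 2 := by
  have up : ∀ k i, i + k < n → gen σ.adj (f i) ∈ N ((P i)⁻¹ * P (i + k + 1)) := by
    intro k
    induction k with
    | zero =>
      intro i hi
      rw [Nat.add_zero, hP i hi, inv_mul_cancel_left, c.one]
    | succ k ih =>
      intro i hi
      have h1 := ih (i + 1) (by omega)
      have h2 := hf i (by omega)
      have h3 := push c (σ.cov_ne _ _ h2) (σ.cov_nadj _ _ h2) h1
      rw [hP i (by omega), mul_inv_rev, mul_assoc, mul_inv_cancel_left] at h3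
      rwa [show i + (k + 1) + 1 = i + 1 + k + 1 by omega]
  have down : ∀ i, i < n → gen σ.adj (f i) ∈ N (P (i + 1))⁻¹ := by
    intro i
    induction i with
    | zero =>
      intro hi
      rw [hP 0 hi, h0, one_mul, gen_inv, c.one]
    | succ i ih =>
      intro hi
      have h2 := σ.cov_symm _ _ (hf i hi)
      rw [hP (i + 1) hi, mul_inv_rev, gen_inv]
      exact push c (σ.cov_ne _ _ h2) (σ.cov_nadj _ _ h2) (ih (by omega))
  have ne : ∀ i j, i < j → j ≤ n → P i ≠ P j := fun i j h1 h2 e => by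
    have h3 := up (j - i - 1) i (by omega)
    rw [show i + (j - i - 1) + 1 = j by omega, e, inv_mul_cancel] at h3
    exact n_one c _ h3
  let φ : Fin (n - 2) → Gt σ := fun i => ⟨P (i + 1), f i, f (i + 1), f (i + 1 + 1),
    hf i (by have := i.2; omega), hf (i + 1) (by have := i.2; omega)⟩
  have key := Set.ncard_le_ncard_of_injOn (s := Set.univ)
    (t := {γ : Gt σ | 1 ∈ γ.A N ∧ P n ∈ γ.rev.A N}) φ (fun i _ => ?_) (fun i _ j _ e => ?_)
    (Gt.fin c _ _)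
  · rw [Set.ncard_univ, Nat.card_eq_fintype_card, Fintype.card_fin] at key
    omega
  · have hi := i.2
    refine ⟨(Gt.mem_A c _ _).2 ?_, (Gt.mem_A c _ _).2 ?_⟩
    · rw [mul_one]
      exact down i (by omega)
    · have h3 := up (n - i - 3) (i + 1 + 1) (by omega)
      rw [show (i : ℕ) + 1 + 1 + (n - i - 3) + 1 = n by omega, hP (i + 1) (by omega)] at h3
      exact h3
  · have e' : P (i + 1) = P (j + 1) := congrArg Gt.p e
    have hi := i.2
    have hj := j.2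
    rcases lt_trichotomy (i : ℕ) j with h | h | h
    · exact absurd e' (ne _ _ (by omega) (by omega))
    · exact Fin.ext h
    · exact absurd e'.symm (ne _ _ (by omega) (by omega))

end Gatex

open Gatex Gatex.Gt in
theorem gate_main : SpGate := by
  intro H S _ _ σ N c
  refine ⟨Gt σ, actW σ, actG σ, @Gates.mk _ _ _ _ (actW σ) (actG σ) (A N) (fun γ => γ.rev.A N)
    Gt.p rev rev_rev (fun _ => rfl) (fun γ x h1 h2 => a2 c h1 (b2 c h2))
    (fun γ h => h Iff.rfl) (fun γ h => ?_) (fin c) (fun γ => ⟨γ.r, (f2 c γ _).2 rfl, ?_⟩)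
    (fun γ => empty c fun a => (f1 c γ a).1) ?_
    (fun x y => ⟨_, rk_inj c x y, fun _ _ _ h1 h2 h3 h4 h5 h6 h7 h8 _ hz =>
      ord c h1 h2 h3 h4 h5 h6 h7 h8 hz⟩) ?_ ?_ (sm_A c) (fun g γ x => ?_) (fun _ _ => rfl)
    (fun g γ e => ?_), fun w => ?_, fun l hl => ?_⟩
  · exact b2 c h Iff.rfl
  · exact empty c fun a ha => (f2 c γ a).1 fun e => ha e.symm
  · intro γ₀ γ x p z m h1 h2 h3 h4 h5 h6 h7 h8
    have e1 := n1 c h5 p γ₀.t₁
    have e2 := n1 c h5 m γ₀.t₁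
    have e3 := n1 c h7 p γ₀.t₁
    have e4 := n1 c h7 m γ₀.t₁
    have e5 := b2 c h6
    have e6 := b2 c h8
    have e7 := fun h => e1 h e5
    have e8 := fun h => e2 h e6
    have e9 := fun h => e3 h e5
    have e10 := fun h => e4 h e6
    simp only [A, Set.mem_ofPred_eq] at h1 h2 h3 h4
    clear e1 e2 e3 e4 e5 e6 h5 h6 h7 h8
    unfold D at *
    by_cases e : γ₀.t₁ ∈ N γ.p <;> grind
  · intro x y γ γ' h1 h2 h3 h4
    have e1 := sep3 c h3 h4
    have e2 := fun h => n1 c h1 y γ'.rev.t₁ h (b2 c h2)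
    simp only [A, Set.mem_ofPred_eq] at h4 ⊢
    unfold D at *
    tauto
  · intro x y γ γ' h1 h2 h3 h4
    have e1 := sep1 c h3 h4
    have e2 := fun h => n1 c h1 y γ'.t₁ h (b2 c h2)
    simp only [A, Set.mem_ofPred_eq] at h3 ⊢
    unfold D at *
    tauto
  · exact (congrArg (fun δ : Gt σ => g.left * σ.act g.right x ∈ δ.A N) (sm_rev g γ)).to_iff.trans
      (sm_A c g γ.rev x)
  · have h1 : g.right = 1 := σ.cov_free _ _ _ γ.c₁ (congrArg Gt.s₁ e) (congrArg Gt.s₂ e)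
    have h2 : g.left * σ.act g.right γ.p = γ.p := congrArg Gt.p e
    rw [h1, map_one, MulAut.one_apply, mul_eq_right] at h2
    exact SemidirectProduct.ext h2 h1
  · change (SemidirectProduct.inl w : σ.GG).left * σ.act (SemidirectProduct.inl w : σ.GG).right 1 = w
    simp
  · rcases l with _ | ⟨s, l⟩
    · exact Nat.zero_le _
    have key := chain c (s :: l).length (fun i => (s :: l).getD i s)
      (fun i => (((s :: l).map (gen σ.adj)).take i).prod) rfl (fun i hi => ?_) (fun i hi => ?_)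
    · rw [List.take_of_length_le (by simp)] at key
      exact key
    · rw [List.prod_take_succ _ i (by simpa using hi), List.getElem_map,
        List.getD_eq_getElem _ _ hi]
    · rw [List.getD_eq_getElem _ _ hi, List.getD_eq_getElem _ _ (Nat.lt_of_succ_lt hi)]
      exact List.isChain_iff_getElem.1 hl i hi

end Pool.Agent.MP_89edc2_al.H5
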