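import Pool.Agent.MP_89edc2_al.H5.Spec

/-!
# The small generating set generates
-/

namespace Pool.Agent.MP_89edc2_al.H5

namespace Genx

section

variable {I G : Type} [DecidableEq I] [Group G] {T : I → I → G} {C : Subgroup G}

theorem conj1 (hW : Sym T Set.univ) {a b c d : I} (h1 : T a b ∈ C)
    (h2 : T c d ∈ C) : T (Equiv.swap a b c) (Equiv.swap a b d) ∈ C := by
  rw [← hW.conj a trivial b trivial c trivial d trivial]
  exact mul_mem (mul_mem h1 h2) h1

theorem conj2 (hW : Sym T Set.univ) {a b a' b' c d : I}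
    (h1 : T a b * T a' b' ∈ C) (h2 : T c d ∈ C) :
    T (Equiv.swap a b (Equiv.swap a' b' c)) (Equiv.swap a b (Equiv.swap a' b' d)) ∈ C := by
  rw [← hW.conj a trivial b trivial _ trivial _ trivial,
    ← hW.conj a' trivial b' trivial c trivial d trivial]
  have h3 := mul_mem (mul_mem h1 h2) (inv_mem h1)
  rw [mul_inv_rev, inv_eq_of_mul_eq_one_right (hW.sq a trivial b trivial),
    inv_eq_of_mul_eq_one_right (hW.sq a' trivial b' trivial)] at h3
  simpa only [mul_assoc] using h3

theorem symm (hW : Sym T Set.univ) {c d : I} (h : T c d ∈ C) : T d c ∈ C := by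
  have := conj1 hW h h
  rwa [Equiv.swap_apply_left, Equiv.swap_apply_right] at this

theorem trans (hW : Sym T Set.univ) {c d e : I} (h : T c d ∈ C) (h' : T d e ∈ C) :
    T c e ∈ C := by
  by_cases hn : c = e
  · rw [hn, hW.diag e trivial]
    exact one_mem _
  by_cases h1 : c = d
  · rw [h1]
    exact h'
  have := conj1 hW h' h
  rwa [Equiv.swap_apply_of_ne_of_ne h1 hn, Equiv.swap_apply_left] at this

end

variable {N m : ℕ} {G : Type} [Group G] (μ : Mech N m G)

theorem fin : μ.gens.Finite := by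
  refine (((Set.finite_range fun x : Fin N × Fin N =>
    μ.T (x.1, false) (x.2, false) * μ.T (x.1, true) (x.2, true)).union
    (Set.finite_range fun x : (Fin N × Bool) × (Fin N × Bool) => μ.T x.1 x.2)).union
    (Set.finite_range fun x : Fin N × Fin 3 => μ.Y x.1 x.2)).subset ?_
  rintro g (⟨i, j, -, rfl⟩ | ⟨i, -, rfl⟩ | ⟨i, j, -, -, rfl⟩ | ⟨i, -, r, rfl⟩)
  · exact Or.inl (Or.inl ⟨(i, j), rfl⟩)
  · exact Or.inl (Or.inr ⟨(_, _), rfl⟩)
  · exact Or.inl (Or.inr ⟨(_, _), rfl⟩)
  · exact Or.inr ⟨(i, r), rfl⟩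

theorem blk {i j : Fin N} (h : j.val = i.val + 1) :
    μ.T (i, false) (j, false) * μ.T (i, true) (j, true) ∈ Subgroup.closure μ.gens :=
  Subgroup.subset_closure (Or.inl ⟨i, j, h, rfl⟩)

theorem vert (n : ℕ) : ∀ i : Fin N, i.val = n →
    μ.T (i, false) (i, true) ∈ Subgroup.closure μ.gens := by
  induction n with
  | zero => exact fun i hi => Subgroup.subset_closure (Or.inr (Or.inl ⟨i, hi, rfl⟩))
  | succ n ih =>
    intro j hj
    let i : Fin N := ⟨n, by omega⟩
    have := conj2 μ.sym (blk μ (i := i) hj) (ih i rfl)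
    rwa [Equiv.swap_apply_left, Equiv.swap_apply_of_ne_of_ne (x := (i, false)) (by simp) (by simp),
      Equiv.swap_apply_left,
      Equiv.swap_apply_of_ne_of_ne (x := (j, true)) (by simp) (by simp)] at this

theorem horiz (n : ℕ) : ∀ i j : Fin N, i.val = n → j.val = n + 1 →
    μ.T (i, false) (j, false) ∈ Subgroup.closure μ.gens := by
  induction n with
  | zero =>
    exact fun i j hi hj =>
      Subgroup.subset_closure (Or.inr (Or.inr (Or.inl ⟨i, j, hi, hj, rfl⟩)))
  | succ n ih =>
    intro j k hj hk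
    let i : Fin N := ⟨n, by omega⟩
    have hij : i ≠ j := fun h => by have : n = j.val := congrArg Fin.val h; omega
    have hik : i ≠ k := fun h => by have : n = k.val := congrArg Fin.val h; omega
    have h0 := ih i j rfl hj
    have := conj2 μ.sym (blk μ (i := j) (j := k) (by omega)) h0
    rw [Equiv.swap_apply_of_ne_of_ne (x := (i, false)) (by simp) (by simp),
      Equiv.swap_apply_of_ne_of_ne (x := (i, false)) (by simp [hij]) (by simp [hik]),
      Equiv.swap_apply_of_ne_of_ne (x := (j, false)) (a := (j, true)) (by simp) (by simp),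
      Equiv.swap_apply_left] at this
    exact trans μ.sym (symm μ.sym h0) this

theorem base (z : Fin N) (hz : z.val = 0) (n : ℕ) : ∀ i : Fin N, i.val = n →
    μ.T (z, false) (i, false) ∈ Subgroup.closure μ.gens := by
  induction n with
  | zero =>
    intro i hi
    rw [Fin.ext (hz.trans hi.symm), μ.sym.diag _ trivial]
    exact one_mem _
  | succ n ih =>
    intro j hj
    exact trans μ.sym (ih ⟨n, by omega⟩ rfl) (horiz μ n _ j rfl hj)

theorem allT (c d : Fin N × Bool) : μ.T c d ∈ Subgroup.closure μ.gens := by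
  let z : Fin N := ⟨0, c.1.pos⟩
  have k : ∀ c : Fin N × Bool, μ.T (z, false) c ∈ Subgroup.closure μ.gens := by
    rintro ⟨i, _ | _⟩
    · exact base μ z rfl _ i rfl
    · exact trans μ.sym (base μ z rfl _ i rfl) (vert μ _ i rfl)
  exact trans μ.sym (symm μ.sym (k c)) (k d)

theorem allY (x : Fin N) (r : Fin 3) : μ.Y x r ∈ Subgroup.closure μ.gens := by
  let l : Fin N := ⟨N - 1, by have := x.pos; omega⟩
  have hl : μ.Y l r ∈ Subgroup.closure μ.gens :=
    Subgroup.subset_closure (Or.inr (Or.inr (Or.inr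
      ⟨l, by have := x.pos; simp only [l]; omega, r, rfl⟩)))
  have hP := mul_mem (allT μ (x, false) (l, false)) (allT μ (x, true) (l, true))
  have e := μ.conv x l l r
  rw [Equiv.swap_apply_right] at e
  rw [← mul_inv_eq_iff_eq_mul.2 e]
  exact mul_mem (mul_mem hP hl) (inv_mem hP)

end Genx

theorem gen_main (_h : SpSym) : SpGen :=
  fun _ _ _ _ μ _ => ⟨Genx.fin μ, Genx.allT μ, Genx.allY μ⟩

end Pool.Agent.MP_89edc2_al.H5
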