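import Pool.Agent.MP_89edc2_al.H5.Spec

/-! Row GFP: the semidirect product is finitely presented. -/

namespace Pool.Agent.MP_89edc2_al.H5

namespace Gfpx

variable {H S : Type} [Group H] [MulAction H S] (σ : Sit H S)

theorem conj_a (h : H) (s : S) :
    (SemidirectProduct.inr h : σ.GG) * σ.a s * (SemidirectProduct.inr h)⁻¹ = σ.a (h • s) := by
  rw [Sit.a, Sit.a, ← σ.act_gen, SemidirectProduct.inl_aut, map_inv]

theorem a_sq (s : S) : σ.a s * σ.a s = 1 := by
  rw [Sit.a, ← map_mul, gen_sq, map_one]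

theorem a_comm {s s' : S} (h : σ.adj s s') : Commute (σ.a s) (σ.a s') :=
  (gen_comm h).map _

/-- The universal property of the semidirect product. -/
theorem univ {Q : Type} [Group Q] (s₀ : S) (h₀ : H) (j : H →* Q) (b : Q)
    (htr : ∀ s, ∃ h : H, s = h • s₀)
    (hadj : ∀ s s', σ.adj s s' → ∃ h : H, s = h • s₀ ∧ s' = h • h₀ • s₀) (hb : b * b = 1)
    (hst : ∀ p : H, p • s₀ = s₀ → Commute (j p) b) (hc : Commute b (j h₀ * b * (j h₀)⁻¹)) :
    ∃ θ : σ.GG →* Q, (∀ h, θ (SemidirectProduct.inr h) = j h) ∧ θ (σ.a s₀) = b := by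
  choose c hcs using htr
  let f : S → Q := fun s => j (c s) * b * (j (c s))⁻¹
  have key : ∀ h : H, f (h • s₀) = j h * b * (j h)⁻¹ := by
    intro h
    have e : (h⁻¹ * c (h • s₀)) • s₀ = s₀ := by
      rw [mul_smul, ← hcs (h • s₀), inv_smul_smul]
    have e2 := (hst _ e).eq
    rw [map_mul, map_inv] at e2
    have e3 : j (c (h • s₀)) = j h * ((j h)⁻¹ * j (c (h • s₀))) := by group
    change j (c (h • s₀)) * b * (j (c (h • s₀)))⁻¹ = _
    rw [e3, mul_assoc (j h), e2]
    group
  have h1 : ∀ s, f s * f s = 1 := by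
    intro s
    change j (c s) * b * (j (c s))⁻¹ * (j (c s) * b * (j (c s))⁻¹) = 1
    calc _ = j (c s) * (b * b) * (j (c s))⁻¹ := by group
      _ = 1 := by rw [hb]; group
  have h2 : ∀ s s', σ.adj s s' → Commute (f s) (f s') := by
    intro s s' e
    obtain ⟨h, rfl, rfl⟩ := hadj s s' e
    rw [← mul_smul, key, key, map_mul]
    have := hc.map (MulAut.conj (j h))
    simp only [MulAut.conj_apply] at this
    convert this using 1
    group
  have h3 : ∀ g : H, (lift σ.adj f h1 h2).comp (σ.act g).toMonoidHom =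
      (MulAut.conj (j g)).toMonoidHom.comp (lift σ.adj f h1 h2) := by
    intro g
    refine hom_ext fun s => ?_
    change lift σ.adj f h1 h2 (σ.act g (gen σ.adj s)) =
      j g * lift σ.adj f h1 h2 (gen σ.adj s) * (j g)⁻¹
    rw [σ.act_gen, lift_gen, lift_gen, hcs s, ← mul_smul, key, key, map_mul]
    group
  refine ⟨SemidirectProduct.lift (lift σ.adj f h1 h2) j h3, fun h => ?_, ?_⟩
  · exact SemidirectProduct.lift_inr _ _ _ h
  · rw [Sit.a, SemidirectProduct.lift_inl, lift_gen]
    simpa using key 1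

end Gfpx

open scoped commutatorElement in
open Gfpx in
theorem gfp_main : SpGfp := by
  intro H S _ _ σ s₀ h₀ hH htr hfg hadj h0
  obtain ⟨P, hP, hPf⟩ := (Subgroup.fg_iff _).mp hfg
  let i : H →* Monoid.Coprod H (Multiplicative ℤ) := Monoid.Coprod.inl
  let a : Monoid.Coprod H (Multiplicative ℤ) := Monoid.Coprod.inr (Multiplicative.ofAdd 1)
  let ψ : Monoid.Coprod H (Multiplicative ℤ) →* σ.GG :=
    Monoid.Coprod.lift SemidirectProduct.inr (zpowersHom σ.GG (σ.a s₀))
  have ψi : ∀ h, ψ (i h) = SemidirectProduct.inr h := fun h => Monoid.Coprod.lift_apply_inl _ _ h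
  have ψa : ψ a = σ.a s₀ := by
    change Monoid.Coprod.lift _ _ (Monoid.Coprod.inr _) = _
    rw [Monoid.Coprod.lift_apply_inr]
    simp
  let R : Set (Monoid.Coprod H (Multiplicative ℤ)) :=
    insert (a * a) (insert ⁅a, i h₀ * a * (i h₀)⁻¹⁆ ((fun p => ⁅i p, a⁆) '' P))
  have hR : R.Finite := ((hPf.image _).insert _).insert _
  let M := Subgroup.normalClosure R
  let π := QuotientGroup.mk' M
  have hπ : ∀ r ∈ R, π r = 1 := fun r hr =>
    (QuotientGroup.eq_one_iff r).mpr (Subgroup.subset_normalClosure hr)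
  obtain ⟨θ, θi, θa⟩ := univ σ s₀ h₀ (π.comp i) (π a) htr hadj
    (by rw [← map_mul]; exact hπ _ (Set.mem_insert _ _))
    (by
      intro p hp
      have hp' : p ∈ Subgroup.closure P := by rw [hP]; exact hp
      clear hp
      induction hp' using Subgroup.closure_induction with
      | mem x hx =>
        rw [← commutatorElement_eq_one_iff_commute, MonoidHom.comp_apply,
          ← map_commutatorElement]
        exact hπ _ (Set.mem_insert_of_mem _ (Set.mem_insert_of_mem _ ⟨x, hx, rfl⟩))
      | one => rw [map_one]; exact Commute.one_left _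
      | mul x y _ _ hx hy => rw [map_mul]; exact hx.mul_left hy
      | inv x _ hx => rw [map_inv]; exact hx.inv_left)
    (by
      rw [← commutatorElement_eq_one_iff_commute, MonoidHom.comp_apply, ← map_inv, ← map_mul,
        ← map_mul, ← map_commutatorElement]
      exact hπ _ (Set.mem_insert_of_mem _ (Set.mem_insert _ _)))
  have hθ : θ.comp ψ = π := by
    refine Monoid.Coprod.hom_ext (MonoidHom.ext fun h => ?_) (MonoidHom.ext_mint ?_)
    · change θ (ψ (i h)) = π (i h)
      rw [ψi, θi]
      rfl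
    · change θ (ψ a) = π a
      rw [ψa, θa]
  refine Group.IsFinitelyPresented.of_surjective ψ ?_ ⟨R, hR, le_antisymm ?_ ?_⟩
  · intro g
    have hl : ∀ w : W σ.adj, (SemidirectProduct.inl w : σ.GG) ∈ ψ.range := by
      intro w
      refine PresentedGroup.generated_by _ (ψ.range.comap SemidirectProduct.inl) (fun s => ?_) w
      obtain ⟨h, rfl⟩ := htr s
      refine ⟨i h * a * (i h)⁻¹, ?_⟩
      rw [map_mul, map_mul, map_inv, ψi, ψa, conj_a]
      rfl
    rw [← SemidirectProduct.inl_left_mul_inr_right g]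
    exact ψ.range.mul_mem (hl _) ⟨i g.right, ψi _⟩
  · refine Subgroup.normalClosure_le_normal ?_
    rintro r (rfl | rfl | ⟨p, hp, rfl⟩)
    · change ψ _ = 1
      rw [map_mul, ψa, a_sq]
    · change ψ _ = 1
      rw [map_commutatorElement, map_mul, map_mul, map_inv, ψi, ψa, conj_a,
        commutatorElement_eq_one_iff_commute]
      exact a_comm σ h0
    · change ψ _ = 1
      have hp' : p • s₀ = s₀ := by
        have : p ∈ MulAction.stabilizer H s₀ := hP ▸ Subgroup.subset_closure hp
        exact this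
      have e := conj_a σ p s₀
      rw [hp'] at e
      rw [map_commutatorElement, ψi, ψa, commutatorElement_def, e, mul_inv_cancel]
  · intro x hx
    have e : π x = 1 := by
      rw [← hθ, MonoidHom.comp_apply, (MonoidHom.mem_ker).mp hx, map_one]
    exact (QuotientGroup.eq_one_iff x).mp e

end Pool.Agent.MP_89edc2_al.H5
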