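import Pool.Agent.MP_89edc2_al.H5.Spec

namespace Pool.Agent.MP_89edc2_al.H5

open scoped Pointwise

namespace Invx

variable {N m : ℕ} {G : Type} [Group G] (S : Mech N m G)

/-- The group generated by the local involutions at the labels of `J`. -/
def A (J : Set (Fin N)) : Subgroup G :=
  Subgroup.closure {g | ∃ x ∈ J, ∃ r, g = S.Y x r}

/-- The local group at one label. -/
noncomputable def Ex (x : Fin N) : Finset G := (S.fin x).toFinset

open Classical in
/-- Transpositions and the identity. -/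
noncomputable def TT : Finset G :=
  insert 1 (Finset.univ.image fun p : (Fin N × Bool) × (Fin N × Bool) => S.T p.1 p.2)

open Classical in
/-- The set of committed letters. -/
noncomputable def EE : Finset G := TT S * TT S * Finset.univ.biUnion (Ex S)

/-- The two facts on transpositions that are used. -/
structure Wf : Prop where
  remove : ∀ (J : Set (Fin N × Bool)) (y : Fin N × Bool), ∀ g ∈ K S.T J, ∃ g' ∈ K S.T (J \ {y}),
    g = g' ∨ ∃ d, g = g' * S.T y d
  fin : (K S.T Set.univ : Set G).Finite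

variable {S}

theorem ne01 (x y : Fin N) : ((x, false) : Fin N × Bool) ≠ (y, true) := by simp

theorem mem_Ex {x : Fin N} {e : G} : e ∈ Ex S x ↔ e ∈ Subgroup.closure (Set.range (S.Y x)) :=
  (S.fin x).mem_toFinset

theorem one_Ex (x : Fin N) : (1 : G) ∈ Ex S x := mem_Ex.2 (one_mem _)

theorem mul_Ex {x : Fin N} {e : G} (he : e ∈ Ex S x) (r : Fin 3) : e * S.Y x r ∈ Ex S x :=
  mem_Ex.2 (mul_mem (mem_Ex.1 he) (Subgroup.subset_closure ⟨r, rfl⟩))

theorem Ex_comm {x y : Fin N} (h : y ≠ x) {e : G} (he : e ∈ Ex S x) (r : Fin 3) :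
    Commute e (S.Y y r) := by
  have he' := mem_Ex.1 he
  clear he
  induction he' using Subgroup.closure_induction with
  | mem g hg =>
    obtain ⟨r', rfl⟩ := hg
    exact S.commY x y r' r h.symm
  | one => exact Commute.one_left _
  | mul _ _ _ _ h1 h2 => exact h1.mul_left h2
  | inv _ _ h => exact h.inv_left

theorem A_mono {J J' : Set (Fin N)} (h : J ⊆ J') : A S J ≤ A S J' :=
  Subgroup.closure_mono fun _ ⟨x, hx, r⟩ => ⟨x, h hx, r⟩

theorem K_mono {J J' : Set (Fin N × Bool)} (h : J ⊆ J') : K S.T J ≤ K S.T J' :=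
  Subgroup.closure_mono fun _ ⟨c, hc, d, hd, r⟩ => ⟨c, h hc, d, h hd, r⟩

theorem A_remove (J : Set (Fin N)) (x : Fin N) {a : G} (ha : a ∈ A S J) :
    ∃ a' ∈ A S (J \ {x}), ∃ e ∈ Ex S x, a = a' * e := by
  classical
  have step : ∀ g y, y ∈ {g | ∃ x ∈ J, ∃ r, g = S.Y x r} →
      (∃ a' ∈ A S (J \ {x}), ∃ e ∈ Ex S x, g = a' * e) →
      ∃ a' ∈ A S (J \ {x}), ∃ e ∈ Ex S x, g * y = a' * e := by
    rintro _ _ ⟨y, hy, r, rfl⟩ ⟨a', ha', e, he, rfl⟩
    by_cases h : y = x
    · subst h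
      exact ⟨a', ha', _, mul_Ex he r, mul_assoc _ _ _⟩
    · refine ⟨a' * S.Y y r, mul_mem ha' (Subgroup.subset_closure ⟨y, ⟨hy, h⟩, r, rfl⟩), e, he, ?_⟩
      rw [mul_assoc, (Ex_comm h he r).eq, mul_assoc]
  induction ha using Subgroup.closure_induction_right with
  | one => exact ⟨1, one_mem _, 1, one_Ex x, (one_mul _).symm⟩
  | mul_right g _ y hy ih => exact step g y hy ih
  | mul_inv_cancel g _ y hy ih =>
    have : y⁻¹ = y := by
      obtain ⟨z, -, r, rfl⟩ := hy
      exact inv_eq_of_mul_eq_one_right (S.sq _ r)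
    rw [this]
    exact step g y hy ih

theorem A_fin (J : Finset (Fin N)) : (A S (J : Set (Fin N)) : Set G).Finite := by
  classical
  induction J using Finset.induction_on with
  | empty =>
    refine (Set.finite_singleton (1 : G)).subset fun g hg => ?_
    simpa [A] using hg
  | insert x J _ ih =>
    refine (ih.mul (Ex S x).finite_toSet).subset fun g hg => ?_
    obtain ⟨a', ha', e, he, rfl⟩ := A_remove _ x hg
    refine Set.mul_mem_mul (A_mono ?_ ha') he
    rintro y ⟨h1, h2⟩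
    simp only [Finset.coe_insert, Set.mem_insert_iff, Set.mem_singleton_iff] at h1 h2
    exact h1.resolve_left h2

theorem K_comm_Y {J : Set (Fin N × Bool)} {κ : G} (hκ : κ ∈ K S.T J) {x : Fin N}
    (hx : ∀ c ∈ J, c.1 ≠ x) (r : Fin 3) : Commute κ (S.Y x r) := by
  induction hκ using Subgroup.closure_induction with
  | mem g hg =>
    obtain ⟨c, hc, d, hd, rfl⟩ := hg
    exact S.commT c d x r (hx c hc) (hx d hd)
  | one => exact Commute.one_left _
  | mul _ _ _ _ h1 h2 => exact h1.mul_left h2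
  | inv _ _ h => exact h.inv_left

theorem K_comm_A {J : Finset (Fin N)} {κ a : G} (hκ : κ ∈ K S.T {c | c.1 ∈ J})
    (ha : a ∈ A S {x | x ∉ J}) : Commute κ a := by
  induction ha using Subgroup.closure_induction with
  | mem g hg =>
    obtain ⟨x, hx, r, rfl⟩ := hg
    exact K_comm_Y hκ (fun c (hc : c.1 ∈ J) e => hx (by rw [← e]; exact hc)) r
  | one => exact Commute.one_right _
  | mul _ _ _ _ h1 h2 => exact h1.mul_right h2
  | inv _ _ h => exact h.inv_right

theorem K_remove (w : Wf S) (J : Set (Fin N × Bool)) (y : Fin N × Bool) {g : G} (hg : g ∈ K S.T J) :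
    ∃ g' ∈ K S.T (J \ {y}), ∃ e ∈ TT S, g = g' * e := by
  classical
  obtain ⟨g', h1, h2 | ⟨d, h2⟩⟩ := w.remove J y g hg
  · exact ⟨g', h1, 1, Finset.mem_insert_self _ _, by rw [h2, mul_one]⟩
  · exact ⟨g', h1, _, Finset.mem_insert_of_mem
      (Finset.mem_image.2 ⟨(y, d), Finset.mem_univ _, rfl⟩), h2⟩

theorem mem_EE {e1 e2 e3 : G} (h1 : e1 ∈ TT S) (h2 : e2 ∈ TT S) {x : Fin N}
    (h3 : e3 ∈ Ex S x) : e1 * e2 * e3 ∈ EE S := by
  classical
  exact Finset.mul_mem_mul (Finset.mul_mem_mul h1 h2)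
    (Finset.mem_biUnion.2 ⟨x, Finset.mem_univ _, h3⟩)

theorem one_TT : (1 : G) ∈ TT S := by
  classical
  exact Finset.mem_insert_self _ _

theorem card_EE : (EE S).card ≤ (4 * N ^ 2 + 1) ^ 2 * (N * 2 ^ m) := by
  classical
  have h1 : (TT S).card ≤ 4 * N ^ 2 + 1 := by
    refine (Finset.card_insert_le _ _).trans (Nat.add_le_add_right ?_ 1)
    refine Finset.card_image_le.trans (le_of_eq ?_)
    simp only [Finset.card_univ, Fintype.card_prod, Fintype.card_fin, Fintype.card_bool]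
    ring
  have h2 : (Finset.univ.biUnion (Ex S)).card ≤ N * 2 ^ m := by
    refine Finset.card_biUnion_le.trans ?_
    refine (Finset.sum_le_card_nsmul _ _ (2 ^ m) fun x _ => ?_).trans (by simp)
    exact (Set.ncard_eq_toFinset_card _ (S.fin x)).symm.le.trans (S.card x)
  refine Finset.card_mul_le.trans (Nat.mul_le_mul (Finset.card_mul_le.trans ?_) h2)
  rw [sq]
  exact Nat.mul_le_mul h1 h1

/-- The potential. -/
def pot (π : Equiv.Perm (Fin N)) (J : Finset (Fin N)) : ℕ :=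
  ∑ x, if x ∈ J then (π x).val else N - 1 - (π x).val

theorem pot_le (π : Equiv.Perm (Fin N)) (J : Finset (Fin N)) : pot π J ≤ N ^ 2 := by
  refine (Finset.sum_le_card_nsmul _ _ N fun x _ => ?_).trans (by simp [sq])
  have := (π x).isLt
  split_ifs <;> omega

theorem pot_insert (π : Equiv.Perm (Fin N)) {J : Finset (Fin N)} {x : Fin N} (hx : x ∉ J) :
    pot π (insert x J) + (N - 1 - (π x).val) = pot π J + (π x).val := by
  unfold pot
  rw [← Finset.add_sum_erase _ _ (Finset.mem_univ x), ← Finset.add_sum_erase _ _ (Finset.mem_univ x),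
    if_pos (Finset.mem_insert_self _ _), if_neg hx]
  have : ∑ y ∈ Finset.univ.erase x, (if y ∈ insert x J then (π y).val else N - 1 - (π y).val) =
      ∑ y ∈ Finset.univ.erase x, (if y ∈ J then (π y).val else N - 1 - (π y).val) :=
    Finset.sum_congr rfl fun y hy => by
      simp only [Finset.mem_insert, Finset.ne_of_mem_erase hy, false_or]
  rw [this]
  omega

theorem pot_swap (π : Equiv.Perm (Fin N)) (J : Finset (Fin N)) {i j : Fin N}
    (h : j.val = i.val + 1) : pot (Equiv.swap i j * π) J ≤ pot π J + 2 := by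
  have e : ∀ i : Fin N, ∑ x, (if π x = i then 1 else 0) = 1 := fun i => by
    rw [Equiv.sum_comp π fun y => if y = i then 1 else 0]
    simp
  have : pot π J + 2 = ∑ x, ((if x ∈ J then (π x).val else N - 1 - (π x).val) +
      ((if π x = i then 1 else 0) + if π x = j then 1 else 0)) := by
    rw [Finset.sum_add_distrib, Finset.sum_add_distrib, e, e, pot]
  rw [this]
  refine Finset.sum_le_sum fun x _ => ?_
  rw [Equiv.Perm.mul_apply]
  have := j.isLt
  by_cases h1 : π x = i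
  · rw [h1, Equiv.swap_apply_left]
    split_ifs <;> omega
  by_cases h2 : π x = j
  · rw [h2, Equiv.swap_apply_right]
    split_ifs <;> omega
  · rw [Equiv.swap_apply_of_ne_of_ne h1 h2]
    omega

variable (S) in
/-- `β` acts on the system through the permutation `π` of the labels. -/
def Tr (β : G) (π : Equiv.Perm (Fin N)) : Prop :=
  β ∈ K S.T Set.univ ∧ (∀ c d, β * S.T c d = S.T (π c.1, c.2) (π d.1, d.2) * β) ∧
    ∀ x r, β * S.Y x r = S.Y (π x) r * β

variable (S) in
/-- The state of the reading of a word. -/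
def Sta (β : G) (π : Equiv.Perm (Fin N)) (J : Finset (Fin N)) (B : ℕ) (g : G) : Prop :=
  ∃ κ ∈ K S.T {c | c.1 ∈ J}, ∃ a ∈ A S {x | x ∉ J}, ∃ l : List G, (∀ x ∈ l, x ∈ EE S) ∧
    g = β * κ * a * l.prod ∧ pot π J + (N - 3) * l.length ≤ B

variable {β g : G} {π : Equiv.Perm (Fin N)} {J : Finset (Fin N)} {B : ℕ}

theorem Sta.mono (h : Sta S β π J B g) {B' : ℕ} (hB : B ≤ B') : Sta S β π J B' g := by
  obtain ⟨κ, h1, a, h2, l, h3, h4, h5⟩ := h
  exact ⟨κ, h1, a, h2, l, h3, h4, h5.trans hB⟩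

theorem Sta.moveIn (hN : 4 ≤ N) (h : Sta S β π J B g) {x : Fin N} (hx : (π x).val ≤ 1) :
    Sta S β π (insert x J) B g := by
  by_cases hJ : x ∈ J
  · rwa [Finset.insert_eq_of_mem hJ]
  obtain ⟨κ, h1, a, h2, l, h3, h4, h5⟩ := h
  obtain ⟨a', ha', e, he, rfl⟩ := A_remove _ x h2
  have s1 : {c : Fin N × Bool | c.1 ∈ J} ⊆ {c | c.1 ∈ insert x J} := fun c hc =>
    Finset.mem_insert_of_mem (s := J) hc
  have s2 : {y | y ∉ J} \ {x} ⊆ {y | y ∉ insert x J} := by
    rintro y ⟨y1, y2⟩ y3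
    exact (Finset.mem_insert.1 y3).elim y2 y1
  have s3 : ∀ z ∈ e :: l, z ∈ EE S := by
    intro z hz
    rcases List.mem_cons.1 hz with rfl | hz
    · have := mem_EE (S := S) one_TT one_TT he
      rwa [one_mul, one_mul] at this
    · exact h3 z hz
  have s4 : g = β * κ * a' * (e :: l).prod := by
    rw [h4, List.prod_cons]
    simp only [mul_assoc]
  have s5 : pot π (insert x J) + (N - 3) * (e :: l).length ≤ B := by
    have := pot_insert π hJ
    rw [List.length_cons, mul_add]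
    generalize (N - 3) * l.length = M at *
    generalize pot π (insert x J) = P at *
    generalize pot π J = P' at *
    omega
  exact ⟨κ, K_mono s1 h1, a', A_mono s2 ha', e :: l, s3, s4, s5⟩

theorem Sta.moveOut (w : Wf S) (h : Sta S β π J B g) {x : Fin N} (hx : (π x).val + 1 = N) :
    Sta S β π (J.erase x) B g := by
  by_cases hJ : x ∈ J
  swap
  · rwa [Finset.erase_eq_of_notMem hJ]
  obtain ⟨κ, h1, a, h2, l, h3, h4, h5⟩ := h
  obtain ⟨κ1, k1, e1, he1, rfl⟩ := K_remove w _ (x, false) h1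
  obtain ⟨κ2, k2, e2, he2, rfl⟩ := K_remove w _ (x, true) k1
  have s0 : ({c : Fin N × Bool | c.1 ∈ J} \ {(x, false)}) \ {(x, true)} ⊆
      {c | c.1 ∈ J.erase x} := by
    rintro ⟨y, b⟩ ⟨⟨y1, y2⟩, y3⟩
    refine Finset.mem_erase.2 ⟨?_, y1⟩
    rintro rfl
    cases b
    · exact y2 rfl
    · exact y3 rfl
  have s1 : {c : Fin N × Bool | c.1 ∈ J.erase x} ⊆ {c | c.1 ∈ J} := fun c hc =>
    Finset.mem_of_mem_erase (s := J) hc
  have s2 : {y | y ∉ J} ⊆ {y | y ∉ J.erase x} := fun y hy hy' => hy (Finset.mem_of_mem_erase hy')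
  have k3 : κ2 ∈ K S.T {c | c.1 ∈ J.erase x} := K_mono s0 k2
  have k4 : e2 * e1 ∈ K S.T {c | c.1 ∈ J} := by
    have := mul_mem (inv_mem (K_mono s1 k3)) h1
    rwa [mul_assoc, inv_mul_cancel_left] at this
  have s3 : ∀ z ∈ (e2 * e1) :: l, z ∈ EE S := by
    intro z hz
    rcases List.mem_cons.1 hz with rfl | hz
    · have := mem_EE (S := S) he2 he1 (one_Ex x)
      rwa [mul_one] at this
    · exact h3 z hz
  have s4 : g = β * κ2 * a * ((e2 * e1) :: l).prod := by
    rw [h4, List.prod_cons, ← mul_assoc _ (e2 * e1), mul_assoc (β * κ2) a,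
      ← (K_comm_A k4 h2).eq]
    simp only [mul_assoc]
  have s5 : pot π (J.erase x) + (N - 3) * ((e2 * e1) :: l).length ≤ B := by
    have := pot_insert π (Finset.notMem_erase x J)
    rw [Finset.insert_erase hJ] at this
    rw [List.length_cons, mul_add]
    generalize (N - 3) * l.length = M at *
    generalize pot π (J.erase x) = P at *
    generalize pot π J = P' at *
    omega
  exact ⟨κ2, k3, a, A_mono s2 h2, (e2 * e1) :: l, s3, s4, s5⟩

theorem Sta.mulT (t : Tr S β π) (h : Sta S β π J B g) {c d : Fin N × Bool}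
    (hc : c.1 ∈ J) (hd : d.1 ∈ J) :
    Sta S β π J B (S.T (π c.1, c.2) (π d.1, d.2) * g) := by
  obtain ⟨κ, h1, a, h2, l, h3, h4, h5⟩ := h
  refine ⟨S.T c d * κ, mul_mem (Subgroup.subset_closure ⟨c, hc, d, hd, rfl⟩) h1, a, h2, l, h3,
    ?_, h5⟩
  rw [h4, ← mul_assoc β, t.2.1 c d]
  simp only [mul_assoc]

theorem Sta.mulY (t : Tr S β π) (h : Sta S β π J B g) {x : Fin N} (hx : x ∉ J)
    (r : Fin 3) : Sta S β π J B (S.Y (π x) r * g) := by
  obtain ⟨κ, h1, a, h2, l, h3, h4, h5⟩ := h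
  refine ⟨κ, h1, S.Y x r * a, mul_mem (Subgroup.subset_closure ⟨x, hx, r, rfl⟩) h2, l, h3,
    ?_, h5⟩
  have e1 : β * S.Y x r = S.Y (π x) r * β := t.2.2 x r
  have e2 := (K_comm_Y h1 (x := x) (fun c (hc : c.1 ∈ J) e => hx (by rw [← e]; exact hc)) r).eq
  rw [h4, ← mul_assoc _ (S.Y x r), mul_assoc β κ (S.Y x r), e2, ← mul_assoc β, e1]
  simp only [mul_assoc]

theorem swap2 {i j : Fin N} (c : Fin N × Bool) :
    Equiv.swap (i, false) (j, false) (Equiv.swap (i, true) (j, true) c) =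
      (Equiv.swap i j c.1, c.2) := by
  obtain ⟨x, b⟩ := c
  cases b <;> simp only [Equiv.swap_apply_def, Prod.mk.injEq] <;> split_ifs <;> simp_all

theorem T_sq (c d : Fin N × Bool) : S.T c d * S.T c d = 1 := S.sym.sq c trivial d trivial

theorem T_conj (c d e f : Fin N × Bool) :
    S.T c d * S.T e f * S.T c d = S.T (Equiv.swap c d e) (Equiv.swap c d f) :=
  S.sym.conj c trivial d trivial e trivial f trivial

theorem T_T (c d e f : Fin N × Bool) :
    S.T c d * S.T e f = S.T (Equiv.swap c d e) (Equiv.swap c d f) * S.T c d := by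
  rw [← T_conj c d e f, mul_assoc, T_sq, mul_one]

theorem Tr.mulB (t : Tr S β π) (i j : Fin N) :
    Tr S (S.T (i, false) (j, false) * S.T (i, true) (j, true) * β) (Equiv.swap i j * π) := by
  refine ⟨mul_mem (mul_mem (Subgroup.subset_closure ⟨_, trivial, _, trivial, rfl⟩)
    (Subgroup.subset_closure ⟨_, trivial, _, trivial, rfl⟩)) t.1, fun c d => ?_, fun x r => ?_⟩
  · rw [mul_assoc, t.2.1 c d, ← mul_assoc, mul_assoc (S.T _ _), T_T (i, true) (j, true),
      ← mul_assoc, T_T (i, false) (j, false), swap2, swap2]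
    simp only [mul_assoc, Equiv.Perm.mul_apply]
  · rw [mul_assoc, t.2.2 x r, ← mul_assoc, S.conv]
    simp only [mul_assoc, Equiv.Perm.mul_apply]

theorem Sta.mulB (h : Sta S β π J B g) {i j : Fin N} (hij : j.val = i.val + 1) (b : G) :
    Sta S (b * β) (Equiv.swap i j * π) J (B + 2) (b * g) := by
  obtain ⟨κ, h1, a, h2, l, h3, h4, h5⟩ := h
  refine ⟨κ, h1, a, h2, l, h3, by rw [h4]; simp only [mul_assoc], ?_⟩
  have := pot_swap π J hij
  omega

theorem step (hN : 4 ≤ N) (w : Wf S) (t : Tr S β π) (h : Sta S β π J B g) {s : G} (hs : s ∈ S.gens) :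
    ∃ β' π' J', Tr S β' π' ∧ Sta S β' π' J' (B + 2) (s * g) := by
  rcases hs with ⟨i, j, hij, rfl⟩ | ⟨i, hi, rfl⟩ | ⟨i, j, hi, hj, rfl⟩ | ⟨i, hi, r, rfl⟩
  · exact ⟨_, _, J, t.mulB i j, h.mulB hij _⟩
  · obtain ⟨x, rfl⟩ := π.surjective i
    exact ⟨β, π, _, t, ((h.moveIn hN (x := x) (by omega)).mulT t (c := (x, false)) (d := (x, true))
      (Finset.mem_insert_self _ _) (Finset.mem_insert_self _ _)).mono (by omega)⟩
  · obtain ⟨x, rfl⟩ := π.surjective i
    obtain ⟨y, rfl⟩ := π.surjective j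
    exact ⟨β, π, _, t, (((h.moveIn hN (x := x) (by omega)).moveIn hN (x := y) (by omega)).mulT t
      (c := (x, false)) (d := (y, false))
      (Finset.mem_insert_of_mem (Finset.mem_insert_self _ _))
      (Finset.mem_insert_self _ _)).mono (by omega)⟩
  · obtain ⟨x, rfl⟩ := π.surjective i
    exact ⟨β, π, _, t, ((h.moveOut w hi).mulY t (Finset.notMem_erase x J) r).mono (by omega)⟩

theorem gens_inv {s : G} (hs : s ∈ S.gens) : s⁻¹ = s := by
  refine inv_eq_of_mul_eq_one_right ?_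
  rcases hs with ⟨i, j, -, rfl⟩ | ⟨i, -, rfl⟩ | ⟨i, j, -, -, rfl⟩ | ⟨i, -, r, rfl⟩
  · have e := T_conj (S := S) (i, false) (j, false) (i, true) (j, true)
    rw [Equiv.swap_apply_of_ne_of_ne (ne01 _ _).symm (ne01 _ _).symm,
      Equiv.swap_apply_of_ne_of_ne (ne01 _ _).symm (ne01 _ _).symm] at e
    rw [← mul_assoc, e, T_sq]
  · exact T_sq _ _
  · exact T_sq _ _
  · exact S.sq _ r

theorem word (hN : 4 ≤ N) (w : Wf S) (l : List G) (hl : ∀ x ∈ l, x ∈ S.gens) :
    ∃ β π J, Tr S β π ∧ Sta S β π J (2 * l.length + N ^ 2) l.prod := by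
  induction l with
  | nil =>
    refine ⟨1, 1, ∅, ⟨one_mem _, fun c d => by simp, fun x r => by simp⟩, 1, one_mem _, 1, one_mem _, [],
      by simp, by simp, ?_⟩
    simpa using pot_le 1 ∅
  | cons s l ih =>
    obtain ⟨β, π, J, t, h⟩ := ih fun x hx => hl x (List.mem_cons_of_mem _ hx)
    obtain ⟨β', π', J', t', h'⟩ := step hN w t h (hl s List.mem_cons_self)
    exact ⟨β', π', J', t', by
      rw [List.prod_cons]
      exact h'.mono (by rw [List.length_cons]; omega)⟩

end Invx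

open Invx in
theorem inv_main (h : SpSym) : SpInv := by
  intro N m G _ S Q hN hQ
  obtain ⟨-, hr, hf, -⟩ := h _ G S.T Set.univ S.sym
  have w : Wf S := ⟨fun J y g hg => by
    obtain ⟨g', h1, h2 | ⟨d, -, -, -, h2⟩⟩ := hr J (Set.subset_univ _) y g hg
    · exact ⟨g', h1, Or.inl h2⟩
    · exact ⟨g', h1, Or.inr ⟨d, h2⟩⟩, hf _ subset_rfl Set.finite_univ⟩
  have hF := (w.fin.mul w.fin).mul (A_fin (S := S) Finset.univ)
  refine ⟨hF.toFinset, EE S, ?_, card_EE, ?_⟩
  · have := mem_EE (S := S) one_TT one_TT (one_Ex ⟨0, by omega⟩)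
    rwa [one_mul, one_mul] at this
  rintro k _ ⟨l, hk, hl, rfl⟩
  have hl' : ∀ x ∈ l, x ∈ S.gens := fun x hx => by
    rcases hl x hx with h | h
    · rw [← hQ]; exact h
    · have h' : x⁻¹ ∈ S.gens := by rw [← hQ]; exact h
      rwa [← gens_inv h', inv_inv] at h'
  obtain ⟨β, π, J, t, κ, h1, a, h2, l', h3, h4, h5⟩ := word hN w l hl'
  refine ⟨β * κ * a, hF.mem_toFinset.2 (Set.mul_mem_mul (Set.mul_mem_mul t.1
    (K_mono (Set.subset_univ _) h1)) (A_mono (by simp) h2)), l', h3, by omega, h4⟩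

end Pool.Agent.MP_89edc2_al.H5
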