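import Pool.Agent.MP_89edc2_al.H5.Spec

/-! The growth mechanism inside the semidirect product. -/

namespace Pool.Agent.MP_89edc2_al.H5

namespace Mecx

open SemidirectProduct
open scoped Pointwise

/-! ### Words -/

theorem pre_app (α β : List Bool) (x : X) : pre (α ++ β) x = pre α (pre β x) := by
  induction α with
  | nil => rfl
  | cons b α ih => simp only [List.cons_append, pre, ih]

theorem cons_inj {b b' : Bool} {x y : X} (h : cons b x = cons b' y) : b = b' ∧ x = y :=
  ⟨congrFun h 0, funext fun n => congrFun h (n + 1)⟩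

theorem pre_inj (α : List Bool) : Function.Injective (pre α) := by
  induction α with
  | nil => exact fun _ _ h => h
  | cons b α ih => exact fun x y h => ih (cons_inj h).2

theorem pre_split : ∀ (β α : List Bool) (x y : X), pre α x = pre β y → β.length ≤ α.length →
    ∃ γ, α = β ++ γ
  | [], α, _, _, _, _ => ⟨α, rfl⟩
  | _ :: _, [], _, _, _, h => by simp at h
  | b :: β, a :: α, x, y, h, hl => by
    obtain ⟨rfl, h2⟩ := cons_inj h
    obtain ⟨γ, rfl⟩ := pre_split β α x y h2 (by simpa using hl)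
    exact ⟨γ, rfl⟩

/-- Disjoint cones. -/
def Dj (α β : List Bool) : Prop := ∀ x y, pre α x ≠ pre β y

theorem Dj.good {α β : List Bool} (h : Dj α β) : Good (pre α) (pre β) :=
  ⟨pre_inj α, pre_inj β, h⟩

theorem Dj.symm {α β : List Bool} (h : Dj α β) : Dj β α := fun x y e => h y x e.symm

theorem Dj.app {α β : List Bool} (h : Dj α β) (u v : List Bool) : Dj (α ++ u) (β ++ v) :=
  fun x y => by rw [pre_app, pre_app]; exact h _ _

theorem Dj.appL {α β : List Bool} (h : Dj α β) (u : List Bool) : Dj (α ++ u) β :=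
  fun x y => by rw [pre_app]; exact h _ _

theorem Dj.appR {α β : List Bool} (h : Dj α β) (v : List Bool) : Dj α (β ++ v) :=
  fun x y => by rw [pre_app]; exact h _ _

theorem Dj.left {u v : List Bool} (h : Dj u v) (α : List Bool) : Dj (α ++ u) (α ++ v) :=
  fun x y e => by rw [pre_app, pre_app] at e; exact h _ _ (pre_inj α e)

theorem dj_ne {a b : Bool} (h : a ≠ b) (u v : List Bool) : Dj (a :: u) (b :: v) :=
  fun _ _ e => h (cons_inj e).1

/-! ### Transpositions -/

/-- The transposition of two cones. -/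
noncomputable def tv (α β : List Bool) : V :=
  ⟨tr (pre α) (pre β), Subgroup.subset_closure ⟨α, β, rfl⟩⟩

theorem tv_not {α β : List Bool} (h : ¬ Dj α β) : tv α β = 1 :=
  Subtype.ext (dif_neg fun e => h e.2.2)

theorem tv_self (α : List Bool) : tv α α = 1 :=
  tv_not fun h => h (fun _ => false) _ rfl

theorem tv_val {α β : List Bool} (h : Dj α β) (z : X) :
    (tv α β).1 z = trf (pre α) (pre β) z := by
  show tr (pre α) (pre β) z = _
  rw [tr, dif_pos h.good]; rfl

theorem tv_left {α β : List Bool} (h : Dj α β) (x : X) : (tv α β).1 (pre α x) = pre β x := by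
  rw [tv_val h, trf_left h.good]

theorem tv_right {α β : List Bool} (h : Dj α β) (x : X) : (tv α β).1 (pre β x) = pre α x := by
  rw [tv_val h, trf_right h.good]

theorem tv_fix {α β γ : List Bool} (h : Dj α γ) (h' : Dj β γ) (x : X) :
    (tv α β).1 (pre γ x) = pre γ x := by
  by_cases e : Dj α β
  · rw [tv_val e, trf_other (fun y => h y x) (fun y => h' y x)]
  · rw [tv_not e]; rfl

theorem tv_sq (α β : List Bool) : tv α β * tv α β = 1 := by
  by_cases e : Dj α β
  · refine Subtype.ext (Equiv.ext fun z => ?_)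
    show (tv α β).1 ((tv α β).1 z) = z
    rw [tv_val e, tv_val e]; exact trf_invol e.good z
  · rw [tv_not e, mul_one]

/-- `g` carries one cone to another. -/
def Mv (g : V) (β β' : List Bool) : Prop := ∀ x, g.1 (pre β x) = pre β' x

theorem Mv.app {g : V} {β β' : List Bool} (h : Mv g β β') (u : List Bool) :
    Mv g (β ++ u) (β' ++ u) := fun x => by rw [pre_app, pre_app]; exact h _

theorem tv_conj (h2 : SpTr) {g : V} {α α' β β' : List Bool} (h : Mv g α α') (h' : Mv g β β') :
    g * tv α β * g⁻¹ = tv α' β' := by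
  refine Subtype.ext ?_
  show g.1 * tr (pre α) (pre β) * g.1⁻¹ = tr (pre α') (pre β')
  rw [h2.1, show g.1 ∘ pre α = pre α' from funext h, show g.1 ∘ pre β = pre β' from funext h']

theorem tv_split (h2 : SpTr) {α β : List Bool} (h : Dj α β ∨ α = β) :
    tv α β = tv (α ++ [false]) (β ++ [false]) * tv (α ++ [true]) (β ++ [true]) := by
  rcases h with h | rfl
  · refine Subtype.ext ?_
    have e : ∀ (γ : List Bool) (b : Bool), pre γ ∘ cons b = pre (γ ++ [b]) :=
      fun γ b => funext fun x => (pre_app γ [b] x).symm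
    have := h2.2.1 _ _ h.good
    rw [e, e, e, e] at this
    exact this
  · simp only [tv_self, mul_one]

theorem tv_swap {I : Type} [DecidableEq I] {w : I → List Bool}
    (hw : ∀ c d, c ≠ d → Dj (w c) (w d)) (c d e : I) :
    Mv (tv (w c) (w d)) (w e) (w (Equiv.swap c d e)) := by
  intro x
  by_cases h : c = d
  · subst h; rw [tv_self, Equiv.swap_self]; rfl
  by_cases h1 : e = c
  · subst h1; rw [Equiv.swap_apply_left]; exact tv_left (hw _ _ h) x
  by_cases h2 : e = d
  · subst h2; rw [Equiv.swap_apply_right]; exact tv_right (hw _ _ h) x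
  rw [Equiv.swap_apply_of_ne_of_ne h1 h2]
  exact tv_fix (hw _ _ (Ne.symm h1)) (hw _ _ (Ne.symm h2)) x

theorem tv_inv (α β : List Bool) : (tv α β)⁻¹ = tv α β :=
  inv_eq_of_mul_eq_one_right (tv_sq α β)

theorem sym_of (h2 : SpTr) {I G : Type} [DecidableEq I] [Group G] (φ : V →* G)
    {w : I → List Bool} (hw : ∀ c d, c ≠ d → Dj (w c) (w d)) :
    Sym (fun c d => φ (tv (w c) (w d))) Set.univ := by
  refine ⟨fun c _ => by simp only [tv_self, map_one],
    fun c _ d _ => by simp only [← map_mul, tv_sq, map_one], fun c _ d _ e _ f _ => ?_⟩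
  have := tv_conj h2 (tv_swap hw c d e) (tv_swap hw c d f)
  rw [tv_inv] at this
  simp only [← map_mul, this]

/-! ### The local generators -/

/-- A cone as a framed block. -/
def sv (h3 : SpAdj) (δ : List Bool) (h : δ ≠ []) : SV := ⟨pre δ, h3.1 δ h⟩

theorem sv_mv (h3 : SpAdj) {g : V} {δ δ' : List Bool} (h : δ ≠ []) (h' : δ' ≠ [])
    (e : Mv g δ δ') : g • sv h3 δ h = sv h3 δ' h' :=
  Subtype.ext (funext e)

theorem a_conj (σ : Sit V SV) (g : V) (s : SV) :
    (inr g : σ.GG) * σ.a s * (inr g)⁻¹ = σ.a (g • s) := by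
  rw [Sit.a, Sit.a, ← σ.act_gen, inl_aut, map_inv]

theorem a_sq (σ : Sit V SV) (s : SV) : σ.a s * σ.a s = 1 := by
  rw [Sit.a, ← map_mul, gen_sq, map_one]

theorem a_comm (h3 : SpAdj) {σ : Sit V SV} (hσ : σ.adj = adjV) {δ δ' δ'' : List Bool}
    (h : δ ≠ []) (h' : δ' ≠ []) (e : Dj δ δ') (e' : Dj δ δ'') (e'' : Dj δ' δ'') :
    Commute (σ.a (sv h3 δ h)) (σ.a (sv h3 δ' h')) := by
  have : σ.adj (sv h3 δ h) (sv h3 δ' h') := by
    rw [hσ]; exact h3.2 δ δ' δ'' e.good e'.good e''.good
  exact (gen_comm this).map (inl : W σ.adj →* σ.GG)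

/-- The three generators inside a cone. -/
noncomputable def Yw (h3 : SpAdj) (σ : Sit V SV) (β : List Bool) : Fin 3 → σ.GG :=
  ![inr (tv (β ++ [false]) (β ++ [true, false])), inr (tv (β ++ [false]) (β ++ [true, true])),
    σ.a (sv h3 (β ++ [false]) (by simp))]

theorem Yw_conj (h2 : SpTr) (h3 : SpAdj) (σ : Sit V SV) {g : V} {β β' : List Bool}
    (h : Mv g β β') (r : Fin 3) :
    (inr g : σ.GG) * Yw h3 σ β r * (inr g)⁻¹ = Yw h3 σ β' r := by
  fin_cases r
  · show (inr g : σ.GG) * inr _ * _ = inr _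
    rw [← map_inv, ← map_mul, ← map_mul, tv_conj h2 (h.app _) (h.app _)]
  · show (inr g : σ.GG) * inr _ * _ = inr _
    rw [← map_inv, ← map_mul, ← map_mul, tv_conj h2 (h.app _) (h.app _)]
  · show (inr g : σ.GG) * σ.a _ * _ = σ.a _
    rw [a_conj, sv_mv h3 _ _ (h.app _)]

theorem Yw_comm (h2 : SpTr) (h3 : SpAdj) (σ : Sit V SV) {g : V} {β : List Bool}
    (h : Mv g β β) (r : Fin 3) : Commute (inr g : σ.GG) (Yw h3 σ β r) :=
  mul_inv_eq_iff_eq_mul.1 (Yw_conj h2 h3 σ h r)

theorem Yw_sq (h3 : SpAdj) (σ : Sit V SV) (β : List Bool) (r : Fin 3) :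
    Yw h3 σ β r * Yw h3 σ β r = 1 := by
  fin_cases r
  · show (inr _ : σ.GG) * inr _ = 1
    rw [← map_mul, tv_sq, map_one]
  · show (inr _ : σ.GG) * inr _ = 1
    rw [← map_mul, tv_sq, map_one]
  · exact a_sq σ _

theorem Yw_Yw (h2 : SpTr) (h3 : SpAdj) {σ : Sit V SV} (hσ : σ.adj = adjV) {β β' : List Bool}
    (h : Dj β β') (r r' : Fin 3) : Commute (Yw h3 σ β r) (Yw h3 σ β' r') := by
  have k : ∀ {γ γ' : List Bool}, Dj γ γ' → ∀ u v t, Commute (inr (tv (γ ++ u) (γ ++ v)) : σ.GG)
      (Yw h3 σ γ' t) := fun e u v t => Yw_comm h2 h3 σ (tv_fix (e.appL u) (e.appL v)) t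
  fin_cases r
  · exact k h _ _ _
  · exact k h _ _ _
  fin_cases r'
  · exact (k h.symm _ _ _).symm
  · exact (k h.symm _ _ _).symm
  · exact a_comm h3 hσ (δ'' := β ++ [true]) _ _ (h.app _ _) ((dj_ne (by simp) _ _).left β)
      (h.symm.app _ _)

theorem fin_comm {G ι : Type} [Group G] [Finite ι] (a : ι → G) (hs : ∀ i, a i * a i = 1)
    (hc : ∀ i j, Commute (a i) (a j)) : (Subgroup.closure (Set.range a) : Set G).Finite := by
  have hm : IsMulCommutative (Subgroup.closure (Set.range a)) :=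
    Subgroup.isMulCommutative_closure (by rintro _ ⟨i, rfl⟩ _ ⟨j, rfl⟩; exact hc i j)
  have h2 : ∀ g ∈ Subgroup.closure (Set.range a), g * g = 1 := by
    intro g hg
    induction hg using Subgroup.closure_induction with
    | mem x hx => obtain ⟨i, rfl⟩ := hx; exact hs i
    | one => simp
    | mul x y hx hy ix iy =>
      have : y * x = x * y := setLike_mul_comm hy hx
      rw [mul_assoc, ← mul_assoc y, this, mul_assoc, iy, mul_one, ix]
    | inv x _ ix => rw [← mul_inv_rev, ix, inv_one]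
  open scoped IsMulCommutative in
  exact CommGroup.finite_of_fg_isMulTorsion (G := Subgroup.closure (Set.range a)) fun g =>
    isOfFinOrder_iff_pow_eq_one.2 ⟨2, two_pos, Subtype.ext (by simpa [sq] using h2 g.1 g.2)⟩

theorem Yw_fin (h1 : SpSym) (h2 : SpTr) (h3 : SpAdj) {σ : Sit V SV} (hσ : σ.adj = adjV)
    (β : List Bool) : (Subgroup.closure (Set.range (Yw h3 σ β)) : Set σ.GG).Finite := by
  let u : Fin 3 → List Bool := ![[false], [true, false], [true, true]]
  have hu : ∀ c d, c ≠ d → Dj (u c) (u d) := by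
    have e1 : ∀ v, Dj [false] (true :: v) := fun v => dj_ne (by simp) _ _
    have e2 : Dj [true, false] [true, true] := (e1 []).left [true]
    intro c d h
    fin_cases c <;> fin_cases d <;>
      first | exact absurd rfl h | exact e1 _ | exact (e1 _).symm | exact e2 | exact e2.symm
  have hw : ∀ c d, c ≠ d → Dj (β ++ u c) (β ++ u d) := fun c d h => (hu c d h).left β
  have hn : ∀ c, β ++ u c ≠ [] := fun c => by fin_cases c <;> simp [u]
  let a : Fin 3 → σ.GG := fun c => σ.a (sv h3 _ (hn c))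
  have hS := sym_of h2 (inr : V →* σ.GG) hw
  have hK := (h1 _ _ _ _ hS).2.2.1 Set.univ le_rfl Set.finite_univ
  have hA : (Subgroup.closure (Set.range a) : Set σ.GG).Finite := by
    refine fin_comm a (fun i => a_sq σ _) fun i j => ?_
    by_cases h : i = j
    · subst h; rfl
    obtain ⟨k, k1, k2⟩ : ∃ k, i ≠ k ∧ j ≠ k := by revert i j; decide
    exact a_comm h3 hσ _ _ (hw _ _ h) (hw _ _ k1) (hw _ _ k2)
  have hN : K (fun c d => (inr (tv (β ++ u c) (β ++ u d)) : σ.GG)) Set.univ ≤
      Subgroup.normalizer (Subgroup.closure (Set.range a) : Subgroup σ.GG) := by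
    refine (Subgroup.closure_le _).2 ?_
    rintro _ ⟨c, -, d, -, rfl⟩
    set t : σ.GG := inr (tv (β ++ u c) (β ++ u d)) with ht
    have t2 : t * t = 1 := hS.sq c trivial d trivial
    have hc : Subgroup.closure (Set.range a) ≤
        (Subgroup.closure (Set.range a)).comap (MulAut.conj t).toMonoidHom := by
      refine (Subgroup.closure_le _).2 ?_
      rintro _ ⟨e, rfl⟩
      show t * a e * t⁻¹ ∈ Subgroup.closure (Set.range a)
      rw [ht, a_conj, sv_mv h3 _ (hn _) (tv_swap hw c d e)]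
      exact Subgroup.subset_closure ⟨_, rfl⟩
    refine Subgroup.mem_normalizer_iff.2 fun h => ⟨fun e => hc e, fun e => ?_⟩
    have e' : t * (t * h * t⁻¹) * t⁻¹ ∈ Subgroup.closure (Set.range a) := hc e
    rwa [show t * (t * h * t⁻¹) * t⁻¹ = t * t * h * (t * t)⁻¹ by group, t2, one_mul, inv_one,
      mul_one] at e'
  have hF := hK.mul hA
  rw [← Subgroup.coe_mul_of_left_le_normalizer_right _ _ hN] at hF
  refine hF.subset ((Subgroup.closure_le _).2 ?_)
  rintro _ ⟨r, rfl⟩
  fin_cases r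
  · exact Subgroup.mem_sup_left (Subgroup.subset_closure ⟨0, trivial, 1, trivial, rfl⟩)
  · exact Subgroup.mem_sup_left (Subgroup.subset_closure ⟨0, trivial, 2, trivial, rfl⟩)
  · exact Subgroup.mem_sup_right (Subgroup.subset_closure ⟨0, rfl⟩)

theorem Yw_card (h2 : SpTr) (h3 : SpAdj) (σ : Sit V SV) {β : List Bool} (hβ : β ≠ []) :
    (Subgroup.closure (Set.range (Yw h3 σ β)) : Set σ.GG).ncard =
      (Subgroup.closure (Set.range (Yw h3 σ [false])) : Set σ.GG).ncard := by
  obtain ⟨g, hg⟩ := h3.1 β hβ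
  have hm : Mv g [false] β := fun x => congrFun hg x
  have e : Yw h3 σ β = (MulAut.conj (inr g : σ.GG)).toMonoidHom ∘ Yw h3 σ [false] :=
    funext fun r => (Yw_conj h2 h3 σ hm r).symm
  rw [e, Set.range_comp, ← MonoidHom.map_closure, Subgroup.coe_map]
  exact Set.ncard_image_of_injective _ (MulAut.conj (inr g : σ.GG)).injective

/-! ### Generation -/

theorem blk_len {N c : ℕ} (h : c < N) : (blk N c).length < N := by
  unfold blk; split_ifs <;> simp <;> omega

theorem blk_ne {N : ℕ} (hN : 4 ≤ N) (c : ℕ) : blk N c ≠ [] := by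
  unfold blk; split_ifs <;> simp; omega

theorem blk_dj (h2 : SpTr) {N : ℕ} (c d : Fin N) (h : c ≠ d) : Dj (blk N c) (blk N d) :=
  fun x y e => h (Fin.ext (h2.2.2.2.2.2.1 N c d c.2 d.2 x y e))

/-- Half blocks. -/
def hb (N : ℕ) (c : Fin N × Bool) : List Bool := blk N c.1 ++ [c.2]

theorem hb_dj (h2 : SpTr) {N : ℕ} (c d : Fin N × Bool) (h : c ≠ d) : Dj (hb N c) (hb N d) := by
  by_cases e : c.1 = d.1
  · have : c.2 ≠ d.2 := fun e' => h (Prod.ext e e')
    unfold hb; rw [e]; exact (dj_ne this _ _).left _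
  · exact (blk_dj h2 _ _ e).app _ _

theorem hb_cov (h2 : SpTr) {N : ℕ} (hN : 4 ≤ N) (α : List Bool) (h : N ≤ α.length) :
    ∃ c w, α = hb N c ++ w := by
  obtain ⟨c, hc, x, e⟩ := h2.2.2.2.2.2.2 N (by omega) (pre α fun _ => false)
  have hl := blk_len hc
  obtain ⟨γ, rfl⟩ := pre_split _ _ _ _ e (by omega)
  cases γ with
  | nil => simp at h; omega
  | cons b w => exact ⟨(⟨c, hc⟩, b), w, by simp [hb]⟩

theorem third {N : ℕ} (hN : 4 ≤ N) (c d : Fin N × Bool) : ∃ e, e ≠ c ∧ e ≠ d := by
  by_contra! h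
  have h0 := h (⟨0, by omega⟩, false)
  have h1 := h (⟨1, by omega⟩, false)
  have h2 := h (⟨2, by omega⟩, false)
  obtain ⟨⟨c1, c2⟩, c3⟩ := c
  obtain ⟨⟨d1, d2⟩, d3⟩ := d
  simp only [ne_eq, Prod.mk.injEq, Fin.mk.injEq] at h0 h1 h2
  by_cases e0 : 0 = c1 ∧ false = c3
  · have := h1 (by omega); have := h2 (by omega); omega
  · have := h0 e0
    by_cases e1 : 1 = c1 ∧ false = c3
    · have := h2 (by omega); omega
    · have := h1 e1; omega

theorem gen_V (h2 : SpTr) {N : ℕ} (hN : 4 ≤ N) (L : Subgroup V)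
    (hT : ∀ c d, tv (hb N c) (hb N d) ∈ L)
    (hY : ∀ (x : Fin N) (e : Bool), tv (hb N (x, false)) (hb N (x, true) ++ [e]) ∈ L) (g : V) :
    g ∈ L := by
  have cj : ∀ {t : V} {α α' β β' : List Bool}, t ∈ L → Mv t α α' → Mv t β β' → tv α β ∈ L →
      tv α' β' ∈ L := fun ht m m' h => by
    rw [← tv_conj h2 m m']; exact L.mul_mem (L.mul_mem ht h) (L.inv_mem ht)
  have hd := hb_dj h2 (N := N)
  have s1 : ∀ c d e, c ≠ d → tv (hb N c) (hb N d ++ [e]) ∈ L := by
    intro c d e h
    have p1 := cj (hT (c.1, false) c) (tv_swap hd _ _ _) ((tv_swap hd _ _ _).app _) (hY c.1 e)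
    rw [Equiv.swap_apply_left] at p1
    set d' := Equiv.swap (c.1, false) c (c.1, true) with hd'
    have n1 : c ≠ d' := fun e' => by
      have := (Equiv.swap (c.1, false) c).injective ((Equiv.swap_apply_left _ _).trans e')
      simp at this
    have p2 := cj (hT d' d) (tv_swap hd _ _ _) ((tv_swap hd _ _ _).app _) p1
    rwa [Equiv.swap_apply_left, Equiv.swap_apply_of_ne_of_ne n1 h] at p2
  have s2 : ∀ w c d, c ≠ d → tv (hb N c) (hb N d ++ w) ∈ L := by
    intro w
    induction w with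
    | nil => intro c d _; rw [List.append_nil]; exact hT c d
    | cons e w ih =>
      intro c d h
      obtain ⟨k, k1, k2⟩ := third hN c d
      have := cj (s1 k d e k2) (α' := hb N c) (tv_fix (hd _ _ k1) ((hd _ _ h.symm).appL _))
        (Mv.app (tv_left ((hd _ _ k2).appR _)) w) (ih c k k1.symm)
      simpa using this
  have s3 : ∀ k α β, N ≤ α.length + k → N ≤ β.length + k → tv α β ∈ L := by
    intro k
    induction k with
    | zero =>
      intro α β ha hb'
      by_cases e : Dj α β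
      swap
      · rw [tv_not e]; exact L.one_mem
      obtain ⟨c, w, rfl⟩ := hb_cov h2 hN α ha
      obtain ⟨d, w', rfl⟩ := hb_cov h2 hN β hb'
      obtain ⟨k, k1, k2⟩ := third hN c d
      exact cj (s2 w k c k1) (tv_left ((hd _ _ k1).appR _)) (tv_fix ((hd _ _ k2).appR _) e)
        (s2 w' k d k2)
    | succ k ih =>
      intro α β ha hb'
      by_cases e : Dj α β
      · rw [tv_split h2 (Or.inl e)]
        exact L.mul_mem (ih _ _ (by simp; omega) (by simp; omega))
          (ih _ _ (by simp; omega) (by simp; omega))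
      · rw [tv_not e]; exact L.one_mem
  obtain ⟨g, hg⟩ := g
  induction hg using Subgroup.closure_induction with
  | mem x hx => obtain ⟨α, β, rfl⟩ := hx; exact s3 N α β (by omega) (by omega)
  | one => exact L.one_mem
  | mul x y hx hy ix iy => exact L.mul_mem ix iy
  | inv x hx ix => exact L.inv_mem ix

end Mecx

open Mecx SemidirectProduct in
theorem mec_main (h1 : SpSym) (h2 : SpTr) (h3 : SpAdj) : SpMec := by
  intro σ hσ
  refine ⟨(Subgroup.closure (Set.range (Yw h3 σ [false])) : Set σ.GG).ncard, fun N hN => ?_⟩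
  refine ⟨⟨fun c d => inr (tv (hb N c) (hb N d)), fun x => Yw h3 σ (blk N x),
    sym_of h2 inr (hb_dj h2), fun x r => Yw_sq h3 σ _ r, fun x => Yw_fin h1 h2 h3 hσ _,
    fun x => ?_, fun x y r r' h => Yw_Yw h2 h3 hσ (blk_dj h2 x y h) r r',
    fun c d x r hc hd => Yw_comm h2 h3 σ
      (tv_fix ((blk_dj h2 _ _ hc).appL _) ((blk_dj h2 _ _ hd).appL _)) r,
    fun i j x r => ?_⟩, fun L hT hY => ?_⟩
  · rw [Yw_card h2 h3 σ (blk_ne hN x)]
    exact Nat.lt_two_pow_self.le
  · have e : tv (blk N i) (blk N j) = tv (hb N (i, false)) (hb N (j, false)) *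
        tv (hb N (i, true)) (hb N (j, true)) := tv_split h2 (by
      by_cases h : i = j
      · exact Or.inr (by rw [h])
      · exact Or.inl (blk_dj h2 i j h))
    rw [← map_mul, ← e]
    exact mul_inv_eq_iff_eq_mul.1
      (Yw_conj h2 h3 σ (tv_swap (w := fun c : Fin N => blk N c) (blk_dj h2) i j x) r)
  · have hV : ∀ g : V, (inr g : σ.GG) ∈ L := gen_V h2 hN (L.comap inr) hT fun x e => by
      cases e
      · have := hY x 0
        simpa [hb, Yw] using this
      · have := hY x 1
        simpa [hb, Yw] using this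
    have hA : ∀ s, σ.a s ∈ L := by
      intro s
      have h0 : σ.a (sv h3 (blk N 0 ++ [false]) (by simp)) ∈ L := hY ⟨0, by omega⟩ 2
      obtain ⟨g, hg⟩ := MulAction.exists_smul_eq V (sv h3 (blk N 0 ++ [false]) (by simp)) s
      rw [← hg, ← a_conj]
      exact L.mul_mem (L.mul_mem (hV g) h0) (L.inv_mem (hV g))
    rw [eq_top_iff]
    intro g _
    rw [← inl_left_mul_inr_right g]
    exact L.mul_mem (PresentedGroup.generated_by _ (L.comap inl) hA g.left) (hV _)

end Pool.Agent.MP_89edc2_al.H5
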