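import Pool.Agent.MP_89edc2_al.H5.Spec

/-!
# The normal form in Thompson's group
-/

namespace Pool.Agent.MP_89edc2_al.H5

namespace Nfx

theorem ais (g : Equiv.Perm X) (x : X) : g (g⁻¹ x) = x := g.apply_symm_apply x

theorem pre_append (α β : List Bool) (x : X) : pre (α ++ β) x = pre α (pre β x) := by
  induction α with
  | nil => rfl
  | cons b α ih => simp only [List.cons_append, pre, ih]

theorem blk_zero {n : ℕ} (hn : 1 ≤ n) : blk (n + 1) 0 = blk n 0 ++ [true] := by
  obtain ⟨n, rfl⟩ : ∃ k, n = k + 1 := ⟨n - 1, by omega⟩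
  simp [blk, List.replicate_succ']

theorem blk_self {n : ℕ} (hn : 1 ≤ n) : blk (n + 1) n = blk n 0 ++ [false] := by
  have : n ≠ 0 := by omega
  simp [blk, this]

theorem blk_stab {n c : ℕ} (hc : c ≠ 0) : blk (n + 1) c = blk n c := by
  simp [blk, hc]

theorem B_zero {n : ℕ} (hn : 1 ≤ n) (x : X) :
    pre (blk (n + 1) 0) x = pre (blk n 0) (cons true x) := by
  rw [blk_zero hn, pre_append]; rfl

theorem B_self {n : ℕ} (hn : 1 ≤ n) (x : X) :
    pre (blk (n + 1) n) x = pre (blk n 0) (cons false x) := by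
  rw [blk_self hn, pre_append]; rfl

theorem inblk (α : List Bool) (n : ℕ) (h : n ≤ α.length) :
    ∃ c < n + 1, ∃ w, α = blk (n + 1) c ++ w := by
  induction n with
  | zero => exact ⟨0, by omega, α, by simp [blk]⟩
  | succ n ih =>
    obtain ⟨c, hc, w, e⟩ := ih (by omega)
    by_cases h0 : c = 0
    · subst h0
      cases w with
      | nil =>
        rw [e] at h
        simp [blk] at h
      | cons b w =>
        cases b
        · exact ⟨n + 1, by omega, w, by rw [blk_self (by omega), e]; simp⟩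
        · exact ⟨0, by omega, w, by rw [blk_zero (by omega), e]; simp⟩
    · exact ⟨c, by omega, w, by rw [blk_stab h0, e]⟩

theorem swap_lt {n c d e : ℕ} (hc : c < n) (hd : d < n) (he : e < n) : Equiv.swap c d e < n := by
  rw [Equiv.swap_apply_def]
  split_ifs <;> assumption

/-- The frame of level `m` moved by `g` refines the code of level `n`. -/
def Ref (g : Equiv.Perm X) (n m : ℕ) : Prop :=
  ∀ i < m, ∃ c < n, ∃ w, ∀ x, g (pre (blk m i) x) = pre (blk n c) (pre w x)

theorem deep1 (h2 : SpTr) (m : ℕ) (hm : 1 ≤ m) (r : ℕ) (hr : r ≤ m) : ∃ h : Equiv.Perm X,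
    ∀ i < m + r, ∃ c < m, ∃ w, (w = [] → r ≤ i ∧ i < m) ∧
      ∀ x, h (pre (blk (m + r) i) x) = pre (blk m c) (pre w x) := by
  obtain ⟨-, -, -, -, t5, -, -⟩ := h2
  induction r with
  | zero => exact ⟨1, fun i hi => ⟨i, hi, [], fun _ => ⟨by omega, hi⟩, fun x => rfl⟩⟩
  | succ r ih =>
    obtain ⟨h, hh⟩ := ih (by omega)
    refine ⟨h * TV (m + r) 0 r * TV (m + r + 1) 0 r, fun i hi => ?_⟩
    have e0 : ∀ x, TV (m + r + 1) 0 r (pre (blk (m + r + 1) i) x) =
        pre (blk (m + r + 1) (Equiv.swap 0 r i)) x :=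
      t5 _ _ _ _ (by omega) (by omega) (by omega)
    have e1 : ∀ x, TV (m + r) 0 r (pre (blk (m + r) 0) x) = pre (blk (m + r) r) x := fun x => by
      rw [t5 _ _ _ _ (by omega) (by omega) (by omega), Equiv.swap_apply_left]
    obtain ⟨c, hc, w, -, hw⟩ := hh r (by omega)
    by_cases h1 : i = r
    · refine ⟨c, hc, w ++ [true], by simp, fun x => ?_⟩
      change h (TV (m + r) 0 r (TV (m + r + 1) 0 r (pre (blk (m + r + 1) i) x))) = _
      rw [e0, h1, Equiv.swap_apply_right, B_zero (by omega), e1, hw, pre_append]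
      rfl
    by_cases h3 : i = m + r
    · refine ⟨c, hc, w ++ [false], by simp, fun x => ?_⟩
      change h (TV (m + r) 0 r (TV (m + r + 1) 0 r (pre (blk (m + r + 1) i) x))) = _
      rw [e0, Equiv.swap_apply_of_ne_of_ne (by omega) h1, h3, B_self (by omega), e1, hw, pre_append]
      rfl
    obtain ⟨c', hc', w', hw1, hw'⟩ := hh i (by omega)
    refine ⟨c', hc', w', fun e => by have := hw1 e; omega, fun x => ?_⟩
    change h (TV (m + r) 0 r (TV (m + r + 1) 0 r (pre (blk (m + r + 1) i) x))) = _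
    have n0 : Equiv.swap 0 r i ≠ 0 := fun e => h1 (by
      rw [Equiv.swap_apply_eq_iff, Equiv.swap_apply_left] at e
      exact e)
    rw [e0, blk_stab n0, t5 _ _ _ _ (by omega) (by omega)
      (swap_lt (by omega) (by omega) (by omega)), Equiv.swap_apply_self, hw']

theorem deep (h2 : SpTr) (m : ℕ) (hm : 1 ≤ m) (k : ℕ) : ∃ M, 1 ≤ M ∧ ∃ h : Equiv.Perm X,
    ∀ i < M, ∃ c < m, ∃ w : List Bool, k ≤ w.length ∧
      ∀ x, h (pre (blk M i) x) = pre (blk m c) (pre w x) := by
  induction k with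
  | zero => exact ⟨m, hm, 1, fun i hi => ⟨i, hi, [], le_rfl, fun x => rfl⟩⟩
  | succ k ih =>
    obtain ⟨M, hM, h, hh⟩ := ih
    obtain ⟨h', hh'⟩ := deep1 h2 M hM M le_rfl
    refine ⟨M + M, by omega, h * h', fun i hi => ?_⟩
    obtain ⟨c', hc', w', hw1, hw'⟩ := hh' i hi
    obtain ⟨c, hc, w, hk, hw⟩ := hh c' hc'
    refine ⟨c, hc, w ++ w', ?_, fun x => ?_⟩
    · have : w' ≠ [] := fun e => by have := hw1 e; omega
      have := List.length_pos_iff.2 this
      rw [List.length_append]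
      omega
    · rw [Equiv.Perm.mul_apply, hw', hw, pre_append]

variable {G : Type} [Group G] (T : ℕ → ℕ → ℕ → G)

/-- Products of permutations of the levels `n, n + 1, …, n + j`. -/
def E : ℕ → ℕ → Set G
  | 0, n => K (T n) (Set.Iio n)
  | j + 1, n => {g | ∃ k ∈ K (T n) (Set.Iio n), ∃ e ∈ E j (n + 1), g = k * e}

variable {T}

theorem E_absorb {j n : ℕ} {k e : G} (hk : k ∈ K (T n) (Set.Iio n)) (he : e ∈ E T j n) :
    k * e ∈ E T j n := by
  cases j with
  | zero => exact mul_mem hk (show e ∈ K (T n) (Set.Iio n) from he)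
  | succ j =>
    obtain ⟨k', hk', e', he', rfl⟩ := he
    exact ⟨k * k', mul_mem hk hk', e', he', (mul_assoc _ _ _).symm⟩

theorem E_comp {j j' n : ℕ} {e e' : G} (he : e ∈ E T j n) (he' : e' ∈ E T j' (n + j)) :
    e * e' ∈ E T (j' + j) n := by
  induction j generalizing n e with
  | zero => exact E_absorb he he'
  | succ j ih =>
    obtain ⟨k, hk, e1, he1, rfl⟩ := he
    exact ⟨k, hk, e1 * e', ih he1 (by rwa [add_assoc, add_comm 1 j]), mul_assoc _ _ _⟩

theorem E_one (j n : ℕ) : (1 : G) ∈ E T j n := by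
  induction j generalizing n with
  | zero => exact one_mem (K (T n) (Set.Iio n))
  | succ j ih => exact ⟨1, one_mem _, 1, ih _, (mul_one _).symm⟩

theorem E_lift {j i n : ℕ} {e : G} (he : e ∈ E T j (n + i)) : e ∈ E T (j + i) n := by
  have := E_comp (E_one i n) he
  rwa [one_mul] at this

theorem T_mem {n c d : ℕ} (hc : c < n) (hd : d < n) : T n c d ∈ K (T n) (Set.Iio n) :=
  Subgroup.subset_closure ⟨c, hc, d, hd, rfl⟩

variable {π : G →* Equiv.Perm X} (h1 : SpSym) (h2 : SpTr) (hS : ∀ M, Sys T M)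
  (hπ : ∀ n c d, c < n → d < n → π (T n c d) = TV n c d)

include hS in
theorem sym (n : ℕ) : Sym (T n) (Set.Iio n) := (hS n).sym n le_rfl

include hS in
theorem T_sq {n c d : ℕ} (hc : c < n) (hd : d < n) : T n c d * T n c d = 1 :=
  (sym hS n).sq c hc d hd

include hS in
theorem K_stab {n : ℕ} {k : G} (hk : k ∈ K (T n) (Set.Iio n \ {0})) :
    k ∈ K (T (n + 1)) (Set.Iio (n + 1)) := by
  refine Subgroup.closure_mono ?_ hk
  rintro _ ⟨c, ⟨c1, c2⟩, d, ⟨d1, d2⟩, rfl⟩
  simp only [Set.mem_Iio, Set.mem_singleton_iff] at c1 c2 d1 d2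
  exact ⟨c, by simp only [Set.mem_Iio]; omega, d, by simp only [Set.mem_Iio]; omega,
    ((hS (n + 1)).stab n le_rfl c d (by omega) c1 (by omega) d1).symm⟩

include hS in
theorem cubeC {n c : ℕ} (h0 : 1 ≤ c) (hc : c < n) :
    T (n + 1) 0 c * T n 0 c * T (n + 1) 0 c ∈ K (T (n + 2)) (Set.Iio (n + 2)) := by
  have e : ∀ m, 1 < m → c < m → T m 0 c = T m 1 c * T m 0 1 * T m 1 c := fun m m1 mc => by
    rw [(sym hS m).conj 1 m1 c mc 0 (show 0 < m by omega) 1 m1, Equiv.swap_apply_left,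
      Equiv.swap_apply_of_ne_of_ne (by omega) (by omega)]
  have s1 : T (n + 1) 1 c = T n 1 c :=
    (hS (n + 1)).stab n le_rfl 1 c le_rfl (by omega) h0 hc
  have s2 : T (n + 2) 1 c = T n 1 c :=
    ((hS (n + 2)).stab (n + 1) le_rfl 1 c le_rfl (by omega) h0 (by omega)).trans s1
  have q : T n 1 c * T n 1 c = 1 := T_sq hS (by omega) hc
  have e2 : T (n + 1) 0 c * T n 0 c * T (n + 1) 0 c =
      T n 1 c * (T (n + 1) 0 1 * T n 0 1 * T (n + 1) 0 1) * T n 1 c := by
    rw [e (n + 1) (by omega) (by omega), e n (by omega) hc, s1]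
    calc _ = T n 1 c * T (n + 1) 0 1 * (T n 1 c * T n 1 c) * T n 0 1 * (T n 1 c * T n 1 c) *
        T (n + 1) 0 1 * T n 1 c := by simp only [mul_assoc]
      _ = _ := by rw [q]; simp only [mul_assoc, one_mul]
  rw [e2, (hS (n + 2)).cube n (by omega) le_rfl, ← s2]
  exact mul_mem (mul_mem (T_mem (by omega) (by omega)) (mul_mem (T_mem (by omega) (by omega))
    (T_mem (by omega) (by omega)))) (T_mem (by omega) (by omega))

include h2 hπ in
theorem piT {n c d e : ℕ} (hc : c < n) (hd : d < n) (he : e < n) (x : X) :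
    π (T n c d) (pre (blk n e) x) = pre (blk n (Equiv.swap c d e)) x := by
  rw [hπ n c d hc hd]
  exact h2.2.2.2.2.1 n c d e hc hd he x

include h2 in
theorem dis {n c d : ℕ} (hc : c < n) (hd : d < n) {x y : X}
    (h : pre (blk n c) x = pre (blk n d) y) : c = d :=
  h2.2.2.2.2.2.1 n c d hc hd x y h

include h2 hS hπ in
theorem trk {n : ℕ} {J : Set ℕ} (hJ : J ⊆ Set.Iio n) {k : G} (hk : k ∈ K (T n) J) :
    ∀ c < n, ∃ c' < n, (∀ x, π k (pre (blk n c) x) = pre (blk n c') x) ∧ (c ∈ J → c' ∈ J) := by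
  have step : ∀ g ∈ {g | ∃ c ∈ J, ∃ d ∈ J, g = T n c d}, ∀ k : G,
      (∀ c < n, ∃ c' < n, (∀ x, π k (pre (blk n c) x) = pre (blk n c') x) ∧ (c ∈ J → c' ∈ J)) →
      ∀ c < n, ∃ c' < n, (∀ x, π (g * k) (pre (blk n c) x) = pre (blk n c') x) ∧
        (c ∈ J → c' ∈ J) := by
    rintro _ ⟨a, ha, b, hb, rfl⟩ k ih c hc
    obtain ⟨c', hc', e, m⟩ := ih c hc
    refine ⟨Equiv.swap a b c', swap_lt (hJ ha) (hJ hb) hc', fun x => ?_, fun h => ?_⟩
    · rw [map_mul, Equiv.Perm.mul_apply, e, piT h2 hπ (hJ ha) (hJ hb) hc']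
    · rw [Equiv.swap_apply_def]
      split_ifs
      · exact hb
      · exact ha
      · exact m h
  unfold K at hk
  induction hk using Subgroup.closure_induction_left with
  | one => exact fun c hc => ⟨c, hc, fun x => by simp, id⟩
  | mul_left g hg k _ ih => exact step g hg k ih
  | inv_mul_cancel g hg k _ ih =>
    have : g⁻¹ = g := by
      obtain ⟨a, ha, b, hb, rfl⟩ := hg
      exact inv_eq_of_mul_eq_one_right (T_sq hS (hJ ha) (hJ hb))
    rw [this]
    exact step g hg k ih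

include h1 h2 hS hπ in
theorem fix {n : ℕ} {J : Set ℕ} (hJ : J ⊆ Set.Iio n) {k : G} (hk : k ∈ K (T n) J) {y : ℕ}
    (hy : y < n) (h : ∀ x, π k (pre (blk n y) x) = pre (blk n y) x) : k ∈ K (T n) (J \ {y}) := by
  obtain ⟨g, hg, rfl | ⟨d, dJ, dy, -, rfl⟩⟩ := (h1 ℕ G (T n) _ (sym hS n)).2.1 J hJ y k hk
  · exact hg
  · obtain ⟨d', hd', e, m⟩ := trk h2 hS hπ (Set.sdiff_subset.trans hJ) hg d (hJ dJ)
    have := h fun _ => true
    rw [map_mul, Equiv.Perm.mul_apply, piT h2 hπ hy (hJ dJ) hy, Equiv.swap_apply_left, e] at this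
    exact absurd (dis h2 hd' hy this) (m ⟨dJ, dy⟩).2

include h1 h2 hS hπ in
theorem injK {n : ℕ} (r : ℕ) (hr : r ≤ n) {k : G} (hk : k ∈ K (T n) (Set.Iio r)) (h : π k = 1) :
    k = 1 := by
  induction r with
  | zero =>
    have : K (T n) (Set.Iio 0) = ⊥ := by simp [K]
    rwa [this] at hk
  | succ r ih =>
    refine ih (by omega) ?_
    have := fix h1 h2 hS hπ (Set.Iio_subset_Iio hr) hk (y := r) (by omega) (fun x => by simp [h])
    have e : Set.Iio (r + 1) \ {r} = Set.Iio r := by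
      ext i
      simp only [Set.mem_sdiff, Set.mem_Iio, Set.mem_singleton_iff]
      omega
    rwa [e] at this

include h2 hS hπ in
theorem refE {j n : ℕ} (hn : 1 ≤ n) {e : G} (he : e ∈ E T j n) : Ref (π e) n (n + j) := by
  induction j generalizing n e with
  | zero =>
    intro i hi
    obtain ⟨c, hc, e1, -⟩ := trk h2 hS hπ subset_rfl he i hi
    exact ⟨c, hc, [], e1⟩
  | succ j ih =>
    obtain ⟨k, hk, e1, he1, rfl⟩ := he
    intro i hi
    obtain ⟨c, hc, w, hw⟩ := ih (by omega) he1 i (by omega)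
    have up : ∃ c' < n, ∃ w', ∀ x, pre (blk (n + 1) c) x = pre (blk n c') (pre w' x) := by
      by_cases c0 : c = 0
      · exact ⟨0, hn, [true], fun x => by rw [c0, B_zero hn]; rfl⟩
      by_cases cn : c = n
      · exact ⟨0, hn, [false], fun x => by rw [cn, B_self hn]; rfl⟩
      · exact ⟨c, by omega, [], fun x => by rw [blk_stab c0]; rfl⟩
    obtain ⟨c', hc', w', hw'⟩ := up
    obtain ⟨c'', hc'', e2, -⟩ := trk h2 hS hπ subset_rfl hk c' hc'
    refine ⟨c'', hc'', w' ++ w, fun x => ?_⟩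
    have : n + (j + 1) = n + 1 + j := by omega
    rw [map_mul, Equiv.Perm.mul_apply, this, hw, hw', e2, pre_append]

include h1 h2 hS hπ in
theorem first0 {j n c : ℕ} (hn : 1 ≤ n) (hc : c < n) {k e : G} (hk : k ∈ K (T n) (Set.Iio n))
    (he : e ∈ E T j (n + 1)) (h : ∀ x, π k (pre (blk n 0) x) = pre (blk n c) x) :
    ∃ e' ∈ E T j (n + 1), k * e = T n 0 c * e' := by
  refine ⟨T n 0 c * k * e, E_absorb (K_stab hS (fix h1 h2 hS hπ subset_rfl
    (mul_mem (T_mem hn hc) hk) hn fun x => ?_)) he, ?_⟩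
  · rw [map_mul, Equiv.Perm.mul_apply, h, piT h2 hπ hn hc hc, Equiv.swap_apply_right]
  · rw [← mul_assoc, ← mul_assoc, T_sq hS hn hc, one_mul]

include h1 h2 hS hπ in
theorem first {j n c : ℕ} (hn : 1 ≤ n) (hc : c < n) {e : G} (he : e ∈ E T (j + 1) n)
    (h : ∀ i < n + 1 + j, ¬ ∀ x, π e (pre (blk (n + 1 + j) i) x) = pre (blk n c) x) :
    ∃ e' ∈ E T j (n + 1), e = T n 0 c * e' := by
  induction j generalizing n c e with
  | zero =>
    obtain ⟨k, hk, e1, he1, rfl⟩ := he
    obtain ⟨c', hc', e2, -⟩ := trk h2 hS hπ subset_rfl (inv_mem hk) c hc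
    have e3 : ∀ x, π k (pre (blk n c') x) = pre (blk n c) x := fun x => by
      rw [← e2, map_inv, ais]
    by_cases c0 : c' = 0
    · exact first0 h1 h2 hS hπ hn hc hk he1 (by rwa [c0] at e3)
    obtain ⟨i, hi, e4, -⟩ := trk h2 hS hπ subset_rfl
      (inv_mem (show e1 ∈ K (T (n + 1)) (Set.Iio (n + 1)) from he1)) c' (by omega)
    refine absurd (fun x => ?_) (h i hi)
    rw [map_mul, Equiv.Perm.mul_apply, add_zero, ← e4, map_inv, ais,
      blk_stab c0, e3]
  | succ j ih =>
    obtain ⟨k, hk, e1, he1, rfl⟩ := he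
    obtain ⟨c', hc', e2, -⟩ := trk h2 hS hπ subset_rfl (inv_mem hk) c hc
    have e3 : ∀ x, π k (pre (blk n c') x) = pre (blk n c) x := fun x => by
      rw [← e2, map_inv, ais]
    by_cases c0 : c' = 0
    · exact first0 h1 h2 hS hπ hn hc hk he1 (by rwa [c0] at e3)
    have nj : n + 1 + (j + 1) = n + 1 + 1 + j := by omega
    obtain ⟨e4, he4, rfl⟩ := ih (n := n + 1) (c := c') (by omega) (by omega) he1 fun i hi hx =>
      h i (by omega) fun x => by
        rw [map_mul, Equiv.Perm.mul_apply, nj, hx, blk_stab c0, e3]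
    have q1 : T n 0 c' * T n 0 c' = 1 := T_sq hS hn hc'
    have q2 : T (n + 1) 0 c' * T (n + 1) 0 c' = 1 := T_sq hS (by omega) (by omega)
    have e5 : k * (T (n + 1) 0 c' * e4) = k * T n 0 c' * (T (n + 1) 0 c' *
        (T (n + 1) 0 c' * T n 0 c' * T (n + 1) 0 c' * e4)) := by
      calc _ = k * (T n 0 c' * (1 * T n 0 c')) * (T (n + 1) 0 c' * e4) := by
            rw [one_mul, q1, mul_one]
        _ = _ := by rw [← q2]; simp only [mul_assoc]
    rw [e5]
    refine first0 h1 h2 hS hπ hn hc (mul_mem hk (T_mem hn hc'))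
      ⟨_, T_mem (by omega) (by omega), _, E_absorb (cubeC hS (by omega) hc') he4, rfl⟩ fun x => ?_
    rw [map_mul, Equiv.Perm.mul_apply, piT h2 hπ hn hc' hn, Equiv.swap_apply_left, e3]

include h1 h2 hS hπ in
theorem uniq {j n : ℕ} (hn : 1 ≤ n) {e e' : G} (he : e ∈ E T j n) (he' : e' ∈ E T j n)
    (h : π e = π e') : e = e' := by
  induction j generalizing n e e' with
  | zero =>
    have := injK h1 h2 hS hπ n le_rfl (mul_mem (inv_mem (show e ∈ K (T n) (Set.Iio n) from he))
      (show e' ∈ K (T n) (Set.Iio n) from he')) (by rw [map_mul, map_inv, h, inv_mul_cancel])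
    exact inv_mul_eq_one.1 this
  | succ j ih =>
    have hs : ∃ c < n, ∀ i < n + 1 + j,
        ¬ ∀ x, π e (pre (blk (n + 1 + j) i) x) = pre (blk n c) x := by
      obtain ⟨k, hk, e1, he1, rfl⟩ := he
      obtain ⟨c, hc, e2, -⟩ := trk h2 hS hπ subset_rfl hk 0 hn
      refine ⟨c, hc, fun i hi hx => ?_⟩
      obtain ⟨c', hc', w, hw⟩ := refE h2 hS hπ (by omega) he1 i hi
      have e3 : ∀ x, pre (blk (n + 1) c') (pre w x) = pre (blk n 0) x := fun x => by
        have := hx x
        rw [map_mul, Equiv.Perm.mul_apply, hw, ← e2] at this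
        exact (π k).injective this
      have a1 := e3 (cons true fun _ => true)
      have a2 := e3 (cons false fun _ => true)
      rw [← B_zero hn] at a1
      rw [← B_self hn] at a2
      have b1 := dis h2 hc' (by omega) a1
      have b2 := dis h2 hc' (by omega) a2
      omega
    obtain ⟨c, hc, hs⟩ := hs
    obtain ⟨e1, he1, rfl⟩ := first h1 h2 hS hπ hn hc he hs
    obtain ⟨e2, he2, rfl⟩ := first h1 h2 hS hπ hn hc he' (by rwa [← h])
    rw [map_mul, map_mul, mul_right_inj] at h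
    rw [ih (by omega) he1 he2 h]

include h2 hS hπ in
theorem perm {n : ℕ} (hn : 1 ≤ n) (r : ℕ) (hr : r ≤ n) (g : Equiv.Perm X) (cc : ℕ → ℕ)
    (h : ∀ i < n, cc i < n ∧ ∀ x, g (pre (blk n i) x) = pre (blk n (cc i)) x)
    (h' : ∀ i < n, r ≤ i → cc i = i) : ∃ k ∈ K (T n) (Set.Iio n), π k = g := by
  induction r generalizing g cc with
  | zero =>
    refine ⟨1, one_mem _, Equiv.ext fun z => ?_⟩
    obtain ⟨c, hc, x, rfl⟩ := h2.2.2.2.2.2.2 n hn z
    rw [(h c hc).2, h' c hc (by omega), map_one, Equiv.Perm.one_apply]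
  | succ r ih =>
    have rn : r < n := by omega
    have cr := (h r rn).1
    obtain ⟨k, hk, e⟩ := ih (by omega) (π (T n r (cc r)) * g) (fun i => Equiv.swap r (cc r) (cc i))
      (fun i hi => ⟨swap_lt rn cr (h i hi).1, fun x => by
        rw [Equiv.Perm.mul_apply, (h i hi).2, piT h2 hπ rn cr (h i hi).1]⟩)
      fun i hi ri => by
        by_cases ir : i = r
        · rw [ir, Equiv.swap_apply_right]
        have ci := h' i hi (by omega)
        rw [ci]
        refine Equiv.swap_apply_of_ne_of_ne ir fun e => ir ?_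
        have a1 := (h i hi).2 fun _ => true
        have a2 := (h r rn).2 fun _ => true
        rw [ci] at a1
        rw [← e] at a2
        exact dis h2 hi rn (g.injective (a1.trans a2.symm))
    refine ⟨T n r (cc r) * k, mul_mem (T_mem rn cr) hk, ?_⟩
    rw [map_mul, e, ← mul_assoc, ← map_mul, T_sq hS rn cr, map_one, one_mul]

include h2 hS hπ in
theorem exE {m : ℕ} (hm : 1 ≤ m) (L : ℕ) : ∀ n, 1 ≤ n → ∀ (g : Equiv.Perm X) (cc : ℕ → ℕ)
    (w : ℕ → List Bool), ∑ i ∈ Finset.range m, (w i).length < L →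
    (∀ i < m, cc i < n ∧ ∀ x, g (pre (blk m i) x) = pre (blk n (cc i)) (pre (w i) x)) →
    ∃ j, m = n + j ∧ ∃ e ∈ E T j n, π e = g := by
  induction L with
  | zero => exact fun _ _ _ _ _ h => absurd h (by omega)
  | succ L ih =>
    intro n hn g cc w hL h
    by_cases h0 : ∀ i < m, w i = []
    · have h3 : ∀ i < m, ∀ x, g (pre (blk m i) x) = pre (blk n (cc i)) x := fun i hi x => by
        rw [(h i hi).2, h0 i hi]; rfl
      have mn : m = n := by
        have := Finset.card_nbij (s := Finset.range m) (t := Finset.range n) cc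
          (fun i hi => by simpa using (h i (by simpa using hi)).1)
          (fun i hi i' hi' e => by
            have hi : i < m := by simpa using hi
            have hi' : i' < m := by simpa using hi'
            have a1 := h3 i hi fun _ => true
            rw [e, ← h3 i' hi'] at a1
            exact dis h2 hi hi' (g.injective a1))
          (fun c hc => by
            have hc : c < n := by simpa using hc
            obtain ⟨i, hi, x, e⟩ := h2.2.2.2.2.2.2 m hm (g⁻¹ (pre (blk n c) fun _ => true))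
            have a1 := h3 i hi x
            rw [← e, ais] at a1
            exact ⟨i, by simpa using hi, (dis h2 hc (h i hi).1 a1).symm⟩)
        simpa using this
      subst mn
      obtain ⟨k, hk, e⟩ := perm h2 hS hπ hm m le_rfl g cc (fun i hi => ⟨(h i hi).1, h3 i hi⟩)
        fun i hi hi' => by omega
      exact ⟨0, rfl, k, hk, e⟩
    push Not at h0
    obtain ⟨i₀, hi₀, hw₀⟩ := h0
    have c0 := (h i₀ hi₀).1
    have key : ∀ i, ∃ c' : ℕ, ∃ w' : List Bool, i < m → (c' < n + 1 ∧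
        ∀ x, (π (T n 0 (cc i₀)) * g) (pre (blk m i) x) = pre (blk (n + 1) c') (pre w' x)) ∧
        w'.length ≤ (w i).length ∧ (i = i₀ → w'.length < (w i).length) := by
      intro i
      by_cases hi : i < m
      swap
      · exact ⟨0, [], fun h => absurd h hi⟩
      have e0 : ∀ x, (π (T n 0 (cc i₀)) * g) (pre (blk m i) x) =
          pre (blk n (Equiv.swap 0 (cc i₀) (cc i))) (pre (w i) x) := fun x => by
        rw [Equiv.Perm.mul_apply, (h i hi).2, piT h2 hπ hn c0 (h i hi).1]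
      by_cases hc : cc i = cc i₀
      · rw [hc, Equiv.swap_apply_right] at e0
        cases hw : w i with
        | nil =>
          have a1 := (h i hi).2 (pre (w i₀) fun _ => true)
          rw [hw, hc] at a1
          have a2 := (h i₀ hi₀).2 fun _ => true
          have := dis h2 hi hi₀ (g.injective (a1.trans a2.symm))
          rw [this] at hw
          exact absurd hw hw₀
        | cons b w' =>
          cases b
          · exact ⟨n, w', fun _ => ⟨⟨by omega, fun x => by rw [e0, hw, B_self hn]; rfl⟩,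
              by simp, fun _ => by simp⟩⟩
          · exact ⟨0, w', fun _ => ⟨⟨by omega, fun x => by rw [e0, hw, B_zero hn]; rfl⟩,
              by simp, fun _ => by simp⟩⟩
      · have n0 : Equiv.swap 0 (cc i₀) (cc i) ≠ 0 := fun e => hc (by
          rw [Equiv.swap_apply_eq_iff, Equiv.swap_apply_left] at e
          exact e)
        have := swap_lt hn c0 (h i hi).1
        exact ⟨Equiv.swap 0 (cc i₀) (cc i), w i, fun _ => ⟨⟨by omega, fun x => by
          rw [e0, blk_stab n0]⟩, le_rfl, fun e => absurd (by rw [e]) hc⟩⟩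
    choose cc' w' hk using key
    have hlt : ∑ i ∈ Finset.range m, (w' i).length < ∑ i ∈ Finset.range m, (w i).length :=
      Finset.sum_lt_sum (fun i hi => (hk i (Finset.mem_range.1 hi)).2.1)
        ⟨i₀, Finset.mem_range.2 hi₀, (hk i₀ hi₀).2.2 rfl⟩
    obtain ⟨j, hj, e, he, e1⟩ := ih (n + 1) (by omega) _ cc' w' (by omega) fun i hi => (hk i hi).1
    refine ⟨j + 1, by omega, T n 0 (cc i₀) * e, ⟨_, T_mem hn c0, e, he, rfl⟩, ?_⟩
    rw [map_mul, e1, ← mul_assoc, ← map_mul, T_sq hS hn c0, map_one, one_mul]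

include h2 hS hπ in
theorem exR {n m : ℕ} (hn : 1 ≤ n) (hm : 1 ≤ m) {g : Equiv.Perm X} (h : Ref g n m) :
    ∃ j, m = n + j ∧ ∃ e ∈ E T j n, π e = g := by
  have key : ∀ i, ∃ c : ℕ, ∃ w : List Bool, i < m → c < n ∧
      ∀ x, g (pre (blk m i) x) = pre (blk n c) (pre w x) := fun i => by
    by_cases hi : i < m
    · obtain ⟨c, hc, w, hw⟩ := h i hi
      exact ⟨c, w, fun _ => ⟨hc, hw⟩⟩
    · exact ⟨0, [], fun h => absurd h hi⟩
  choose cc w hk using key
  exact exE h2 hS hπ hm _ n hn g cc w (Nat.lt_succ_self _) hk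

theorem one_blk {c : ℕ} (hc : c < 1) (x : X) : pre (blk 1 c) x = x := by
  obtain rfl : c = 0 := by omega
  rfl

include h1 h2 hS hπ in
theorem ore {j n c d : ℕ} (hc : c < n) (hd : d < n) {e : G} (he : e ∈ E T j 1) :
    ∃ j', ∃ e' ∈ E T j' (1 + j), T n c d * (e * e') ∈ E T (j' + j) 1 := by
  obtain ⟨n, rfl⟩ : ∃ k, n = k + 1 := ⟨n - 1, by omega⟩
  obtain ⟨M, hM, h, hh⟩ := deep h2 (1 + j) (by omega) n
  obtain ⟨j', hj', e', he', rfl⟩ := exR h2 hS hπ (n := 1 + j) (by omega) hM (g := h) fun i hi => by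
    obtain ⟨c, hc, w, -, hw⟩ := hh i hi
    exact ⟨c, hc, w, hw⟩
  obtain ⟨j₂, hj₂, e₂, he₂, e1⟩ := exR h2 hS hπ (n := n + 1) (by omega) hM (g := π (e * e'))
    fun i hi => by
      obtain ⟨c, hc, w, hl, hw⟩ := hh i hi
      obtain ⟨c', hc', w', hw'⟩ := refE h2 hS hπ le_rfl he c hc
      obtain ⟨c'', hc'', w'', e2⟩ := inblk (w' ++ w) n (by rw [List.length_append]; omega)
      refine ⟨c'', hc'', w'', fun x => ?_⟩
      rw [map_mul, Equiv.Perm.mul_apply, hw, hw', one_blk hc', ← pre_append, e2, pre_append]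
  have jj : j₂ + n = j' + j := by omega
  have lift : ∀ g ∈ E T j₂ (n + 1), g ∈ E T (j' + j) 1 := fun g hg => by
    rw [← jj]
    exact E_lift (by rwa [add_comm 1 n])
  refine ⟨j', e', he', ?_⟩
  rw [← uniq h1 h2 hS hπ le_rfl (lift _ he₂) (E_comp he he') e1]
  exact lift _ (E_absorb (T_mem hc hd) he₂)

end Nfx

open Nfx in
theorem nf_main (h1 : SpSym) (h2 : SpTr) : SpNf := by
  intro G _ T π hS hπ hgen
  constructor
  · have nf : ∀ g : G, ∃ j, ∃ e ∈ E T j 1, ∃ e' ∈ E T j 1, g = e * e'⁻¹ := by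
      intro g
      have hg : g ∈ Subgroup.closure {g | ∃ n c d, c < n ∧ d < n ∧ g = T n c d} := by
        rw [hgen]; trivial
      have step : ∀ t ∈ {g | ∃ n c d, c < n ∧ d < n ∧ g = T n c d}, ∀ g : G,
          (∃ j, ∃ e ∈ E T j 1, ∃ e' ∈ E T j 1, g = e * e'⁻¹) →
          ∃ j, ∃ e ∈ E T j 1, ∃ e' ∈ E T j 1, t * g = e * e'⁻¹ := by
        rintro _ ⟨n, c, d, hc, hd, rfl⟩ _ ⟨j, e, he, e', he', rfl⟩
        obtain ⟨j', e₁, he₁, h⟩ := ore h1 h2 hS hπ hc hd he
        exact ⟨j' + j, _, h, e' * e₁, E_comp he' he₁, by simp [mul_assoc]⟩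
      induction hg using Subgroup.closure_induction_left with
      | one => exact ⟨0, 1, E_one _ _, 1, E_one _ _, by simp⟩
      | mul_left t ht g _ ih => exact step t ht g ih
      | inv_mul_cancel t ht g _ ih =>
        have : t⁻¹ = t := by
          obtain ⟨n, c, d, hc, hd, rfl⟩ := ht
          exact inv_eq_of_mul_eq_one_right (T_sq hS hc hd)
        rw [this]
        exact step t ht g ih
    rw [injective_iff_map_eq_one]
    intro g hg
    obtain ⟨j, e, he, e', he', rfl⟩ := nf g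
    rw [map_mul, map_inv, mul_inv_eq_one] at hg
    rw [uniq h1 h2 hS hπ le_rfl he he' hg, mul_inv_cancel]
  · rintro g ⟨k, hk⟩
    obtain ⟨M, hM, h, hh⟩ := deep h2 1 le_rfl k
    obtain ⟨_, -, e, -, e1⟩ := exR h2 hS hπ le_rfl hM (g := h) fun i hi => by
      obtain ⟨c, hc, w, -, hw⟩ := hh i hi
      exact ⟨c, hc, w, hw⟩
    obtain ⟨_, -, e', -, e2⟩ := exR h2 hS hπ le_rfl hM (g := g * h) fun i hi => by
      obtain ⟨c, hc, w, hl, hw⟩ := hh i hi
      obtain ⟨β, hβ⟩ := hk w hl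
      exact ⟨c, hc, β, fun x => by rw [Equiv.Perm.mul_apply, hw, one_blk hc, one_blk hc, hβ]⟩
    exact ⟨e' * e⁻¹, by rw [map_mul, map_inv, e1, e2, mul_inv_cancel_right]⟩

end Pool.Agent.MP_89edc2_al.H5
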