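import Pool.Agent.MP_89edc2_al.H5.Spec

/-!
# Row SIT: the graph of framed blocks with its covering relation
-/

namespace Pool.Agent.MP_89edc2_al.H5

namespace Sitx

/-- Remove the first letter. -/
def tl (x : X) : X := fun n => x (n + 1)

theorem tl_cons (b : Bool) (x : X) : tl (cons b x) = x := rfl

theorem cons_zero (b : Bool) (x : X) : cons b x 0 = b := rfl

theorem cons_tl (x : X) : cons (x 0) (tl x) = x := by
  funext n
  cases n <;> rfl

theorem cons_inj {b b' : Bool} {x x' : X} (h : cons b x = cons b' x') : b = b' ∧ x = x' :=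
  ⟨by simpa only [cons_zero] using congrFun h 0, by simpa only [tl_cons] using congrArg tl h⟩

theorem smul_app (g : V) (f : X → X) (x : X) : (g • f) x = (g : Equiv.Perm X) (f x) := rfl

theorem smul_coe (g : V) (s : SV) : ((g • s : SV) : X → X) = g • (s : X → X) := rfl

theorem pre_false : pre [false] = cons false := rfl

theorem pre_true : pre [true] = cons true := rfl

theorem pre_inj (α : List Bool) : Function.Injective (pre α) := by
  induction α with
  | nil => exact fun _ _ h => h
  | cons b α ih => exact fun _ _ h => ih (cons_inj h).2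

theorem good_one : Good (pre [false]) (pre [true, false]) :=
  ⟨pre_inj _, pre_inj _, fun _ _ h => Bool.false_ne_true (cons_inj h).1⟩

theorem good_two : Good (pre [false]) (pre [true]) :=
  ⟨pre_inj _, pre_inj _, fun _ _ h => Bool.false_ne_true (cons_inj h).1⟩

theorem tr_left {f f' : X → X} (h : Good f f') (x : X) : tr f f' (f x) = f' x := by
  rw [tr, dif_pos h]
  exact trf_left h x

theorem tr_right {f f' : X → X} (h : Good f f') (x : X) : tr f f' (f' x) = f x := by
  rw [tr, dif_pos h]
  exact trf_right h x

/-- The transposition of two cones as an element of the group. -/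
noncomputable def trV (α β : List Bool) : V :=
  ⟨tr (pre α) (pre β), Subgroup.subset_closure ⟨α, β, rfl⟩⟩

theorem h0_left : trV [false] [true, false] • (cons false : X → X) = pre [true, false] :=
  funext fun x => tr_left good_one x

theorem h0_right : trV [false] [true, false] • (pre [true, false] : X → X) = cons false :=
  funext fun x => tr_right good_one x

theorem h1_left : trV [false] [true] • (cons false : X → X) = cons true :=
  funext fun x => tr_left good_two x

/-- The two images cover the Cantor set. -/
def cov (s s' : SV) : Prop :=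
  ∀ z : X, (∃ x, (s : X → X) x = z) ∨ ∃ x, (s' : X → X) x = z

theorem miss (s : SV) : ∃ z : X, ∀ x, (s : X → X) x ≠ z := by
  obtain ⟨_, g, rfl⟩ := s
  refine ⟨(g : Equiv.Perm X) (cons true fun _ => true), fun x hx => ?_⟩
  exact Bool.false_ne_true (cons_inj ((g : Equiv.Perm X).injective hx)).1

theorem adj_disj {s s' : SV} (h : adjV s s') (x y : X) : (s : X → X) x ≠ (s' : X → X) y := by
  obtain ⟨g, e, e'⟩ := h
  rw [e, e', smul_app, smul_app]
  exact fun hx => good_one.2.2 x y ((g : Equiv.Perm X).injective hx)

theorem adj_miss {s s' : SV} (h : adjV s s') : ¬ cov s s' := by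
  obtain ⟨g, e, e'⟩ := h
  intro hc
  rcases hc ((g : Equiv.Perm X) (cons true (cons true fun _ => true))) with ⟨x, hx⟩ | ⟨x, hx⟩
  · rw [e, smul_app] at hx
    exact Bool.false_ne_true (cons_inj ((g : Equiv.Perm X).injective hx)).1
  · rw [e', smul_app] at hx
    exact Bool.false_ne_true (cons_inj (cons_inj ((g : Equiv.Perm X).injective hx)).2).1

theorem adj_symm {s s' : SV} (h : adjV s s') : adjV s' s := by
  obtain ⟨g, e, e'⟩ := h
  exact ⟨g * trV [false] [true, false], by rw [mul_smul, h0_left, e'],
    by rw [mul_smul, h0_right, e]⟩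

/-- The graph of framed blocks. -/
def sit : Sit V SV where
  adj := adjV
  cov := cov
  adj_symm := fun _ _ => adj_symm
  adj_irr := fun _ h => adj_disj h (fun _ => true) (fun _ => true) rfl
  adj_smul := by
    rintro h s s' ⟨g, e, e'⟩
    exact ⟨h * g, by rw [smul_coe, e, mul_smul], by rw [smul_coe, e', mul_smul]⟩
  cov_symm := fun _ _ h z => (h z).symm
  cov_smul := by
    intro h s s' hc z
    rcases hc ((h : Equiv.Perm X).symm z) with ⟨x, hx⟩ | ⟨x, hx⟩
    · exact Or.inl ⟨x, by rw [smul_coe, smul_app, hx, Equiv.apply_symm_apply]⟩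
    · exact Or.inr ⟨x, by rw [smul_coe, smul_app, hx, Equiv.apply_symm_apply]⟩
  cov_ne := by
    rintro s _ hc rfl
    obtain ⟨z, hz⟩ := miss s
    rcases hc z with ⟨x, hx⟩ | ⟨x, hx⟩ <;> exact hz x hx
  cov_nadj := fun _ _ hc h => adj_miss h hc
  cov_link := by
    intro s s' r hc h h'
    rcases hc ((r : X → X) fun _ => true) with ⟨x, hx⟩ | ⟨x, hx⟩
    · exact adj_disj h _ x hx.symm
    · exact adj_disj h' _ x hx.symm
  cov_uniq := by
    intro s s' r hc hc' h
    obtain ⟨z, hz⟩ := miss r
    rcases hc z with ⟨x, hx⟩ | ⟨x, hx⟩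
    · rcases hc' z with ⟨y, hy⟩ | ⟨y, hy⟩
      · exact adj_disj h x y (hx.trans hy.symm)
      · exact hz y hy
    · exact hz x hx
  cov_free := by
    intro h s s' hc e e'
    refine Subtype.ext (Equiv.ext fun z => ?_)
    rcases hc z with ⟨x, rfl⟩ | ⟨x, rfl⟩
    · exact congrFun (congrArg Subtype.val e) x
    · exact congrFun (congrArg Subtype.val e') x

/-- A function acting inside the right half. -/
def inf (g : X → X) (z : X) : X := if z 0 = true then cons true (g (tl z)) else z

theorem inf_true (g : X → X) (x : X) : inf g (cons true x) = cons true (g x) := by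
  rw [inf, if_pos (cons_zero _ _), tl_cons]

theorem inf_false (g : X → X) (x : X) : inf g (cons false x) = cons false x := by
  rw [inf, if_neg]
  exact Bool.false_ne_true

theorem split (z : X) : (∃ x, z = cons false x) ∨ ∃ x, z = cons true x := by
  have e := cons_tl z
  cases h : z 0
  · exact Or.inl ⟨tl z, by rw [← h, e]⟩
  · exact Or.inr ⟨tl z, by rw [← h, e]⟩

/-- Permutations acting inside the right half. -/
def iota : Equiv.Perm X →* Equiv.Perm X where
  toFun g :=
    { toFun := inf g
      invFun := inf g.symm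
      left_inv := fun z => by
        rcases split z with ⟨x, rfl⟩ | ⟨x, rfl⟩
        · rw [inf_false, inf_false]
        · rw [inf_true, inf_true, Equiv.symm_apply_apply]
      right_inv := fun z => by
        rcases split z with ⟨x, rfl⟩ | ⟨x, rfl⟩
        · rw [inf_false, inf_false]
        · rw [inf_true, inf_true, Equiv.apply_symm_apply] }
  map_one' := Equiv.ext fun z => by
    rcases split z with ⟨x, rfl⟩ | ⟨x, rfl⟩
    · exact inf_false (1 : Equiv.Perm X) x
    · exact inf_true (1 : Equiv.Perm X) x
  map_mul' g g' := Equiv.ext fun z => by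
    change inf (g * g' : Equiv.Perm X) z = inf g (inf g' z)
    rcases split z with ⟨x, rfl⟩ | ⟨x, rfl⟩
    · rw [inf_false, inf_false, inf_false]
    · rw [inf_true, inf_true, inf_true, Equiv.Perm.mul_apply]

theorem iota_app (g : Equiv.Perm X) (z : X) : iota g z = inf g z := rfl

theorem loc_iota {g : Equiv.Perm X} (h : Loc g) : Loc (iota g) := by
  obtain ⟨k, hk⟩ := h
  refine ⟨k + 1, fun α hα => ?_⟩
  match α, hα with
  | false :: α, _ => exact ⟨false :: α, fun x => inf_false g _⟩
  | true :: α, hα =>
    obtain ⟨β, hβ⟩ := hk α (by simpa using hα)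
    exact ⟨true :: β, fun x => (inf_true _ _).trans (congrArg (cons true) (hβ x))⟩

theorem fix_true {h : Equiv.Perm X} (e : ∀ x, h (cons false x) = cons false x) (x : X) :
    h (cons true x) = cons true (tl (h (cons true x))) := by
  rcases split (h (cons true x)) with ⟨y, hy⟩ | ⟨y, hy⟩
  · exact absurd (cons_inj (h.injective (hy.trans (e y).symm))).1 Bool.false_ne_true.symm
  · rw [hy, tl_cons]

theorem fix_symm {h : Equiv.Perm X} (e : ∀ x, h (cons false x) = cons false x) (x : X) :
    h.symm (cons false x) = cons false x := by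
  rw [Equiv.symm_apply_eq, e]

/-- The restriction to the right half. -/
def res (h : Equiv.Perm X) (e : ∀ x, h (cons false x) = cons false x) : Equiv.Perm X where
  toFun x := tl (h (cons true x))
  invFun x := tl (h.symm (cons true x))
  left_inv x := by
    change tl (h.symm (cons true (tl (h (cons true x))))) = x
    rw [← fix_true e, Equiv.symm_apply_apply, tl_cons]
  right_inv x := by
    change tl (h (cons true (tl (h.symm (cons true x))))) = x
    rw [← fix_true (fix_symm e), Equiv.apply_symm_apply, tl_cons]

theorem iota_res (h : Equiv.Perm X) (e : ∀ x, h (cons false x) = cons false x) :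
    iota (res h e) = h := by
  refine Equiv.ext fun z => ?_
  rcases split z with ⟨x, rfl⟩ | ⟨x, rfl⟩
  · rw [iota_app, inf_false, e]
  · rw [iota_app, inf_true]
    exact (fix_true e x).symm

theorem loc_res {h : Equiv.Perm X} (e : ∀ x, h (cons false x) = cons false x) (hl : Loc h) :
    Loc (res h e) := by
  obtain ⟨k, hk⟩ := hl
  refine ⟨k, fun α hα => ?_⟩
  obtain ⟨β, hβ⟩ := hk (true :: α) (by simp only [List.length_cons]; omega)
  have key : ∀ x, pre β x = cons true (res h e (pre α x)) := fun x =>
    (hβ x).symm.trans (fix_true e _)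
  match β, key with
  | [], key =>
    exact absurd (cons_inj (key (cons false fun _ => true))).1 Bool.false_ne_true
  | b :: β, key => exact ⟨β, fun x => (cons_inj (key x)).2.symm⟩

/-- The base block. -/
def s0 : SV := ⟨cons false, MulAction.mem_orbit_self _⟩

theorem stab_fg (h1 : SpTr) (h2 : SpVfp) : (MulAction.stabilizer V s0).FG := by
  have hV : Group.FG V := by
    obtain ⟨n, φ, hφ, -⟩ := h2.1.out
    exact Group.fg_of_surjective hφ
  let ι : V →* V := (iota.comp V.subtype).codRestrict V
    fun g => h2.2 _ (loc_iota (h1.2.2.2.1 g g.2))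
  have e : MulAction.stabilizer V s0 = ι.range := by
    ext h
    rw [MulAction.mem_stabilizer_iff]
    constructor
    · intro hh
      have e : ∀ x, (h : Equiv.Perm X) (cons false x) = cons false x := fun x =>
        congrFun (congrArg Subtype.val hh) x
      exact ⟨⟨res h e, h2.2 _ (loc_res e (h1.2.2.2.1 h h.2))⟩, Subtype.ext (iota_res _ e)⟩
    · rintro ⟨g, rfl⟩
      exact Subtype.ext (funext fun x => inf_false (g : Equiv.Perm X) x)
  rw [e]
  exact (Group.fg_iff_subgroup_fg _).1 inferInstance

/-- Four words of length two. -/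
def wd (i : Fin 4) : List Bool := [decide (i.val / 2 = 1), decide (i.val % 2 = 1)]

theorem wd_disj {i j : Fin 4} {x y : X} (h : pre (wd i) x = pre (wd j) y) : i = j := by
  have a := (cons_inj h).1
  have b := (cons_inj (cons_inj h).2).1
  clear h
  revert a b
  revert i j
  decide

theorem four (h3 : SpAdj) : ∃ q : Fin 4 → SV, ∀ i j, i ≠ j → cov (q i) (q j) := by
  choose g hg using fun i : Fin 4 => h3.1 (wd i) (List.cons_ne_nil _ _)
  have key : ∀ i z, (∃ x, (((g i * trV [false] [true]) • s0 : SV) : X → X) x = z) ∨
      ∃ x, pre (wd i) x = z := by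
    intro i z
    have e : (((g i * trV [false] [true]) • s0 : SV) : X → X) = g i • (cons true : X → X) := by
      rw [← h1_left, ← mul_smul]
      rfl
    rcases split ((g i : Equiv.Perm X).symm z) with ⟨x, hx⟩ | ⟨x, hx⟩
    · exact Or.inr ⟨x, by rw [← hg i, smul_app, ← hx, Equiv.apply_symm_apply]⟩
    · exact Or.inl ⟨x, by rw [e, smul_app, ← hx, Equiv.apply_symm_apply]⟩
  refine ⟨fun i => (g i * trV [false] [true]) • s0, fun i j hij z => ?_⟩
  rcases key i z with h | ⟨x, hx⟩
  · exact Or.inl h
  rcases key j z with h | ⟨y, hy⟩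
  · exact Or.inr h
  exact absurd (wd_disj (hx.trans hy.symm)) hij

end Sitx

open Sitx in
theorem sit_main (h1 : SpTr) (h2 : SpVfp) (h3 : SpAdj) : SpSit := by
  have e : ((trV [false] [true, false] • s0 : SV) : X → X) = pre [true, false] := h0_left
  refine ⟨sit, rfl, ⟨s0, trV [false] [true, false], ?_, stab_fg h1 h2, ?_, ?_⟩, four h3⟩
  · rintro ⟨_, g, rfl⟩
    exact ⟨g, rfl⟩
  · rintro s s' ⟨g, hs, hs'⟩
    exact ⟨g, Subtype.ext hs, Subtype.ext (by rw [hs', smul_coe, e])⟩
  · exact ⟨1, by rw [one_smul]; rfl, by rw [one_smul, e]⟩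

end Pool.Agent.MP_89edc2_al.H5
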