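import Pool.Agent.MP_89edc2_al.K76.Spec

/-!
# A finitely presented acylindrically hyperbolic group of non-uniform exponential growth:
statements of the steps
-/

namespace Pool.Agent.MP_89edc2_al.H5

open Pool.Agent.MP_89edc2_al.K76 (ball Slow)

/-! ## Systems of transpositions -/

section Sym
variable {I G : Type} [DecidableEq I] [Group G]

/-- A system of transpositions on the labels of `J`. -/
structure Sym (T : I → I → G) (J : Set I) : Prop where
  diag : ∀ c ∈ J, T c c = 1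
  sq : ∀ c ∈ J, ∀ d ∈ J, T c d * T c d = 1
  conj : ∀ c ∈ J, ∀ d ∈ J, ∀ e ∈ J, ∀ f ∈ J,
    T c d * T e f * T c d = T (Equiv.swap c d e) (Equiv.swap c d f)

/-- The group generated by the transpositions inside `J`. -/
def K (T : I → I → G) (J : Set I) : Subgroup G :=
  Subgroup.closure {g | ∃ c ∈ J, ∃ d ∈ J, g = T c d}

end Sym

/-- The relations of Thompson's group up to level `M`. -/
structure Sys {G : Type} [Group G] (T : ℕ → ℕ → ℕ → G) (M : ℕ) : Prop where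
  sym : ∀ n ≤ M, Sym (T n) (Set.Iio n)
  stab : ∀ n, n + 1 ≤ M → ∀ c d, 1 ≤ c → c < n → 1 ≤ d → d < n → T (n + 1) c d = T n c d
  cube : ∀ n, 2 ≤ n → n + 2 ≤ M →
    T (n + 1) 0 1 * T n 0 1 * T (n + 1) 0 1 = T (n + 2) n (n + 1) * T (n + 2) 1 0

/-- All transpositions of level at most `M`. -/
def lev {G : Type} (T : ℕ → ℕ → ℕ → G) (M : ℕ) : Set G :=
  {g | ∃ n c d, n ≤ M ∧ c < n ∧ d < n ∧ g = T n c d}

/-! ## The Cantor set and Thompson's group -/

/-- The Cantor set. -/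
abbrev X : Type := ℕ → Bool

/-- Put a letter in front. -/
def cons (b : Bool) (x : X) : X
  | 0 => b
  | n + 1 => x n

/-- Put a word in front. -/
def pre : List Bool → X → X
  | [], x => x
  | b :: α, x => cons b (pre α x)

/-- Two embeddings with disjoint images. -/
def Good (f f' : X → X) : Prop :=
  Function.Injective f ∧ Function.Injective f' ∧ ∀ x y, f x ≠ f' y

open Classical in
/-- The function exchanging two images. -/
noncomputable def trf (f f' : X → X) (z : X) : X :=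
  if h : ∃ x, f x = z then f' h.choose else if h' : ∃ x, f' x = z then f h'.choose else z

theorem trf_left {f f' : X → X} (h : Good f f') (x : X) : trf f f' (f x) = f' x := by
  have e : ∃ y, f y = f x := ⟨x, rfl⟩
  rw [trf, dif_pos e, h.1 e.choose_spec]

theorem trf_right {f f' : X → X} (h : Good f f') (x : X) : trf f f' (f' x) = f x := by
  have e : ∃ y, f' y = f' x := ⟨x, rfl⟩
  rw [trf, dif_neg (fun ⟨y, hy⟩ => h.2.2 y x hy), dif_pos e, h.2.1 e.choose_spec]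

theorem trf_other {f f' : X → X} {z : X} (h : ∀ x, f x ≠ z) (h' : ∀ x, f' x ≠ z) :
    trf f f' z = z := by
  rw [trf, dif_neg (fun ⟨y, hy⟩ => h y hy), dif_neg (fun ⟨y, hy⟩ => h' y hy)]

theorem trf_invol {f f' : X → X} (h : Good f f') : Function.Involutive (trf f f') := by
  intro z
  by_cases h1 : ∃ x, f x = z
  · obtain ⟨x, rfl⟩ := h1
    rw [trf_left h, trf_right h]
  by_cases h2 : ∃ x, f' x = z
  · obtain ⟨x, rfl⟩ := h2
    rw [trf_right h, trf_left h]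
  have e := trf_other (fun x hx => h1 ⟨x, hx⟩) (fun x hx => h2 ⟨x, hx⟩)
  rw [e, e]

open Classical in
/-- The permutation exchanging two images (the identity if they are not disjoint). -/
noncomputable def tr (f f' : X → X) : Equiv.Perm X :=
  if h : Good f f' then (trf_invol h).toPerm else 1

/-- Thompson's group `V`. -/
def V : Subgroup (Equiv.Perm X) :=
  Subgroup.closure {g | ∃ α β : List Bool, g = tr (pre α) (pre β)}

/-- Permutations which replace initial words of some fixed length. -/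
def Loc (g : Equiv.Perm X) : Prop :=
  ∃ k : ℕ, ∀ α : List Bool, k ≤ α.length → ∃ β : List Bool, ∀ x, g (pre α x) = pre β x

/-- The code of level `n`. -/
def blk (n c : ℕ) : List Bool :=
  if c = 0 then List.replicate (n - 1) true else List.replicate (c - 1) true ++ [false]

/-- The transpositions of the code of level `n`. -/
noncomputable def TV (n c d : ℕ) : Equiv.Perm X := tr (pre (blk n c)) (pre (blk n d))

/-! ## Right-angled Coxeter groups -/

/-- A group acting on a graph with a covering relation. -/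
structure Sit (H S : Type) [Group H] [MulAction H S] where
  adj : S → S → Prop
  cov : S → S → Prop
  adj_symm : ∀ s s', adj s s' → adj s' s
  adj_irr : ∀ s, ¬ adj s s
  adj_smul : ∀ (h : H) s s', adj s s' → adj (h • s) (h • s')
  cov_symm : ∀ s s', cov s s' → cov s' s
  cov_smul : ∀ (h : H) s s', cov s s' → cov (h • s) (h • s')
  cov_ne : ∀ s s', cov s s' → s ≠ s'
  cov_nadj : ∀ s s', cov s s' → ¬ adj s s'
  cov_link : ∀ s s' r, cov s s' → adj r s → ¬ adj r s'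
  cov_uniq : ∀ s s' r, cov s r → cov s' r → ¬ adj s s'
  cov_free : ∀ (h : H) s s', cov s s' → h • s = s → h • s' = s' → h = 1

/-- The relators of the right-angled Coxeter group. -/
def rels {S : Type} (adj : S → S → Prop) : Set (FreeGroup S) :=
  {r | (∃ s, r = FreeGroup.of s * FreeGroup.of s) ∨
    ∃ s s', adj s s' ∧ r = FreeGroup.of s * FreeGroup.of s' * (FreeGroup.of s)⁻¹ * (FreeGroup.of s')⁻¹}

/-- The right-angled Coxeter group. -/
abbrev W {S : Type} (adj : S → S → Prop) : Type := PresentedGroup (rels adj)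

/-- The generators. -/
def gen {S : Type} (adj : S → S → Prop) (s : S) : W adj := PresentedGroup.of s

theorem gen_sq {S : Type} (adj : S → S → Prop) (s : S) : gen adj s * gen adj s = 1 :=
  PresentedGroup.one_of_mem (x := FreeGroup.of s * FreeGroup.of s) (Or.inl ⟨s, rfl⟩)

theorem gen_comm {S : Type} {adj : S → S → Prop} {s s' : S} (h : adj s s') :
    Commute (gen adj s) (gen adj s') := by
  have e : gen adj s * gen adj s' * (gen adj s)⁻¹ * (gen adj s')⁻¹ = 1 :=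
    PresentedGroup.one_of_mem (x := FreeGroup.of s * FreeGroup.of s' * (FreeGroup.of s)⁻¹ *
      (FreeGroup.of s')⁻¹) (Or.inr ⟨s, s', h, rfl⟩)
  exact commutatorElement_eq_one_iff_commute.1 e

/-- The universal property. -/
def lift {S G : Type} [Group G] (adj : S → S → Prop) (f : S → G) (h1 : ∀ s, f s * f s = 1)
    (h2 : ∀ s s', adj s s' → Commute (f s) (f s')) : W adj →* G :=
  PresentedGroup.toGroup (f := f) (by
    rintro _ (⟨s, rfl⟩ | ⟨s, s', h, rfl⟩)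
    · simp [h1]
    · simp only [map_mul, map_inv, FreeGroup.lift_apply_of]
      exact commutatorElement_eq_one_iff_commute.2 (h2 s s' h))

theorem lift_gen {S G : Type} [Group G] (adj : S → S → Prop) (f : S → G) (h1 : ∀ s, f s * f s = 1)
    (h2 : ∀ s s', adj s s' → Commute (f s) (f s')) (s : S) : lift adj f h1 h2 (gen adj s) = f s :=
  PresentedGroup.toGroup.of _

theorem hom_ext {S G : Type} [Group G] {adj : S → S → Prop} {φ ψ : W adj →* G}
    (h : ∀ s, φ (gen adj s) = ψ (gen adj s)) : φ = ψ :=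
  PresentedGroup.ext h

/-- The inversion sets of a right-angled Coxeter group. -/
structure Coc {S : Type} (adj : S → S → Prop) (N : W adj → Set (W adj)) : Prop where
  mul : ∀ u v t, t ∈ N (u * v) ↔ ¬ (t ∈ N u ↔ u⁻¹ * t * u ∈ N v)
  one : ∀ s t, t ∈ N (gen adj s) ↔ t = gen adj s
  fin : ∀ w, (N w).Finite
  triv : ∀ w, N w = ∅ → w = 1
  inj : ∀ s s', gen adj s = gen adj s' → s = s'
  two : ∀ s s' w, gen adj s ∈ N w → gen adj s' ∈ N w → s ≠ s' → adj s s'
  nest : ∀ s s', s ≠ s' → ¬ adj s s' → (∀ r, adj r s → ¬ adj r s') → ∀ x w a,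
    gen adj s ∈ N x → a ∈ N x → gen adj s' ∈ N w → a ∉ N w

section Semi
variable {H S : Type} [Group H] [MulAction H S] (σ : Sit H S)

/-- The endomorphism induced by an element of `H`. -/
def Sit.mapW (h : H) : W σ.adj →* W σ.adj :=
  lift σ.adj (fun s => gen σ.adj (h • s)) (fun _ => gen_sq _ _)
    (fun s s' e => gen_comm (σ.adj_smul h s s' e))

theorem Sit.mapW_gen (h : H) (s : S) : σ.mapW h (gen σ.adj s) = gen σ.adj (h • s) :=
  lift_gen _ _ _ _ s

theorem Sit.mapW_mul (h h' : H) (w : W σ.adj) : σ.mapW (h * h') w = σ.mapW h (σ.mapW h' w) :=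
  DFunLike.congr_fun (hom_ext (φ := σ.mapW (h * h')) (ψ := (σ.mapW h).comp (σ.mapW h'))
    fun s => by simp only [MonoidHom.comp_apply, σ.mapW_gen, mul_smul]) w

theorem Sit.mapW_one (w : W σ.adj) : σ.mapW 1 w = w :=
  DFunLike.congr_fun (hom_ext (φ := σ.mapW 1) (ψ := MonoidHom.id _)
    fun s => by simp only [MonoidHom.id_apply, σ.mapW_gen, one_smul]) w

/-- The action of `H` on the Coxeter group. -/
def Sit.act : H →* MulAut (W σ.adj) where
  toFun h :=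
    { toFun := σ.mapW h
      invFun := σ.mapW h⁻¹
      left_inv := fun w => by rw [← σ.mapW_mul, inv_mul_cancel, σ.mapW_one]
      right_inv := fun w => by rw [← σ.mapW_mul, mul_inv_cancel, σ.mapW_one]
      map_mul' := map_mul _ }
  map_one' := MulEquiv.ext σ.mapW_one
  map_mul' h h' := MulEquiv.ext (σ.mapW_mul h h')

theorem Sit.act_gen (h : H) (s : S) : σ.act h (gen σ.adj s) = gen σ.adj (h • s) :=
  σ.mapW_gen h s

/-- The semidirect product. -/
abbrev Sit.GG : Type := SemidirectProduct (W σ.adj) H σ.act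

/-- The reflection attached to a vertex. -/
def Sit.a (s : S) : σ.GG := SemidirectProduct.inl (gen σ.adj s)

end Semi

/-! ## Gates -/

/-- A system of gates. -/
structure Gates (G P Γ : Type) [Group G] [MulAction G P] [MulAction G Γ] where
  A : Γ → Set P
  B : Γ → Set P
  mid : Γ → P
  rev : Γ → Γ
  rev_rev : ∀ γ, rev (rev γ) = γ
  A_rev : ∀ γ, A (rev γ) = B γ
  disj : ∀ γ x, x ∈ A γ → x ∉ B γ
  mid_A : ∀ γ, mid γ ∉ A γ
  mid_B : ∀ γ, mid γ ∉ B γ
  fin : ∀ x y, {γ | x ∈ A γ ∧ y ∈ B γ}.Finite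
  near : ∀ γ, ∃ p ∈ A γ, {γ' | p ∈ A γ' ∧ mid γ ∈ B γ'}.ncard ≤ 1
  near' : ∀ γ, {γ' | mid γ ∈ A γ' ∧ mid (rev γ) ∈ B γ'}.ncard ≤ 1
  cross : ∀ γ₀ γ x p z m, x ∈ A γ₀ → p ∈ A γ₀ → z ∉ A γ₀ → m ∉ A γ₀ →
    x ∈ A γ → p ∈ B γ → z ∈ A γ → m ∈ B γ → False
  ord : ∀ x y, ∃ rk : Γ → ℕ, Set.InjOn rk {γ | x ∈ A γ ∧ y ∈ B γ} ∧
    ∀ γ γ' γ'', x ∈ A γ → y ∈ B γ → x ∈ A γ' → y ∈ B γ' → x ∈ A γ'' → y ∈ B γ'' →
      rk γ < rk γ' → rk γ' < rk γ'' → ∀ z, z ∉ A γ'' → z ∈ B γ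
  subL : ∀ x y γ γ', x ∈ A γ → y ∈ B γ → x ∈ A γ' → mid γ ∈ B γ' → y ∈ B γ'
  subR : ∀ x y γ γ', x ∈ A γ → y ∈ B γ → mid γ ∈ A γ' → y ∈ B γ' → x ∈ A γ'
  smul_A : ∀ (g : G) γ x, g • x ∈ A (g • γ) ↔ x ∈ A γ
  smul_B : ∀ (g : G) γ x, g • x ∈ B (g • γ) ↔ x ∈ B γ
  smul_mid : ∀ (g : G) γ, mid (g • γ) = g • mid γ
  free : ∀ (g : G) (γ : Γ), g • γ = γ → g = 1

/-- The number of gates between two points. -/
noncomputable def Gates.n {G P Γ : Type} [Group G] [MulAction G P] [MulAction G Γ]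
    (𝒢 : Gates G P Γ) (x y : P) : ℕ := {γ | x ∈ 𝒢.A γ ∧ y ∈ 𝒢.B γ}.ncard

/-- Geodesic triangles are thin. -/
def Thin {P : Type} (Y : SimpleGraph P) : Prop :=
  ∃ δ : ℕ, ∀ (x y z : P) (p : Y.Walk x y) (q : Y.Walk y z) (r : Y.Walk x z),
    p.length = Y.dist x y → q.length = Y.dist y z → r.length = Y.dist x z →
    ∀ u ∈ p.support, ∃ v, (v ∈ q.support ∨ v ∈ r.support) ∧ Y.dist u v ≤ δ

/-- The action is acylindrical. -/
def Acyl (G : Type) {P : Type} [Group G] [MulAction G P] (Y : SimpleGraph P) : Prop :=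
  ∀ ε : ℕ, ∃ R N : ℕ, ∀ x y : P, R ≤ Y.dist x y →
    {g : G | Y.dist x (g • x) ≤ ε ∧ Y.dist y (g • y) ≤ ε}.encard ≤ N

/-! ## The growth mechanism -/

/-- The data of the growth mechanism. -/
structure Mech (N m : ℕ) (G : Type) [Group G] where
  T : Fin N × Bool → Fin N × Bool → G
  Y : Fin N → Fin 3 → G
  sym : Sym T Set.univ
  sq : ∀ x r, Y x r * Y x r = 1
  fin : ∀ x, (Subgroup.closure (Set.range (Y x)) : Set G).Finite
  card : ∀ x, (Subgroup.closure (Set.range (Y x)) : Set G).ncard ≤ 2 ^ m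
  commY : ∀ x y r r', x ≠ y → Commute (Y x r) (Y y r')
  commT : ∀ c d x r, c.1 ≠ x → d.1 ≠ x → Commute (T c d) (Y x r)
  conv : ∀ i j x r, T (i, false) (j, false) * T (i, true) (j, true) * Y x r =
    Y (Equiv.swap i j x) r * (T (i, false) (j, false) * T (i, true) (j, true))

/-- The generating set with small growth. -/
def Mech.gens {N m : ℕ} {G : Type} [Group G] (μ : Mech N m G) : Set G :=
  {g | (∃ i j : Fin N, j.val = i.val + 1 ∧
        g = μ.T (i, false) (j, false) * μ.T (i, true) (j, true)) ∨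
      (∃ i : Fin N, i.val = 0 ∧ g = μ.T (i, false) (i, true)) ∨
      (∃ i j : Fin N, i.val = 0 ∧ j.val = 1 ∧ g = μ.T (i, false) (j, false)) ∨
      ∃ i : Fin N, i.val + 1 = N ∧ ∃ r, g = μ.Y i r}

/-- The framed proper blocks. -/
abbrev SV : Type := MulAction.orbit V (cons false : X → X)

/-- Adjacent blocks. -/
def adjV (s s' : SV) : Prop :=
  ∃ g : V, (s : X → X) = g • (cons false : X → X) ∧ (s' : X → X) = g • (pre [true, false] : X → X)

/-! ## The rows -/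

/-- Row SYM: facts on systems of transpositions. -/
def SpSym : Prop := ∀ (I G : Type) [DecidableEq I] [Group G] (T : I → I → G) (J : Set I),
  Sym T J →
  (∀ c ∈ J, ∀ d ∈ J, T c d = T d c) ∧
  (∀ J' ⊆ J, ∀ y, ∀ g ∈ K T J', ∃ g' ∈ K T (J' \ {y}),
    g = g' ∨ ∃ d ∈ J', d ≠ y ∧ y ∈ J' ∧ g = g' * T y d) ∧
  (∀ J' ⊆ J, J'.Finite → (K T J' : Set G).Finite) ∧
  ∀ (ν j₀ j₁ : I) (y : G), ν ∉ J → j₀ ∈ J → j₁ ∈ J → j₀ ≠ j₁ → y * y = 1 →
    y * T j₀ j₁ * y = T j₀ j₁ * y * T j₀ j₁ →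
    (∀ c ∈ J, ∀ d ∈ J, c ≠ j₀ → d ≠ j₀ → Commute y (T c d)) →
    ∃ T' : I → I → G, Sym T' (insert ν J) ∧ (∀ c ∈ J, ∀ d ∈ J, T' c d = T c d) ∧ T' j₀ ν = y

/-- Row EXT (from SYM): a system of level seven extends to all levels, uniquely. -/
def SpExt : Prop := ∀ (G : Type) [Group G],
  (∀ T : ℕ → ℕ → ℕ → G, Sys T 7 → ∃ T' : ℕ → ℕ → ℕ → G, (∀ M, Sys T' M) ∧
    ∀ n ≤ 7, ∀ c < n, ∀ d < n, T' n c d = T n c d) ∧
  ∀ T : ℕ → ℕ → ℕ → G, (∀ M, Sys T M) → ∀ L : Subgroup G, lev T 7 ⊆ L →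
    ∀ n c d, c < n → d < n → T n c d ∈ L

/-- Row TR: facts on the Cantor set. -/
def SpTr : Prop :=
  (∀ (g : Equiv.Perm X) (f f' : X → X), g * tr f f' * g⁻¹ = tr (g ∘ f) (g ∘ f')) ∧
  (∀ f f' : X → X, Good f f' →
    tr f f' = tr (f ∘ cons false) (f' ∘ cons false) * tr (f ∘ cons true) (f' ∘ cons true)) ∧
  (∀ M, Sys TV M) ∧ (∀ g ∈ V, Loc g) ∧
  (∀ n c d e, c < n → d < n → e < n → ∀ x,
    TV n c d (pre (blk n e) x) = pre (blk n (Equiv.swap c d e)) x) ∧
  (∀ n c d, c < n → d < n → ∀ x y, pre (blk n c) x = pre (blk n d) y → c = d) ∧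
  ∀ n, 1 ≤ n → ∀ z, ∃ c < n, ∃ x, z = pre (blk n c) x

/-- Row NF (from SYM, TR): the normal form. -/
def SpNf : Prop := ∀ (G : Type) [Group G] (T : ℕ → ℕ → ℕ → G) (π : G →* Equiv.Perm X),
  (∀ M, Sys T M) → (∀ n c d, c < n → d < n → π (T n c d) = TV n c d) →
  Subgroup.closure {g | ∃ n c d, c < n ∧ d < n ∧ g = T n c d} = ⊤ →
  Function.Injective π ∧ ∀ g, Loc g → g ∈ π.range

/-- Row VFP (from EXT, TR, NF). -/
def SpVfp : Prop := Group.IsFinitelyPresented V ∧ ∀ g, Loc g → g ∈ V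

/-- Row COX. -/
def SpCox : Prop := ∀ (S : Type) (adj : S → S → Prop), (∀ s s', adj s s' → adj s' s) →
  (∀ s, ¬ adj s s) → ∃ N, Coc adj N

/-- Row GATE. -/
def SpGate : Prop := ∀ (H S : Type) [Group H] [MulAction H S] (σ : Sit H S)
  (N : W σ.adj → Set (W σ.adj)), Coc σ.adj N →
  ∃ (Γ : Type) (_ : MulAction σ.GG (W σ.adj)) (_ : MulAction σ.GG Γ) (𝒢 : Gates σ.GG (W σ.adj) Γ),
    (∀ w : W σ.adj, (SemidirectProduct.inl w : σ.GG) • (1 : W σ.adj) = w) ∧
    ∀ l : List S, l.IsChain σ.cov → l.length ≤ 𝒢.n 1 (l.map (gen σ.adj)).prod + 2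

/-- Row AH. -/
def SpAh : Prop := ∀ (G P Γ : Type) [Group G] [MulAction G P] [MulAction G Γ] [Nonempty P]
  (𝒢 : Gates G P Γ), ∃ Y : SimpleGraph P, Y.Connected ∧
    (∀ (g : G) x y, Y.Adj x y → Y.Adj (g • x) (g • y)) ∧ Thin Y ∧ Acyl G Y ∧
    ∀ x y, 𝒢.n x y ≤ 7 * Y.dist x y

/-- Row GFP. -/
def SpGfp : Prop := ∀ (H S : Type) [Group H] [MulAction H S] (σ : Sit H S) (s₀ : S) (h₀ : H),
  Group.IsFinitelyPresented H → (∀ s, ∃ h : H, s = h • s₀) → (MulAction.stabilizer H s₀).FG →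
  (∀ s s', σ.adj s s' → ∃ h : H, s = h • s₀ ∧ s' = h • h₀ • s₀) → σ.adj s₀ (h₀ • s₀) →
  Group.IsFinitelyPresented σ.GG

/-- Row INV (from SYM). -/
def SpInv : Prop := ∀ (N m : ℕ) (G : Type) [Group G] (μ : Mech N m G) (Q : Finset G), 4 ≤ N →
  (Q : Set G) = μ.gens → Slow Q N m

/-- Row GEN (from SYM). -/
def SpGen : Prop := ∀ (N m : ℕ) (G : Type) [Group G] (μ : Mech N m G), 2 ≤ N →
  μ.gens.Finite ∧ (∀ c d, μ.T c d ∈ Subgroup.closure μ.gens) ∧
    ∀ x r, μ.Y x r ∈ Subgroup.closure μ.gens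

/-- Row ADJ (from TR): cones are blocks, and disjoint cones which miss a third one are adjacent. -/
def SpAdj : Prop :=
  (∀ δ : List Bool, δ ≠ [] → ∃ g : V, g • (cons false : X → X) = pre δ) ∧
  ∀ δ δ' δ'' : List Bool, Good (pre δ) (pre δ') → Good (pre δ) (pre δ'') → Good (pre δ') (pre δ'') →
    ∃ g : V, pre δ = g • (cons false : X → X) ∧ pre δ' = g • (pre [true, false] : X → X)

/-- Row SIT (from TR, VFP, ADJ). -/
def SpSit : Prop := ∃ σ : Sit V SV, σ.adj = adjV ∧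
  (∃ (s₀ : SV) (h₀ : V), (∀ s, ∃ h : V, s = h • s₀) ∧ (MulAction.stabilizer V s₀).FG ∧
    (∀ s s', σ.adj s s' → ∃ h : V, s = h • s₀ ∧ s' = h • h₀ • s₀) ∧ σ.adj s₀ (h₀ • s₀)) ∧
  ∃ q : Fin 4 → SV, ∀ i j, i ≠ j → σ.cov (q i) (q j)

/-- Row MEC (from SYM, TR, ADJ). -/
def SpMec : Prop := ∀ σ : Sit V SV, σ.adj = adjV → ∃ m : ℕ, ∀ N, 4 ≤ N →
  ∃ μ : Mech N m σ.GG, ∀ L : Subgroup σ.GG, (∀ c d, μ.T c d ∈ L) → (∀ x r, μ.Y x r ∈ L) → L = ⊤

end Pool.Agent.MP_89edc2_al.H5
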