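import Pool.Agent.MP_89edc2_al.H5.Spec

/-! Row SYM: facts on systems of transpositions. -/

namespace Pool.Agent.MP_89edc2_al.H5

namespace Symx

variable {I G : Type} [DecidableEq I] [Group G] {T : I → I → G} {J : Set I}

theorem swap_mem {c d e : I} (hc : c ∈ J) (hd : d ∈ J) (he : e ∈ J) : Equiv.swap c d e ∈ J := by
  rw [Equiv.swap_apply_def]
  split_ifs <;> assumption

theorem symm (S : Sym T J) {c d : I} (hc : c ∈ J) (hd : d ∈ J) : T c d = T d c := by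
  have := S.conj c hc d hd c hc d hd
  rwa [S.sq c hc d hd, one_mul, Equiv.swap_apply_left, Equiv.swap_apply_right] at this

theorem remove (S : Sym T J) {J' : Set I} (hJ : J' ⊆ J) (y : I) (g : G) (hg : g ∈ K T J') :
    ∃ g' ∈ K T (J' \ {y}), g = g' ∨ ∃ d ∈ J', d ≠ y ∧ y ∈ J' ∧ g = g' * T y d := by
  have mem : ∀ {k l : I}, k ∈ J' → l ∈ J' → k ≠ y → l ≠ y → T k l ∈ K T (J' \ {y}) :=
    fun hk hl ky ly => Subgroup.subset_closure ⟨_, ⟨hk, ky⟩, _, ⟨hl, ly⟩, rfl⟩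
  have s1 : y ∈ J' → ∀ x : G, (∃ g' ∈ K T (J' \ {y}), x = g' ∨
      ∃ d ∈ J', d ≠ y ∧ y ∈ J' ∧ x = g' * T y d) → ∀ l ∈ J', ∃ g' ∈ K T (J' \ {y}),
        x * T y l = g' ∨ ∃ d ∈ J', d ≠ y ∧ y ∈ J' ∧ x * T y l = g' * T y d := by
    intro hy x hx l hl
    by_cases ly : l = y
    · rwa [ly, S.diag y (hJ hy), mul_one]
    obtain ⟨g', hg', rfl | ⟨d, dJ, dy, -, rfl⟩⟩ := hx
    · exact ⟨x, hg', Or.inr ⟨l, hl, ly, hy, rfl⟩⟩
    · by_cases e : l = d
      · subst e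
        exact ⟨g', hg', Or.inl (by rw [mul_assoc, S.sq y (hJ hy) l (hJ hl), mul_one])⟩
      · refine ⟨g' * T d l, mul_mem hg' (mem dJ hl dy ly), Or.inr ⟨d, dJ, dy, hy, ?_⟩⟩
        have := S.conj y (hJ hy) d (hJ dJ) y (hJ hy) l (hJ hl)
        rw [Equiv.swap_apply_left, Equiv.swap_apply_of_ne_of_ne ly e] at this
        rw [← this]
        simp only [mul_assoc, S.sq y (hJ hy) d (hJ dJ), mul_one]
  have step : ∀ x : G, (∃ g' ∈ K T (J' \ {y}), x = g' ∨
      ∃ d ∈ J', d ≠ y ∧ y ∈ J' ∧ x = g' * T y d) → ∀ k ∈ J', ∀ l ∈ J', ∃ g' ∈ K T (J' \ {y}),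
        x * T k l = g' ∨ ∃ d ∈ J', d ≠ y ∧ y ∈ J' ∧ x * T k l = g' * T y d := by
    intro x hx k hk l hl
    by_cases ky : k = y
    · subst ky
      exact s1 hk x hx l hl
    by_cases ly : l = y
    · subst ly
      rw [symm S (hJ hk) (hJ hl)]
      exact s1 hl x hx k hk
    obtain ⟨g', hg', rfl | ⟨d, dJ, dy, hy, rfl⟩⟩ := hx
    · exact ⟨_, mul_mem hg' (mem hk hl ky ly), Or.inl rfl⟩
    · have e := Equiv.swap_apply_of_ne_of_ne (Ne.symm ky) (Ne.symm ly)
      refine ⟨g' * T k l, mul_mem hg' (mem hk hl ky ly), Or.inr ⟨Equiv.swap k l d,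
        swap_mem hk hl dJ, fun h => dy ((Equiv.swap k l).injective (h.trans e.symm)), hy, ?_⟩⟩
      have := S.conj k (hJ hk) l (hJ hl) y (hJ hy) d (hJ dJ)
      rw [e] at this
      rw [← this]
      simp only [← mul_assoc]
      rw [mul_assoc g' (T k l), S.sq k (hJ hk) l (hJ hl), mul_one]
  unfold K at hg
  induction hg using Subgroup.closure_induction_right with
  | one => exact ⟨1, one_mem _, Or.inl rfl⟩
  | mul_right x _ z hz ih =>
    obtain ⟨k, hk, l, hl, rfl⟩ := hz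
    exact step x ih k hk l hl
  | mul_inv_cancel x _ z hz ih =>
    obtain ⟨k, hk, l, hl, rfl⟩ := hz
    rw [inv_eq_of_mul_eq_one_right (S.sq k (hJ hk) l (hJ hl))]
    exact step x ih k hk l hl

theorem fin (S : Sym T J) {J' : Set I} (hf : J'.Finite) : J' ⊆ J → (K T J' : Set G).Finite := by
  induction J', hf using Set.Finite.induction_on with
  | empty =>
    have : K T (∅ : Set I) = ⊥ := by simp [K]
    rw [this]
    exact fun _ => Set.finite_singleton _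
  | @insert y s hy hs ih =>
    intro h
    have i := ih ((Set.subset_insert y s).trans h)
    refine (i.union ((hs.insert y).biUnion fun d _ => i.image fun g => g * T y d)).subset ?_
    intro g hg
    obtain ⟨g', hg', h⟩ := remove S h y g hg
    rw [Set.insert_sdiff_self_of_notMem hy] at hg'
    rcases h with rfl | ⟨d, hd, -, -, rfl⟩
    · exact Or.inl hg'
    · exact Or.inr (Set.mem_biUnion hd ⟨g', hg', rfl⟩)

theorem cj {a b : G} (ha : a * a = 1) (h : Commute b a) : a * b * a = b := by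
  rw [← h.eq, mul_assoc, ha, mul_one]

theorem cj3 {u : G} (hu : u * u = 1) (a b c : G) :
    u * a * u * (u * b * u) * (u * c * u) = u * (a * b * c) * u := by
  have e : ∀ x, u * (u * x) = x := fun x => by rw [← mul_assoc, hu, one_mul]
  simp only [mul_assoc, e]

section Ext

variable {j₀ j₁ : I} {y : G}

theorem braid (S : Sym T J) (h₀ : j₀ ∈ J) (h₁ : j₁ ∈ J) (hn : j₀ ≠ j₁)
    (hb : y * T j₀ j₁ * y = T j₀ j₁ * y * T j₀ j₁)
    (hc : ∀ c ∈ J, ∀ d ∈ J, c ≠ j₀ → d ≠ j₀ → Commute y (T c d)) {j : I} (hj : j ∈ J)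
    (hj₀ : j ≠ j₀) : y * T j₀ j * y = T j₀ j * y * T j₀ j := by
  have s := S.sq j₁ h₁ j hj
  have e := S.conj j₁ h₁ j hj j₀ h₀ j₁ h₁
  rw [Equiv.swap_apply_left, Equiv.swap_apply_of_ne_of_ne hn hj₀.symm] at e
  have := congrArg (fun x => T j₁ j * x * T j₁ j) hb
  simpa only [← cj3 s, e, cj s (hc j₁ h₁ j hj hn.symm hj₀)] using this

theorem move (S : Sym T J) (h₀ : j₀ ∈ J)
    (hc : ∀ c ∈ J, ∀ d ∈ J, c ≠ j₀ → d ≠ j₀ → Commute y (T c d)) {c d e : I} (h1 : c ∈ J)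
    (h2 : d ∈ J) (h3 : e ∈ J) : T c d * (T j₀ e * y * T j₀ e) * T c d =
      T j₀ (Equiv.swap c d e) * y * T j₀ (Equiv.swap c d e) := by
  have k : ∀ d ∈ J, T j₀ d * (T j₀ e * y * T j₀ e) * T j₀ d =
      T j₀ (Equiv.swap j₀ d e) * y * T j₀ (Equiv.swap j₀ d e) := fun d hd => by
    by_cases d0 : d = j₀
    · rw [d0, S.diag j₀ h₀, Equiv.swap_self, one_mul, mul_one, Equiv.refl_apply]
    by_cases e0 : e = j₀
    · rw [e0, S.diag j₀ h₀, one_mul, mul_one, Equiv.swap_apply_left]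
    by_cases ed : e = d
    · rw [ed, Equiv.swap_apply_right, S.diag j₀ h₀, ← mul_assoc, ← mul_assoc, S.sq j₀ h₀ d hd,
        mul_assoc, S.sq j₀ h₀ d hd]
    have s := S.sq j₀ h₀ e h3
    have a := S.conj j₀ h₀ e h3 e h3 d hd
    rw [Equiv.swap_apply_right, Equiv.swap_apply_of_ne_of_ne d0 (Ne.symm ed)] at a
    rw [Equiv.swap_apply_of_ne_of_ne e0 ed, ← a, cj3 s, cj (S.sq e h3 d hd) (hc e h3 d hd e0 d0)]
  by_cases c0 : c = j₀
  · exact c0 ▸ k d h2
  by_cases d0 : d = j₀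
  · rw [symm S h1 h2, Equiv.swap_comm]
    exact d0 ▸ k c h1
  have s := S.sq c h1 d h2
  rw [← cj3 s, S.conj c h1 d h2 j₀ h₀ e h3, cj s (hc c h1 d h2 c0 d0),
    Equiv.swap_apply_of_ne_of_ne (Ne.symm c0) (Ne.symm d0)]

end Ext

/-- Adding one label. -/
theorem ext (S : Sym T J) {ν : I} (hν : ν ∉ J) (Y : I → G) (y1 : ∀ c ∈ J, Y c * Y c = 1)
    (y2 : ∀ c ∈ J, ∀ d ∈ J, ∀ e ∈ J, T c d * Y e * T c d = Y (Equiv.swap c d e))
    (y3 : ∀ c ∈ J, ∀ e ∈ J, e ≠ c → Y c * T c e * Y c = Y e) :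
    ∃ T' : I → I → G, Sym T' (insert ν J) ∧ (∀ c ∈ J, ∀ d ∈ J, T' c d = T c d) ∧
      ∀ c ∈ J, T' c ν = Y c := by
  obtain ⟨T', t0, t1, t2, t3⟩ : ∃ T' : I → I → G, T' ν ν = 1 ∧ (∀ c ∈ J, T' c ν = Y c) ∧
      (∀ c ∈ J, T' ν c = Y c) ∧ ∀ c ∈ J, ∀ d ∈ J, T' c d = T c d := by
    have n : ∀ c ∈ J, c ≠ ν := fun c hc e => hν (e ▸ hc)
    exact ⟨fun c d => if c = ν then (if d = ν then 1 else Y d) else if d = ν then Y c else T c d,
      by simp, fun c hc => by simp [n c hc], fun c hc => by simp [n c hc],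
      fun c hc d hd => by simp [n c hc, n d hd]⟩
  have n : ∀ c ∈ J, ν ≠ c := fun c hc e => hν (e ▸ hc)
  have y4 : ∀ c ∈ J, ∀ e ∈ J, e ≠ c → Y c * Y e * Y c = T c e := fun c hc e he h => by
    rw [← y3 c hc e he h, ← mul_assoc, ← mul_assoc, y1 c hc, one_mul, mul_assoc, y1 c hc, mul_one]
  have y5 : ∀ c ∈ J, ∀ d ∈ J, ∀ e ∈ J, d ≠ c → e ≠ c → Y c * T d e * Y c = T d e :=
    fun c hc d hd e he h h' => by
      have := y2 d hd e he c hc
      rw [Equiv.swap_apply_of_ne_of_ne h.symm h'.symm] at this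
      refine cj (y1 c hc) ?_
      rw [Commute, SemiconjBy, ← mul_left_inj (T d e), this, mul_assoc, S.sq d hd e he, mul_one]
  have cY : ∀ c ∈ J, ∀ e ∈ insert ν J, ∀ f ∈ insert ν J,
      Y c * T' e f * Y c = T' (Equiv.swap c ν e) (Equiv.swap c ν f) := by
    intro c hc e he f hf
    have o : ∀ e ∈ J, e ≠ c → Equiv.swap c ν e = e := fun e he h =>
      Equiv.swap_apply_of_ne_of_ne h (n e he).symm
    rcases he with rfl | he <;> rcases hf with rfl | hf
    · rw [t0, mul_one, y1 c hc, Equiv.swap_apply_right, t3 c hc c hc, S.diag c hc]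
    · rw [t2 f hf, Equiv.swap_apply_right]
      by_cases h : f = c
      · rw [h, y1 c hc, one_mul, Equiv.swap_apply_left, t1 c hc]
      · rw [y4 c hc f hf h, o f hf h, t3 c hc f hf]
    · rw [t1 e he, Equiv.swap_apply_right]
      by_cases h : e = c
      · rw [h, y1 c hc, one_mul, Equiv.swap_apply_left, t2 c hc]
      · rw [y4 c hc e he h, o e he h, t3 e he c hc, symm S hc he]
    · rw [t3 e he f hf]
      by_cases h : e = c <;> by_cases h' : f = c
      · rw [h, h', S.diag c hc, mul_one, y1 c hc, Equiv.swap_apply_left, t0]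
      · rw [h, y3 c hc f hf h', Equiv.swap_apply_left, o f hf h', t2 f hf]
      · rw [h', symm S he hc, y3 c hc e he h, Equiv.swap_apply_left, o e he h, t1 e he]
      · rw [y5 c hc e he f hf h h', o e he h, o f hf h', t3 e he f hf]
  refine ⟨T', ⟨?_, ?_, ?_⟩, t3, t1⟩
  · rintro c (rfl | hc)
    · exact t0
    · rw [t3 c hc c hc, S.diag c hc]
  · rintro c (rfl | hc) d (rfl | hd)
    · rw [t0, mul_one]
    · rw [t2 d hd, y1 d hd]
    · rw [t1 c hc, y1 c hc]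
    · rw [t3 c hc d hd, S.sq c hc d hd]
  · rintro c (rfl | hc) d (rfl | hd) e he f hf
    · rw [t0, one_mul, mul_one, Equiv.swap_self, Equiv.refl_apply, Equiv.refl_apply]
    · rw [t2 d hd, Equiv.swap_comm, cY d hd e he f hf]
    · rw [t1 c hc, cY c hc e he f hf]
    · have o := Equiv.swap_apply_of_ne_of_ne (n c hc) (n d hd)
      rw [t3 c hc d hd]
      rcases he with rfl | he <;> rcases hf with rfl | hf
      · rw [o, t0, mul_one, S.sq c hc d hd]
      · rw [o, t2 f hf, t2 _ (swap_mem hc hd hf), y2 c hc d hd f hf]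
      · rw [o, t1 e he, t1 _ (swap_mem hc hd he), y2 c hc d hd e he]
      · rw [t3 e he f hf, t3 _ (swap_mem hc hd he) _ (swap_mem hc hd hf), S.conj c hc d hd e he f hf]

end Symx

open Symx in
theorem sym_main : SpSym := by
  intro I G _ _ T J S
  refine ⟨fun c hc d hd => symm S hc hd, fun J' h y g hg => remove S h y g hg,
    fun J' h hf => fin S hf h, fun ν j₀ j₁ y hν h₀ h₁ hn hy hb hc => ?_⟩
  obtain ⟨T', t1, t2, t3⟩ := ext S hν (fun c => T j₀ c * y * T j₀ c) (fun c h => by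
      have := cj3 (S.sq j₀ h₀ c h) y 1 y
      simpa only [mul_one, hy, S.sq j₀ h₀ c h] using this)
    (fun c h1 d h2 e h3 => move S h₀ hc h1 h2 h3) fun c h1 e h2 h => by
      have m := swap_mem h₀ h1 h2
      have a := S.conj j₀ h₀ c h1 j₀ h₀ _ m
      rw [Equiv.swap_apply_left, Equiv.swap_apply_self] at a
      have b := move S h₀ hc h₀ h1 m
      rw [Equiv.swap_apply_self] at b
      rw [← a, cj3 (S.sq j₀ h₀ c h1), braid S h₀ h₁ hn hb hc m fun e0 =>
        h ((Equiv.swap j₀ c).injective (e0.trans (Equiv.swap_apply_right _ _).symm)), b]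
  exact ⟨T', t1, t2, by rw [t3 j₀ h₀, S.diag j₀ h₀, one_mul, mul_one]⟩

end Pool.Agent.MP_89edc2_al.H5
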