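import Pool.Agent.MP_89edc2_al.H5.Spec

/-!
Facts on the Cantor set and on the transpositions of cones.
-/

namespace Pool.Agent.MP_89edc2_al.H5

namespace Trx

theorem pre_append (α β : List Bool) (x : X) : pre (α ++ β) x = pre α (pre β x) := by
  induction α with
  | nil => rfl
  | cons b α ih => simp only [List.cons_append, pre, ih]

theorem cons_inj {b c : Bool} {x y : X} (h : cons b x = cons c y) : b = c ∧ x = y :=
  ⟨congrFun h 0, funext fun n => congrFun h (n + 1)⟩

theorem cons_eta (x : X) : x = cons (x 0) fun n => x (n + 1) := by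
  funext n
  cases n <;> rfl

theorem pre_inj (α : List Bool) : Function.Injective (pre α) := by
  induction α with
  | nil => exact fun _ _ h => h
  | cons b α ih => exact fun x y h => ih (cons_inj h).2

theorem pre_prefix {α γ : List Bool} {x y : X} (hl : α.length ≤ γ.length)
    (h : pre α x = pre γ y) : ∃ δ, γ = α ++ δ := by
  induction α generalizing γ with
  | nil => exact ⟨γ, rfl⟩
  | cons b α ih =>
    cases γ with
    | nil => simp at hl
    | cons c γ =>
      obtain ⟨rfl, h2⟩ := cons_inj h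
      obtain ⟨δ, rfl⟩ := ih (by simpa using hl) h2
      exact ⟨δ, rfl⟩

theorem tr_left {f f' : X → X} (h : Good f f') (x : X) : tr f f' (f x) = f' x := by
  rw [tr, dif_pos h]
  exact trf_left h x

theorem tr_right {f f' : X → X} (h : Good f f') (x : X) : tr f f' (f' x) = f x := by
  rw [tr, dif_pos h]
  exact trf_right h x

theorem tr_other {f f' : X → X} {z : X} (h : ∀ x, f x ≠ z) (h' : ∀ x, f' x ≠ z) :
    tr f f' z = z := by
  unfold tr
  split_ifs with hg
  · exact trf_other h h'
  · rfl

theorem tr_bad {f f' : X → X} (h : ¬ Good f f') : tr f f' = 1 := by rw [tr, dif_neg h]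

theorem tr_self (f : X → X) : tr f f = 1 :=
  tr_bad fun h => h.2.2 (fun _ => true) _ rfl

theorem tr_sq (f f' : X → X) : tr f f' * tr f f' = 1 := by
  by_cases h : Good f f'
  · rw [tr, dif_pos h]
    exact Equiv.ext fun z => trf_invol h z
  · rw [tr_bad h, one_mul]

theorem tr_inv (f f' : X → X) : (tr f f')⁻¹ = tr f f' := inv_eq_of_mul_eq_one_right (tr_sq f f')

/-- the three kinds of values determine the permutation -/
theorem eq_tr {f f' : X → X} (h : Good f f') {g : Equiv.Perm X} (h1 : ∀ x, g (f x) = f' x)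
    (h2 : ∀ x, g (f' x) = f x) (h3 : ∀ z, (∀ x, f x ≠ z) → (∀ x, f' x ≠ z) → g z = z) :
    g = tr f f' := by
  refine Equiv.ext fun z => ?_
  by_cases e1 : ∃ x, f x = z
  · obtain ⟨x, rfl⟩ := e1
    rw [h1, tr_left h]
  by_cases e2 : ∃ x, f' x = z
  · obtain ⟨x, rfl⟩ := e2
    rw [h2, tr_right h]
  push Not at e1 e2
  rw [h3 z e1 e2, tr_other e1 e2]

theorem good_comp (g : Equiv.Perm X) {f f' : X → X} : Good (g ∘ f) (g ∘ f') ↔ Good f f' :=
  ⟨fun h => ⟨h.1.of_comp, h.2.1.of_comp, fun x y e => h.2.2 x y (congrArg g e)⟩,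
    fun h => ⟨g.injective.comp h.1, g.injective.comp h.2.1,
      fun x y e => h.2.2 x y (g.injective e)⟩⟩

theorem conj (g : Equiv.Perm X) (f f' : X → X) : g * tr f f' * g⁻¹ = tr (g ∘ f) (g ∘ f') := by
  by_cases h : Good f f'
  · refine eq_tr ((good_comp g).2 h) (fun x => ?_) (fun x => ?_) fun z h1 h2 => ?_
    · simp [tr_left h]
    · simp [tr_right h]
    · have e : tr f f' (g⁻¹ z) = g⁻¹ z :=
        tr_other (fun x e => h1 x (by simp [e])) fun x e => h2 x (by simp [e])
      rw [Equiv.Perm.mul_apply, Equiv.Perm.mul_apply, e]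
      simp
  · rw [tr_bad h, tr_bad fun h' => h ((good_comp g).1 h'), mul_one, mul_inv_cancel]

theorem good_cons {f f' : X → X} (h : Good f f') (b : Bool) : Good (f ∘ cons b) (f' ∘ cons b) :=
  ⟨fun _ _ e => (cons_inj (h.1 e)).2, fun _ _ e => (cons_inj (h.2.1 e)).2, fun _ _ => h.2.2 _ _⟩

theorem split {f f' : X → X} (h : Good f f') :
    tr f f' = tr (f ∘ cons false) (f' ∘ cons false) * tr (f ∘ cons true) (f' ∘ cons true) := by
  have o1 : ∀ b c : Bool, b ≠ c → ∀ y,
      tr (f ∘ cons b) (f' ∘ cons b) (f (cons c y)) = f (cons c y) := fun b c hbc y =>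
    tr_other (fun x e => hbc (cons_inj (h.1 e)).1) fun x e => h.2.2 _ _ (Eq.symm e)
  have o2 : ∀ b c : Bool, b ≠ c → ∀ y,
      tr (f ∘ cons b) (f' ∘ cons b) (f' (cons c y)) = f' (cons c y) := fun b c hbc y =>
    tr_other (fun x e => h.2.2 _ _ e) fun x e => hbc (cons_inj (h.2.1 e)).1
  have l : ∀ (b : Bool) y, tr (f ∘ cons b) (f' ∘ cons b) (f (cons b y)) = f' (cons b y) :=
    fun b y => tr_left (good_cons h b) y
  have r : ∀ (b : Bool) y, tr (f ∘ cons b) (f' ∘ cons b) (f' (cons b y)) = f (cons b y) :=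
    fun b y => tr_right (good_cons h b) y
  refine (eq_tr h (fun x => ?_) (fun x => ?_) fun z h1 h2 => ?_).symm
  · rw [cons_eta x, Equiv.Perm.mul_apply]
    cases x 0
    · rw [o1 true false (by simp), l]
    · rw [l, o2 false true (by simp)]
  · rw [cons_eta x, Equiv.Perm.mul_apply]
    cases x 0
    · rw [o2 true false (by simp), r]
    · rw [r, o1 false true (by simp)]
  · have o : ∀ b : Bool, tr (f ∘ cons b) (f' ∘ cons b) z = z := fun b =>
      tr_other (fun x => h1 _) fun x => h2 _
    rw [Equiv.Perm.mul_apply, o, o]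

theorem loc_one : Loc 1 := ⟨0, fun α _ => ⟨α, fun _ => rfl⟩⟩

theorem loc_mul {g h : Equiv.Perm X} (hg : Loc g) (hh : Loc h) : Loc (g * h) := by
  obtain ⟨k, hk⟩ := hg
  obtain ⟨l, hl⟩ := hh
  refine ⟨l + k, fun α hα => ?_⟩
  obtain ⟨β, hβ⟩ := hl (α.take l) (by rw [List.length_take]; omega)
  obtain ⟨γ, hγ⟩ := hk (β ++ α.drop l) (by rw [List.length_append, List.length_drop]; omega)
  refine ⟨γ, fun x => ?_⟩
  rw [Equiv.Perm.mul_apply, ← List.take_append_drop l α, pre_append, hβ, ← pre_append, hγ]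

theorem loc_tr (α β : List Bool) : Loc (tr (pre α) (pre β)) := by
  by_cases h : Good (pre α) (pre β)
  · refine ⟨α.length + β.length, fun γ hγ => ?_⟩
    by_cases h1 : ∃ δ, γ = α ++ δ
    · obtain ⟨δ, rfl⟩ := h1
      exact ⟨β ++ δ, fun x => by rw [pre_append, pre_append, tr_left h]⟩
    by_cases h2 : ∃ δ, γ = β ++ δ
    · obtain ⟨δ, rfl⟩ := h2
      exact ⟨α ++ δ, fun x => by rw [pre_append, pre_append, tr_right h]⟩
    exact ⟨γ, fun x => tr_other (fun y e => h1 (pre_prefix (by omega) e))
      fun y e => h2 (pre_prefix (by omega) e)⟩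
  · rw [tr_bad h]
    exact loc_one

theorem loc_V (g : Equiv.Perm X) (hg : g ∈ V) : Loc g := by
  induction hg using Subgroup.closure_induction'' with
  | mem x hx =>
    obtain ⟨α, β, rfl⟩ := hx
    exact loc_tr α β
  | inv_mem x hx =>
    obtain ⟨α, β, rfl⟩ := hx
    rw [tr_inv]
    exact loc_tr α β
  | one => exact loc_one
  | mul x y _ _ hx hy => exact loc_mul hx hy

theorem rep_lt {k i : ℕ} (h : i < k) (x : X) : pre (List.replicate k true) x i = true := by
  induction k generalizing i with
  | zero => omega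
  | succ k ih =>
    cases i with
    | zero => rfl
    | succ i => exact ih (by omega)

theorem rep_eq (k : ℕ) (x : X) : pre (List.replicate k true) x k = x 0 := by
  induction k with
  | zero => rfl
  | succ k ih => exact ih

theorem blk_zero (n : ℕ) : blk n 0 = List.replicate (n - 1) true := if_pos rfl

theorem blk_succ (n c : ℕ) : blk n (c + 1) = List.replicate c true ++ [false] :=
  if_neg (Nat.succ_ne_zero c)

theorem blk_false (n c : ℕ) (x : X) : pre (blk n (c + 1)) x c = false := by
  rw [blk_succ, pre_append, rep_eq]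
  rfl

theorem blk_true {n c i : ℕ} (h : i < c) (x : X) : pre (blk n (c + 1)) x i = true := by
  rw [blk_succ, pre_append, rep_lt h]

theorem blk_disj (n c d : ℕ) (hc : c < n) (hd : d < n) (x y : X)
    (h : pre (blk n c) x = pre (blk n d) y) : c = d := by
  by_contra hne
  cases c with
  | zero =>
    cases d with
    | zero => exact hne rfl
    | succ d =>
      have := congrFun h d
      rw [blk_false, blk_zero, rep_lt (by omega)] at this
      simp at this
  | succ c =>
    cases d with
    | zero =>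
      have := congrFun h c
      rw [blk_false, blk_zero, rep_lt (by omega)] at this
      simp at this
    | succ d =>
      rcases Nat.lt_or_gt_of_ne hne with e | e
      · have := congrFun h c
        rw [blk_false, blk_true (by omega)] at this
        simp at this
      · have := congrFun h d
        rw [blk_false, blk_true (by omega)] at this
        simp at this

theorem blk_good {n c d : ℕ} (hc : c < n) (hd : d < n) (h : c ≠ d) :
    Good (pre (blk n c)) (pre (blk n d)) :=
  ⟨pre_inj _, pre_inj _, fun x y e => h (blk_disj n c d hc hd x y e)⟩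

theorem tv_apply (n c d e : ℕ) (hc : c < n) (hd : d < n) (he : e < n) (x : X) :
    TV n c d (pre (blk n e) x) = pre (blk n (Equiv.swap c d e)) x := by
  unfold TV
  by_cases h : c = d
  · subst h
    rw [tr_self, Equiv.swap_self]
    rfl
  by_cases h1 : e = c
  · subst h1
    rw [Equiv.swap_apply_left, tr_left (blk_good hc hd h)]
  by_cases h2 : e = d
  · subst h2
    rw [Equiv.swap_apply_right, tr_right (blk_good hc hd h)]
  rw [Equiv.swap_apply_of_ne_of_ne h1 h2]
  exact tr_other (fun y e' => h1 (blk_disj n c e hc he y x e').symm)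
    fun y e' => h2 (blk_disj n d e hd he y x e').symm

theorem tv_comp (n c d e : ℕ) (hc : c < n) (hd : d < n) (he : e < n) :
    TV n c d ∘ pre (blk n e) = pre (blk n (Equiv.swap c d e)) :=
  funext fun x => tv_apply n c d e hc hd he x

theorem tv_conj (n c d : ℕ) (f f' : X → X) :
    TV n c d * tr f f' * TV n c d = tr (TV n c d ∘ f) (TV n c d ∘ f') := by
  rw [← conj, TV, tr_inv]

theorem rep_cover (k : ℕ) (z : X) : (∃ x, z = pre (List.replicate k true) x) ∨
    ∃ j < k, ∃ x, z = pre (List.replicate j true ++ [false]) x := by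
  induction k with
  | zero => exact Or.inl ⟨z, rfl⟩
  | succ k ih =>
    rcases ih with ⟨x, rfl⟩ | ⟨j, hj, x, rfl⟩
    · rw [cons_eta x]
      cases x 0
      · exact Or.inr ⟨k, Nat.lt_succ_self k, _, by rw [pre_append]; rfl⟩
      · exact Or.inl ⟨_, by rw [List.replicate_succ', pre_append]; rfl⟩
    · exact Or.inr ⟨j, by omega, x, rfl⟩

theorem cover (n : ℕ) (hn : 1 ≤ n) (z : X) : ∃ c < n, ∃ x, z = pre (blk n c) x := by
  rcases rep_cover (n - 1) z with ⟨x, rfl⟩ | ⟨j, hj, x, rfl⟩
  · exact ⟨0, hn, x, by rw [blk_zero]⟩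
  · exact ⟨j + 1, by omega, x, by rw [blk_succ]⟩

theorem pre_cons (α : List Bool) (b : Bool) : pre α ∘ cons b = pre (α ++ [b]) :=
  funext fun x => (pre_append α [b] x).symm

theorem cube (m : ℕ) :
    TV (m + 2 + 1) 0 1 * TV (m + 2) 0 1 * TV (m + 2 + 1) 0 1 =
      TV (m + 2 + 2) (m + 2) (m + 2 + 1) * TV (m + 2 + 2) 1 0 := by
  have g : Good (TV (m + 2 + 1) 0 1 ∘ pre (blk (m + 2) 0))
      (TV (m + 2 + 1) 0 1 ∘ pre (blk (m + 2) 1)) :=
    (good_comp _).2 (blk_good (by omega) (by omega) (by omega))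
  have e1 : TV (m + 2 + 1) 0 1 ∘ pre (blk (m + 2) 1) = pre (List.replicate (m + 2) true) := by
    have := tv_comp (m + 2 + 1) 0 1 1 (by omega) (by omega) (by omega)
    rw [Equiv.swap_apply_right] at this
    exact this
  have e2 : (TV (m + 2 + 1) 0 1 ∘ pre (blk (m + 2) 0)) ∘ cons false =
      pre (blk (m + 2 + 2) (m + 2)) := by
    have := tv_comp (m + 2 + 1) 0 1 (m + 2) (by omega) (by omega) (by omega)
    rw [Equiv.swap_apply_of_ne_of_ne (by omega) (by omega)] at this
    rw [Function.comp_assoc, pre_cons]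
    exact this
  have e3 : (TV (m + 2 + 1) 0 1 ∘ pre (blk (m + 2) 0)) ∘ cons true =
      pre (blk (m + 2 + 2) 1) := by
    have := tv_comp (m + 2 + 1) 0 1 0 (by omega) (by omega) (by omega)
    rw [Equiv.swap_apply_left] at this
    rw [Function.comp_assoc, pre_cons, blk_zero, ← List.replicate_succ']
    exact this
  have e4 : pre (List.replicate (m + 2) true) ∘ cons false =
      pre (blk (m + 2 + 2) (m + 2 + 1)) := by rw [pre_cons, blk_succ]
  have e5 : pre (List.replicate (m + 2) true) ∘ cons true = pre (blk (m + 2 + 2) 0) := by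
    rw [pre_cons, blk_zero, ← List.replicate_succ']
    rfl
  have e0 : TV (m + 2) 0 1 = tr (pre (blk (m + 2) 0)) (pre (blk (m + 2) 1)) := rfl
  rw [e0, tv_conj, split g, e2, e3, e1, e4, e5]
  rfl

theorem sys (M : ℕ) : Sys TV M where
  sym n _ :=
    { diag := fun c _ => tr_self _
      sq := fun c _ d _ => tr_sq _ _
      conj := fun c hc d hd e he f hf => by
        have e0 : TV n e f = tr (pre (blk n e)) (pre (blk n f)) := rfl
        rw [e0, tv_conj, tv_comp n c d e hc hd he, tv_comp n c d f hc hd hf]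
        rfl }
  stab n _ c d hc _ hd _ := by
    obtain ⟨c, rfl⟩ := Nat.exists_eq_add_of_le' hc
    obtain ⟨d, rfl⟩ := Nat.exists_eq_add_of_le' hd
    simp only [TV, blk_succ]
  cube n hn _ := by
    obtain ⟨m, rfl⟩ := Nat.exists_eq_add_of_le' hn
    exact cube m

end Trx

theorem tr_main : SpTr :=
  ⟨Trx.conj, fun _ _ h => Trx.split h, Trx.sys, Trx.loc_V, Trx.tv_apply, Trx.blk_disj, Trx.cover⟩

end Pool.Agent.MP_89edc2_al.H5
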