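import Pool.Agent.MP_89edc2_al.H5.Spec

/-! Row VFP: Thompson's group `V` is finitely presented. -/

namespace Pool.Agent.MP_89edc2_al.H5

namespace Vfpx

/-- The labels of the generators. -/
abbrev A : Type := {p : Fin 8 × Fin 8 × Fin 8 // p.2.1 < p.1 ∧ p.2.2 < p.1}

/-- The values of the generators. -/
noncomputable def tv (a : A) : Equiv.Perm X := TV a.1.1 a.1.2.1 a.1.2.2

/-- The short relations. -/
def R : Set (FreeGroup A) := {r | r.norm ≤ 5 ∧ FreeGroup.lift tv r = 1}

theorem R_fin : R.Finite := by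
  refine Set.Finite.of_finite_image (f := FreeGroup.toWord) ?_ FreeGroup.toWord_injective.injOn
  refine (List.finite_length_le (A × Bool) 5).subset ?_
  rintro _ ⟨r, hr, rfl⟩
  exact hr.1

/-- The generators of the free group. -/
def F (n c d : ℕ) : FreeGroup A :=
  if h : n ≤ 7 ∧ c < n ∧ d < n then
    FreeGroup.of ⟨(⟨n, by omega⟩, ⟨c, by omega⟩, ⟨d, by omega⟩), h.2.1, h.2.2⟩ else 1

theorem F_norm (n c d : ℕ) : (F n c d).norm ≤ 1 := by
  unfold F
  split_ifs
  · rw [FreeGroup.norm_of]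
  · rw [FreeGroup.norm_one]; exact zero_le_one

theorem F_ev {n c d : ℕ} (hn : n ≤ 7) (hc : c < n) (hd : d < n) :
    FreeGroup.lift tv (F n c d) = TV n c d := by
  rw [F, dif_pos ⟨hn, hc, hd⟩, FreeGroup.lift_apply_of]
  rfl

theorem F_of (a : A) : F a.1.1 a.1.2.1 a.1.2.2 = FreeGroup.of a := by
  have h := a.1.1.2
  rw [F, dif_pos ⟨by omega, a.2.1, a.2.2⟩]

theorem key {u v : FreeGroup A} (hn : u.norm + v.norm ≤ 5)
    (he : FreeGroup.lift tv u = FreeGroup.lift tv v) :
    PresentedGroup.mk R u = PresentedGroup.mk R v := by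
  refine PresentedGroup.mk_eq_mk_of_mul_inv_mem ⟨?_, ?_⟩
  · refine (FreeGroup.norm_mul_le _ _).trans ?_
    rwa [FreeGroup.norm_inv_eq]
  · rw [map_mul, map_inv, he, mul_inv_cancel]

theorem norm2 (n c d n' c' d' : ℕ) : (F n c d * F n' c' d').norm ≤ 2 :=
  (FreeGroup.norm_mul_le _ _).trans (add_le_add (F_norm _ _ _) (F_norm _ _ _))

theorem norm3 (n c d n' c' d' n'' c'' d'' : ℕ) :
    (F n c d * F n' c' d' * F n'' c'' d'').norm ≤ 3 :=
  (FreeGroup.norm_mul_le _ _).trans (add_le_add (norm2 _ _ _ _ _ _) (F_norm _ _ _))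

theorem swap_lt {n c d e : ℕ} (hc : c < n) (hd : d < n) (he : e < n) : Equiv.swap c d e < n := by
  rw [Equiv.swap_apply_def]
  split_ifs <;> assumption

theorem sys7 (h : Sys TV 7) : Sys (fun n c d => PresentedGroup.mk R (F n c d)) 7 := by
  refine ⟨fun n hn => ⟨fun c hc => ?_, fun c hc d hd => ?_, fun c hc d hd e he f hf => ?_⟩,
    fun n hn c d h1 h2 h3 h4 => ?_, fun n h1 h2 => ?_⟩
  · rw [← map_one (PresentedGroup.mk R)]
    refine key ?_ ?_
    · have := F_norm n c c
      rw [FreeGroup.norm_one]; omega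
    · rw [F_ev hn hc hc, map_one]
      exact (h.sym n hn).diag c hc
  · rw [← map_mul, ← map_one (PresentedGroup.mk R)]
    refine key ?_ ?_
    · have := norm2 n c d n c d
      rw [FreeGroup.norm_one]; omega
    · rw [map_mul, F_ev hn hc hd, map_one]
      exact (h.sym n hn).sq c hc d hd
  · rw [← map_mul, ← map_mul]
    refine key ?_ ?_
    · have h1 := norm3 n c d n e f n c d
      have h2 := F_norm n (Equiv.swap c d e) (Equiv.swap c d f)
      omega
    · rw [map_mul, map_mul, F_ev hn hc hd, F_ev hn he hf,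
        F_ev hn (swap_lt hc hd he) (swap_lt hc hd hf)]
      exact (h.sym n hn).conj c hc d hd e he f hf
  · refine key ?_ ?_
    · have h5 := F_norm (n + 1) c d
      have h6 := F_norm n c d
      omega
    · rw [F_ev hn (by omega) (by omega), F_ev (by omega) h2 h4]
      exact h.stab n hn c d h1 h2 h3 h4
  · rw [← map_mul, ← map_mul, ← map_mul]
    refine key ?_ ?_
    · have h5 := norm3 (n + 1) 0 1 n 0 1 (n + 1) 0 1
      have h6 := norm2 (n + 2) n (n + 1) (n + 2) 1 0
      omega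
    · rw [map_mul, map_mul, map_mul, F_ev (n := n + 1) (by omega) (by omega) (by omega),
        F_ev (n := n) (by omega) (by omega) (by omega),
        F_ev (n := n + 2) (c := n) h2 (by omega) (by omega),
        F_ev (n := n + 2) (c := 1) h2 (by omega) (by omega)]
      exact h.cube n h1 h2

theorem sys_pair {G H : Type} [Group G] [Group H] (π : G →* H) {T : ℕ → ℕ → ℕ → G}
    {U : ℕ → ℕ → ℕ → H} {M : ℕ} (hT : Sys T M) (hU : Sys U M) :
    Sys (fun n c d => (π (T n c d), U n c d)) M := by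
  refine ⟨fun n hn => ⟨fun c hc => ?_, fun c hc d hd => ?_, fun c hc d hd e he f hf => ?_⟩,
    fun n hn c d h1 h2 h3 h4 => ?_, fun n h1 h2 => ?_⟩
  · rw [(hT.sym n hn).diag c hc, (hU.sym n hn).diag c hc, map_one]
    rfl
  · rw [Prod.mk_mul_mk, ← map_mul, (hT.sym n hn).sq c hc d hd, (hU.sym n hn).sq c hc d hd,
      map_one]
    rfl
  · rw [Prod.mk_mul_mk, Prod.mk_mul_mk, ← map_mul, ← map_mul,
      (hT.sym n hn).conj c hc d hd e he f hf, (hU.sym n hn).conj c hc d hd e he f hf]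
  · rw [hT.stab n hn c d h1 h2 h3 h4, hU.stab n hn c d h1 h2 h3 h4]
  · rw [Prod.mk_mul_mk, Prod.mk_mul_mk, Prod.mk_mul_mk, ← map_mul, ← map_mul, ← map_mul,
      hT.cube n h1 h2, hU.cube n h1 h2]

end Vfpx

open Vfpx in
theorem vfp_main (h1 : SpExt) (h2 : SpTr) (h3 : SpNf) : SpVfp := by
  obtain ⟨-, -, hS, hL, -⟩ := h2
  obtain ⟨T, hT, hT7⟩ := (h1 (PresentedGroup R)).1 _ (sys7 (hS 7))
  let π : PresentedGroup R →* Equiv.Perm X :=
    PresentedGroup.toGroup (f := tv) (rels := R) fun r hr => hr.2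
  have hπ : ∀ n c d, c < n → d < n → π (T n c d) = TV n c d := by
    intro n c d hc hd
    refine (h1 (Equiv.Perm X × Equiv.Perm X)).2 _ (fun M => sys_pair π (hT M) (hS M))
      (MonoidHom.eqLocus (MonoidHom.fst _ _) (MonoidHom.snd _ _)) ?_ n c d hc hd
    rintro _ ⟨n, c, d, hn, hc, hd, rfl⟩
    change π (T n c d) = TV n c d
    rw [hT7 n hn c hc d hd, ← F_ev hn hc hd]
    rfl
  have hgen : Subgroup.closure {g | ∃ n c d, c < n ∧ d < n ∧ g = T n c d} = ⊤ := by
    refine eq_top_iff.2 fun g _ => PresentedGroup.generated_by R _ (fun a => ?_) g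
    have h := a.1.1.2
    refine Subgroup.subset_closure ⟨a.1.1, a.1.2.1, a.1.2.2, a.2.1, a.2.2, ?_⟩
    rw [hT7 _ (by omega) _ a.2.1 _ a.2.2, F_of]
    rfl
  obtain ⟨hinj, hloc⟩ := h3 (PresentedGroup R) T π hT hπ hgen
  have hle : π.range ≤ V := by
    rw [MonoidHom.range_eq_map, ← hgen, Subgroup.map_le_iff_le_comap, Subgroup.closure_le]
    rintro _ ⟨n, c, d, hc, hd, rfl⟩
    change π (T n c d) ∈ V
    rw [hπ n c d hc hd]
    exact Subgroup.subset_closure ⟨_, _, rfl⟩
  have heq : π.range = V := le_antisymm hle fun g hg => hloc g (hL g hg)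
  have : Finite R := R_fin
  exact ⟨Group.IsFinitelyPresented.equiv
    ((MonoidHom.ofInjective hinj).trans (MulEquiv.subgroupCongr heq)),
    fun g hg => hle (hloc g hg)⟩

end Pool.Agent.MP_89edc2_al.H5
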